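import Pool.Agent.NRV.St

/-!
# NRV, module ESC (helper26): characters, the short range
-/

set_option autoImplicit false

namespace Pool.Agent.NRV

open Finset
open Pool.Agent.GBQ (ee nd gm)
open Pool.Agent.SI (nit rgh smo TT alp fac)

private theorem ESCX_ee (x : ℝ) : ‖ee x‖ = 1 := by
  unfold Pool.Agent.GBQ.ee
  exact Complex.norm_exp_ofReal_mul_I _

/-- exchange of the sums -/
private theorem ESCX_sum {q : ℕ} (χ : DirichletCharacter ℂ q) (c : ℕ → ℂ) (hc : ∀ a, ‖c a‖ ≤ 1)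
    (h : ∀ n : ℕ, χ (n : ZMod q) = ∑ a ∈ range q, c a * ee ((a / q : ℝ) * n)) (s : Finset ℕ)
    (t : ℝ) : ‖∑ n ∈ s, χ (n : ZMod q) * nit t n‖ ≤
      ∑ a ∈ range q, ‖∑ n ∈ s, nit t n * ee ((a / q : ℝ) * n)‖ := by
  have e : ∑ n ∈ s, χ (n : ZMod q) * nit t n =
      ∑ a ∈ range q, c a * ∑ n ∈ s, nit t n * ee ((a / q : ℝ) * n) := by
    have e1 : ∀ n ∈ s, χ (n : ZMod q) * nit t n =
        ∑ a ∈ range q, c a * (nit t n * ee ((a / q : ℝ) * n)) := by
      intro n _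
      rw [h n, sum_mul]
      refine sum_congr rfl fun a _ => ?_
      ring
    rw [sum_congr rfl e1, sum_comm]
    refine sum_congr rfl fun a _ => ?_
    rw [mul_sum]
  rw [e]
  refine (norm_sum_le _ _).trans (sum_le_sum fun a _ => ?_)
  rw [norm_mul]
  exact mul_le_of_le_one_left (norm_nonneg _) (hc a)

theorem thm_ESC (hFin : St_Fin) (hEST : St_EST) : St_ESC := by
  intro A D
  obtain ⟨B, X₀, h⟩ := hEST (A + D)
  refine ⟨B, max X₀ 3, fun X M q χ t hX hq hqD hB ht hM => ?_⟩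
  obtain ⟨c, hc, hχ⟩ := hFin q χ hq
  have hX3 : (3 : ℝ) ≤ X := by exact_mod_cast (le_max_right X₀ 3).trans hX
  have hL : 0 < Real.log X := Real.log_pos (by linarith)
  refine (ESCX_sum χ c hc hχ (Icc 1 M) t).trans ?_
  have h1 : ∀ a ∈ range q, ‖∑ n ∈ Icc 1 M, nit t n * ee ((a / q : ℝ) * n)‖ ≤
      M / Real.log X ^ (A + D) := fun a _ =>
    h X M t (a / q : ℝ) ((le_max_left X₀ 3).trans hX) hB ht hM
  refine (sum_le_sum h1).trans ?_
  rw [sum_const, card_range, nsmul_eq_mul, pow_add, mul_div_assoc', div_le_div_iff₀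
    (by positivity) (by positivity)]
  have hM0 : (0 : ℝ) ≤ M := Nat.cast_nonneg M
  calc (q : ℝ) * M * Real.log X ^ A ≤ Real.log X ^ D * M * Real.log X ^ A := by gcongr
    _ = M * (Real.log X ^ A * Real.log X ^ D) := by ring

end Pool.Agent.NRV
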