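import Pool.Agent.NRV.Defs

/-!
# NRV: statements

Block V1 of project NRP: for characters `χ` modulo `q ≤ (log X)^D` and `(log X)^B ≤ |t| ≤ X²`,
`X^δ ≤ u ≤ X`, the sums of `χ(n) n^{-it}` and `μ(n) χ(n) n^{-it}` over `n ≤ u` are at most `u/(log X)^A`.
The proofs are those of the modules of `Pool/Agent/SI` (library), with three changes: (1) an additive
twist `ee(ϑ n)`, `ϑ` arbitrary, in the exponential sums (the mean value method does not see the term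
`j = 1`, the second derivative test does not see linear phases); (2) characters are linear combinations
of `ee(a n/q)` with coefficients at most `1` in absolute value; (3) the sieving limit is `yX X`, in
terms of `X`, not of `t`; so all bounds are in terms of `𝓛 = log X` and `q ≤ 𝓛^D` does no harm.
-/

set_option autoImplicit false

namespace Pool.Agent.NRV

open Finset
open Pool.Agent.GBQ (ee nd gm)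
open Pool.Agent.SI (nit rgh smo TT alp fac)
open Pool.Agent.Helper25.MD (LL mob gch)

/-! ### 1. Exponential sums with an additive twist -/

/-- [TnT] `SI.thm_Tn` with arbitrary `α 1`: the proof (file `SI/Tn.lean`) uses nontrivial bounds for
`EE s Y j (α j)` only for `j ∈ tnJ κ`, `1.18 κ ≤ j`, `κ ≥ 1`, so `j ≥ 2`; for all other `j`
`tn_EE_triv` holds for every real number.  (`SI.St_MVT`, `SI.St_Hol`, `SI.St_Ej` are proved: see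
`SI/Asm.lean`.) -/
def St_TnT : Prop := ∃ c C : ℝ, 0 < c ∧ c ≤ 1 ∧ 1 ≤ C ∧ ∀ (k N n : ℕ) (t : ℝ) (α : ℕ → ℝ),
  2 ≤ k → 1 ≤ N → N < n → n ≤ 2 * N → (N : ℝ) ^ (k - 1) ≤ t → t ≤ (N : ℝ) ^ k →
  (∀ j, 2 ≤ j → α j = alp t n j) →
  ‖TT (5 * k) ⌊(N : ℝ) ^ (2 / 5 : ℝ)⌋₊ α‖ ≤
    C * (⌊(N : ℝ) ^ (2 / 5 : ℝ)⌋₊ : ℝ) ^ 2 * (N : ℝ) ^ (-(c / (k : ℝ) ^ 4))

/-- [ExpT] `SI.thm_ExpK` (file `SI/ExpK.lean`) for `f(n) = nit t n * ee(ϑ n)`: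
`f(n + x y) = f(n) * ee(ϑ x y) * exp(-it log(1 + xy/n))`, so `TT (5k) Y α` with
`α j = alp t n j` for `j ≥ 2` and `α 1 = alp t n 1 + ϑ`. -/
def St_ExpT : Prop := ∃ c C : ℝ, 0 < c ∧ c ≤ 1 ∧ 1 ≤ C ∧ ∀ (k N N' : ℕ) (t ϑ : ℝ), 2 ≤ k → 1 ≤ N →
  N' ≤ 2 * N → (N : ℝ) ^ (k - 1) ≤ t → t ≤ (N : ℝ) ^ k →
  ‖∑ n ∈ Ioc N N', nit t n * ee (ϑ * n)‖ ≤ C * (N : ℝ) ^ (1 - c / (k : ℝ) ^ 4)

/-- [VDT] second derivative test: `SI.thm_VD2` (with `SI.thm_KL`) for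
`g(n) = (|t|/2π) (-log n)` plus a linear function (or the complex conjugate); the second differences of
`-log` are between `1/(n+1)²` and `1/n²` or similar (see `vc_d2`, `vc_vd2` in `SI/VC.lean`). -/
def St_VDT : Prop := ∃ C : ℝ, 1 ≤ C ∧ ∀ (N N' : ℕ) (t ϑ : ℝ), 1 ≤ N → N' ≤ 2 * N → 1 ≤ |t| →
  ‖∑ n ∈ Ioc N N', nit t n * ee (ϑ * n)‖ ≤ C * (Real.sqrt |t| + N / Real.sqrt |t|)

/-- [EST] as `SI.thm_ES` (file `SI/ES.lean`), in terms of `X`.  `t > 0` by conjugation (`ϑ → -ϑ`).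
`M₀ = ⌊M/𝓛^(A+1)⌋`; dyadic blocks `(N, N']`, `N ≥ M₀ ≥ exp(𝓛^(9/10)/2)` (`SI.es_dyadic`).  `N ≥ t`: `St_VDT`
gives `2C N/√t ≤ 2C N 𝓛^(-B/2)`.  `N < t`: `k = ⌈log t/log N⌉`, `2 ≤ k ≤ 10 𝓛^(1/10)`, `St_ExpT`:
`C N exp(-c log N/k⁴)`, `log N/k⁴ ≥ 𝓛^(1/2)/20000`. -/
def St_EST : Prop := ∀ A : ℕ, ∃ B X₀ : ℕ, ∀ (X M : ℕ) (t ϑ : ℝ), X₀ ≤ X →
  Real.log X ^ B ≤ |t| → |t| ≤ (X : ℝ) ^ 4 → Real.exp (Real.log X ^ (9 / 10 : ℝ)) ≤ M →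
  ‖∑ n ∈ Icc 1 M, nit t n * ee (ϑ * n)‖ ≤ M / Real.log X ^ A

/-! ### 2. Characters -/

/-- [Fin] finite Fourier analysis modulo `q`:
`c a = (1/q) ∑_{b < q} χ(b) ee(-a b/q)`. -/
def St_Fin : Prop := ∀ (q : ℕ) (χ : DirichletCharacter ℂ q), 1 ≤ q → ∃ c : ℕ → ℂ,
  (∀ a, ‖c a‖ ≤ 1) ∧ ∀ n : ℕ, χ (n : ZMod q) = ∑ a ∈ range q, c a * ee ((a / q : ℝ) * n)

/-- [ESC] `St_Fin` and `St_EST` with `A + D`: `q (M/𝓛^(A+D)) ≤ M/𝓛^A`. -/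
def St_ESC : Prop := ∀ A D : ℕ, ∃ B X₀ : ℕ, ∀ (X M q : ℕ) (χ : DirichletCharacter ℂ q) (t : ℝ),
  X₀ ≤ X → 1 ≤ q → (q : ℝ) ≤ Real.log X ^ D → Real.log X ^ B ≤ |t| → |t| ≤ (X : ℝ) ^ 4 →
  Real.exp (Real.log X ^ (9 / 10 : ℝ)) ≤ M →
  ‖∑ n ∈ Icc 1 M, χ (n : ZMod q) * nit t n‖ ≤ M / Real.log X ^ A

/-- [VCC] `St_Fin`.  `a = 0`: first part of `SI.St_VC`.  `1 ≤ a < q`, `|t| ≤ N/q`: inequality of Kusmin and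
Landau (`SI.thm_KL`): the differences of `(a/q) n - (t/2π) log n` are in
`[1/q - 1/(2πq), 1 - 1/q + 1/(2πq)]` (up to a sign), `lam = 1/(2q)`, monotone, so `≤ 2 C q ≤ 2 C q √|t|`.
`|t| > N/q`: `St_VDT`, `√|t| + N/√|t| ≤ (1 + q) √|t|`. -/
def St_VCC : Prop := ∃ C : ℝ, 1 ≤ C ∧ ∀ (N N' q : ℕ) (χ : DirichletCharacter ℂ q) (t : ℝ),
  1 ≤ N → N' ≤ 2 * N → 1 ≤ q → 1 ≤ |t| →
  ‖∑ n ∈ Ioc N N', χ (n : ZMod q) * nit t n‖ ≤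
    C * (q : ℝ) ^ 2 * (N / |t| + Real.sqrt |t|)

/-! ### 3. The function of Möbius -/

/-- [RC] rough numbers: as `SI.thm_RT` (file `SI/RT.lean`, with `SI.thm_RU`, `SI.thm_Fq`), with
`y = yX X`, `χ` completely multiplicative (`χ(d m) nit t (d m) = χ(d) nit t d χ(m) nit t m`), and `St_ESC`
(exponent `A + 2`) for the inner sums: their length is `≥ √u - 1 ≥ exp(𝓛^(9/10))`. -/
def St_RC : Prop := ∀ K A D : ℕ, ∃ (C : ℝ) (B X₀ : ℕ), 0 < C ∧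
  ∀ (X u q : ℕ) (χ : DirichletCharacter ℂ q) (t : ℝ), X₀ ≤ X → 1 ≤ q → (q : ℝ) ≤ Real.log X ^ D →
  Real.log X ^ B ≤ |t| → |t| ≤ (X : ℝ) ^ 4 → yX X ≤ u →
  ‖∑ n ∈ Icc 1 u, rc χ (yX X) n * nit t n‖ ≤ C * (u / Real.log (yX X)) *
    ((Real.log (yX X) / Real.log u) ^ K + 1 / Real.log X ^ A)

/-- [K1C] as `SI.thm_K1` (file `SI/K1.lean`: Abel summation, `k1_main`), from `St_RC` with
`K = j + 2` and exponent `B' (j + 1)`. -/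
def St_K1C : Prop := ∀ j B' D : ℕ, ∃ (C : ℝ) (B X₀ : ℕ), 1 ≤ C ∧
  ∀ (X q : ℕ) (χ : DirichletCharacter ℂ q) (t σ : ℝ), X₀ ≤ X → 1 ≤ q → (q : ℝ) ≤ Real.log X ^ D →
  Real.log X ^ B ≤ |t| → |t| ≤ (X : ℝ) ^ 4 → 1 + 1 / Real.log X ^ B' ≤ σ → σ ≤ 2 →
  ‖LL (rc χ (yX X)) j ((σ : ℂ) + (t : ℂ) * Complex.I)‖ ≤ C * Real.log (yX X) ^ j

/-- [K2C] as `SI.thm_K2` (file `SI/K2.lean`): `3 + 4 cos + cos ≥ 0` for the primes `p > y` not dividing `q`: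
`1 ≤ ‖F(σ; rgh)‖³ ‖F(σ + it; χ)‖⁴ ‖F(σ + 2it; χ²)‖` (at `σ` the principal character is replaced by
`rgh y`, all terms nonnegative; `k2_real` and `SI.thm_RU` for this factor), `St_K1C` for `χ`, `j = 1`, and
for `χ ^ 2`, `2t`, `j = 0` (`|2t| ≤ 2X³ ≤ X⁴`). -/
def St_K2C : Prop := ∀ B' D : ℕ, ∃ (c : ℝ) (B X₀ : ℕ), 0 < c ∧
  ∀ (X q : ℕ) (χ : DirichletCharacter ℂ q) (t σ : ℝ), X₀ ≤ X → 1 ≤ q → (q : ℝ) ≤ Real.log X ^ D →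
  Real.log X ^ B ≤ |t| → |t| ≤ (X : ℝ) ^ 3 → 1 + 1 / Real.log X ^ B' ≤ σ → σ ≤ 2 →
  c ≤ ‖LL (rc χ (yX X)) 0 ((σ : ℂ) + (t : ℂ) * Complex.I)‖

/-- [K3C] the smooth part: as `SI.thm_K3` (file `SI/K3.lean`); every estimate there is termwise, and
`‖sc χ y n‖ ≤ ‖smo y n‖`. -/
def St_K3C : Prop := ∀ j : ℕ, ∃ C : ℝ, 0 < C ∧ ∀ (y q : ℕ) (χ : DirichletCharacter ℂ q) (s : ℂ),
  2 ≤ y → 1 < s.re → ‖LL (sc χ y) j s‖ ≤ C * Real.log y ^ (j + 3)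

/-- [K4C] as `SI.thm_K4` (file `SI/K4.lean`): the convolution of `rc χ y` and `χ k4_G y` is the unit, the one of
`sc χ y` and `χ k4_G y` is `gch χ` (twists of `k4_RG`, `k4_SG`: `χ` is completely multiplicative); `k4_rec`
for `F = LL (rc χ y)`, `U = log y`; Leibniz; `log y ≤ 𝓛^(19/20)`. -/
def St_K4C : Prop := ∀ j B' D : ℕ, ∃ (C : ℝ) (B X₀ : ℕ), 0 < C ∧
  ∀ (X q : ℕ) (χ : DirichletCharacter ℂ q) (t σ : ℝ), X₀ ≤ X → 1 ≤ q → (q : ℝ) ≤ Real.log X ^ D →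
  Real.log X ^ B ≤ |t| → |t| ≤ (X : ℝ) ^ 3 → 1 + 1 / Real.log X ^ B' ≤ σ → σ ≤ 2 →
  ‖LL (gch χ) j ((σ : ℂ) + (t : ℂ) * Complex.I)‖ ≤ C * Real.log X ^ ((19 / 20 : ℝ) * j + 3)

/-- [MuC] as `SI.thm_MuS` (file `SI/MuS.lean`), with `SI.thm_RiL`.  `g(n) = gch χ n * nit t n`,
`σ = 1 + 1/log u'` (`u' = u` or `u + h`, `log u' ≤ 2𝓛`, so `σ ≥ 1 + 1/𝓛²`, `B' = 2`), `k = 40 (A + 5)`:
`LL g j (σ + iτ) = LL (gch χ) j (σ + i(t + τ))`.  `𝓛^B1 ≤ |t + τ| ≤ X³` (`B1` from `St_K4C`): at most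
`C 𝓛^((19/20)k + 3)`.  Otherwise trivially at most `C (log u')^(k+1)`, and `|τ| ≥ 𝓛^B/2` (if
`|t + τ| < 𝓛^B1`, `B ≥ B1 + 1`) or `|τ| ≥ X³ - X² ≥ X²`, so `(1 + |τ|)^(1/2) ≥ 𝓛^(k+1)` for `B ≥ 2k + 4`.
`St_RiL` with the bound `C 𝓛^((19/20)k + 3)`: the Riesz means are `≤ C u² 𝓛^(3 - k/20)`, differences
(`mus_diff`, `mus_final`).  No use of `SI.St_Cls`. -/
def St_MuC : Prop := ∀ (A D : ℕ) (δ : ℝ), 0 < δ → ∃ B X₀ : ℕ,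
  ∀ (X u q : ℕ) (χ : DirichletCharacter ℂ q) (t : ℝ), X₀ ≤ X → 1 ≤ q → (q : ℝ) ≤ Real.log X ^ D →
  (X : ℝ) ^ δ ≤ u → u ≤ X → Real.log X ^ B ≤ |t| → |t| ≤ (X : ℝ) ^ 2 →
  ‖∑ n ∈ Icc 1 u, mob n * χ (n : ZMod q) * nit t n‖ ≤ u / Real.log X ^ A

/-! ### 4. The factors of the identity of Heath-Brown -/

/-- [FaC] as `SI.thm_Fac` (file `SI/Fac.lean`), from `St_ESC`, `St_MuC` (first part; `2^i ≥ X^δ`) and `St_VCC`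
(second part).  This is the interface to block V2. -/
def St_FaC : Prop :=
  (∀ (A D : ℕ) (δ : ℝ), 0 < δ → ∃ B X₀ : ℕ,
    ∀ (X Z k i q : ℕ) (χ : DirichletCharacter ℂ q) (t : ℝ), X₀ ≤ X → 1 ≤ q →
    (q : ℝ) ≤ Real.log X ^ D → k ≤ 2 → (X : ℝ) ^ δ ≤ 2 ^ i → 2 ^ (i + 1) ≤ X →
    Real.log X ^ B ≤ |t| → |t| ≤ (X : ℝ) ^ 2 →
    ‖∑ n ∈ Icc 1 (2 ^ (i + 1)), ((fac k Z i n : ℝ) : ℂ) * χ (n : ZMod q) * nit t n‖ ≤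
      2 ^ i / Real.log X ^ A) ∧
  (∃ C : ℝ, 1 ≤ C ∧ ∀ (k Z i q : ℕ) (χ : DirichletCharacter ℂ q) (t : ℝ), k ≤ 1 → 1 ≤ q → 1 ≤ |t| →
    ‖∑ n ∈ Icc 1 (2 ^ (i + 1)), ((fac k Z i n : ℝ) : ℂ) * χ (n : ZMod q) * nit t n‖ ≤
      C * (1 + i) * (q : ℝ) ^ 2 * (2 ^ i / |t| + Real.sqrt |t|))

end Pool.Agent.NRV
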