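import Mathlib
import Pool.Agent.NRV.St
import Pool.Agent.SI.ES

set_option autoImplicit false

/-!
# NRV / EST

As `SI.thm_ES`, with an additive twist and in terms of `X`: `𝓛 = log X`, `𝓛^B ≤ |t| ≤ X⁴`, `B = 2 (A + 1)`,
`M ≥ exp(𝓛^(9/10))`.  Blocks `(N, N']`, `N ≥ exp(𝓛^(9/10)/2)`.  `t ≤ N`: `St_VDT` gives
`C (√t + N/√t) ≤ 2 C N/√t ≤ 2 C N/𝓛^(A+1)`.  `N < t`: `k = ⌈log t/log N⌉ ≤ 9 𝓛^(1/10)`, `St_ExpT` gives
`C N exp(-c log N/k⁴)`, `log N/k⁴ ≥ 𝓛^(1/2)/13122`.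
-/

namespace Pool.Agent.NRV

open Finset Filter
open Pool.Agent.GBQ (ee nd gm)
open Pool.Agent.SI (nit rgh smo TT alp fac)
open Pool.Agent.Helper25.MD (LL mob gch)

private theorem ESTX_block (c C₁ C₂ : ℝ) (A : ℕ) (hc : 0 < c) (hC₁ : 1 ≤ C₁) (hC₂ : 1 ≤ C₂)
    (h1 : ∀ (k N N' : ℕ) (t ϑ : ℝ), 2 ≤ k → 1 ≤ N → N' ≤ 2 * N → (N : ℝ) ^ (k - 1) ≤ t →
      t ≤ (N : ℝ) ^ k →
      ‖∑ n ∈ Ioc N N', nit t n * ee (ϑ * n)‖ ≤ C₁ * (N : ℝ) ^ (1 - c / (k : ℝ) ^ 4))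
    (h2 : ∀ (N N' : ℕ) (t ϑ : ℝ), 1 ≤ N → N' ≤ 2 * N → 1 ≤ |t| →
      ‖∑ n ∈ Ioc N N', nit t n * ee (ϑ * n)‖ ≤ C₂ * (Real.sqrt |t| + N / Real.sqrt |t|))
    (L t ϑ : ℝ) (ht1 : 1 ≤ t) (hL1 : 1 ≤ L) (htL : Real.log t ≤ 4 * L)
    (e0 : 8 * C₂ * L ^ A ≤ Real.sqrt t)
    (e2 : 4 * C₁ * L ^ A ≤ Real.exp (c / 13122 * L ^ (1 / 2 : ℝ)))
    (N N' : ℕ) (hN : Real.exp (1 / 2 * L ^ (9 / 10 : ℝ)) ≤ N) (hN' : N' ≤ 2 * N) :
    ‖∑ n ∈ Ioc N N', nit t n * ee (ϑ * n)‖ ≤ 1 / (4 * L ^ A) * N := by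
  have hL0 : 0 < L := by linarith
  have ht : 0 < t := by linarith
  have hN0 : (0 : ℝ) < N := (Real.exp_pos _).trans_le hN
  have hN1 : 1 ≤ N := by exact_mod_cast hN0
  have hLA : 0 < L ^ A := by positivity
  have htexp : t = Real.exp (Real.log t) := by rw [Real.exp_log ht]
  rcases le_or_gt t N with hcase | hcase
  · have h3 := h2 N N' t ϑ hN1 hN' (by rw [abs_of_pos ht]; exact ht1)
    rw [abs_of_pos ht] at h3
    have hs0 : 0 < Real.sqrt t := Real.sqrt_pos.2 ht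
    have hss : Real.sqrt t * Real.sqrt t = t := Real.mul_self_sqrt ht.le
    have h5 : Real.sqrt t ≤ N / Real.sqrt t := by
      rw [le_div_iff₀ hs0, hss]
      exact hcase
    have h6 : C₂ * (Real.sqrt t + N / Real.sqrt t) ≤ C₂ * (2 * (N / Real.sqrt t)) :=
      mul_le_mul_of_nonneg_left (by linarith) (by linarith)
    refine h3.trans (h6.trans ?_)
    have h7 : C₂ * (2 * (N / Real.sqrt t)) = (2 * C₂ / Real.sqrt t) * N := by
      field_simp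
    rw [h7]
    refine mul_le_mul_of_nonneg_right ?_ hN0.le
    rw [div_le_div_iff₀ hs0 (by positivity)]
    nlinarith
  · have hlogN : 1 / 2 * L ^ (9 / 10 : ℝ) ≤ Real.log N := by
      have := Real.log_le_log (Real.exp_pos _) hN
      rwa [Real.log_exp] at this
    have hL9 : 0 < L ^ (9 / 10 : ℝ) := by positivity
    have hlN0 : 0 < Real.log N := by linarith
    have hlNL : Real.log N < Real.log t := Real.log_lt_log hN0 hcase
    set k := ⌈Real.log t / Real.log N⌉₊ with hk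
    have hq1 : 1 < Real.log t / Real.log N := by
      rw [lt_div_iff₀ hlN0]
      linarith
    have hk2 : 2 ≤ k := by
      have : 1 < k := Nat.lt_ceil.2 (by rw [Nat.cast_one]; exact hq1)
      omega
    have hkge : Real.log t / Real.log N ≤ k := Nat.le_ceil _
    have hklt : (k : ℝ) < Real.log t / Real.log N + 1 := Nat.ceil_lt_add_one (by linarith)
    have ht2 : t ≤ (N : ℝ) ^ k := by
      rw [div_le_iff₀ hlN0] at hkge
      rw [htexp, ← Real.exp_log hN0, ← Real.exp_nat_mul, Real.exp_le_exp]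
      exact hkge
    have ht3 : (N : ℝ) ^ (k - 1) ≤ t := by
      have h5 : ((k - 1 : ℕ) : ℝ) = (k : ℝ) - 1 := by
        rw [Nat.cast_sub (by omega)]
        simp
      have h6 : (k : ℝ) - 1 < Real.log t / Real.log N := by linarith
      rw [lt_div_iff₀ hlN0] at h6
      rw [htexp, ← Real.exp_log hN0, ← Real.exp_nat_mul, Real.exp_le_exp, h5]
      exact h6.le
    have h3 := h1 k N N' t ϑ hk2 hN1 hN' ht3 ht2
    refine h3.trans ?_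
    have hk0 : (0 : ℝ) < k := by exact_mod_cast (by omega : 0 < k)
    have hL10 : 1 ≤ L ^ (1 / 10 : ℝ) := Real.one_le_rpow hL1 (by norm_num)
    have hkle : (k : ℝ) ≤ 9 * L ^ (1 / 10 : ℝ) := by
      have h5 : Real.log t / Real.log N ≤ 8 * L ^ (1 / 10 : ℝ) := by
        rw [div_le_iff₀ hlN0]
        have h6 : L = L ^ (1 / 10 : ℝ) * L ^ (9 / 10 : ℝ) := by
          rw [← Real.rpow_add hL0]
          norm_num
        have h7 : L ^ (1 / 10 : ℝ) * (1 / 2 * L ^ (9 / 10 : ℝ)) ≤ L ^ (1 / 10 : ℝ) * Real.log N :=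
          mul_le_mul_of_nonneg_left hlogN (by positivity)
        nlinarith
      linarith
    have hk4 : (k : ℝ) ^ 4 ≤ 6561 * L ^ (4 / 10 : ℝ) := by
      have h5 := pow_le_pow_left₀ hk0.le hkle 4
      have h6 : (9 * L ^ (1 / 10 : ℝ)) ^ 4 = 6561 * L ^ (4 / 10 : ℝ) := by
        rw [mul_pow, ← Real.rpow_mul_natCast hL0.le]
        norm_num
      rwa [h6] at h5
    have hexp : c / 13122 * L ^ (1 / 2 : ℝ) ≤ c / (k : ℝ) ^ 4 * Real.log N := by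
      have h5 : L ^ (1 / 2 : ℝ) * (L ^ (4 / 10 : ℝ)) = L ^ (9 / 10 : ℝ) := by
        rw [← Real.rpow_add hL0]
        norm_num
      have h6 : 0 < (k : ℝ) ^ 4 := by positivity
      rw [div_mul_eq_mul_div, div_mul_eq_mul_div, div_le_div_iff₀ (by norm_num) h6]
      have h7 : L ^ (1 / 2 : ℝ) * (k : ℝ) ^ 4 ≤ L ^ (1 / 2 : ℝ) * (6561 * L ^ (4 / 10 : ℝ)) :=
        mul_le_mul_of_nonneg_left hk4 (by positivity)
      have h8 : L ^ (1 / 2 : ℝ) * (k : ℝ) ^ 4 ≤ Real.log N * 13122 := by nlinarith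
      have h9 := mul_le_mul_of_nonneg_left h8 hc.le
      nlinarith
    have hrw : (N : ℝ) ^ (1 - c / (k : ℝ) ^ 4) = N * Real.exp (-(c / (k : ℝ) ^ 4 * Real.log N)) := by
      rw [sub_eq_add_neg, Real.rpow_add hN0, Real.rpow_one, Real.rpow_def_of_pos hN0]
      congr 2
      ring
    rw [hrw]
    have h5 : Real.exp (-(c / (k : ℝ) ^ 4 * Real.log N)) ≤
        Real.exp (-(c / 13122 * L ^ (1 / 2 : ℝ))) :=
      Real.exp_le_exp.2 (by linarith)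
    have h6 : C₁ * Real.exp (-(c / 13122 * L ^ (1 / 2 : ℝ))) ≤ 1 / (4 * L ^ A) := by
      rw [Real.exp_neg, ← div_eq_mul_inv, div_le_div_iff₀ (Real.exp_pos _) (by positivity)]
      linarith
    calc C₁ * (N * Real.exp (-(c / (k : ℝ) ^ 4 * Real.log N)))
        = (C₁ * Real.exp (-(c / (k : ℝ) ^ 4 * Real.log N))) * N := by ring
      _ ≤ (C₁ * Real.exp (-(c / 13122 * L ^ (1 / 2 : ℝ)))) * N :=
          mul_le_mul_of_nonneg_right (mul_le_mul_of_nonneg_left h5 (by linarith)) hN0.le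
      _ ≤ 1 / (4 * L ^ A) * N := mul_le_mul_of_nonneg_right h6 hN0.le

private theorem ESTX_nit (t : ℝ) (n : ℕ) : nit (-t) n = (starRingEnd ℂ) (nit t n) := by
  unfold nit
  rw [← Complex.exp_conj, map_mul, Complex.conj_ofReal, Complex.conj_I]
  congr 1
  push_cast
  ring

private theorem ESTX_conj (t ϑ : ℝ) (s : Finset ℕ) :
    ‖∑ n ∈ s, nit (-t) n * ee (-ϑ * n)‖ = ‖∑ n ∈ s, nit t n * ee (ϑ * n)‖ := by
  have h1 : ∑ n ∈ s, nit (-t) n * ee (-ϑ * n) = (starRingEnd ℂ) (∑ n ∈ s, nit t n * ee (ϑ * n)) := by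
    rw [map_sum]
    refine sum_congr rfl fun n _ => ?_
    rw [map_mul, ESTX_nit, neg_mul, GBQ.ee_neg]
  rw [h1, Complex.norm_conj]

private theorem ESTX_pos (c C₁ C₂ : ℝ) (A : ℕ) (hc : 0 < c) (hC₁ : 1 ≤ C₁) (hC₂ : 1 ≤ C₂)
    (h1 : ∀ (k N N' : ℕ) (t ϑ : ℝ), 2 ≤ k → 1 ≤ N → N' ≤ 2 * N → (N : ℝ) ^ (k - 1) ≤ t →
      t ≤ (N : ℝ) ^ k →
      ‖∑ n ∈ Ioc N N', nit t n * ee (ϑ * n)‖ ≤ C₁ * (N : ℝ) ^ (1 - c / (k : ℝ) ^ 4))
    (h2 : ∀ (N N' : ℕ) (t ϑ : ℝ), 1 ≤ N → N' ≤ 2 * N → 1 ≤ |t| →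
      ‖∑ n ∈ Ioc N N', nit t n * ee (ϑ * n)‖ ≤ C₂ * (Real.sqrt |t| + N / Real.sqrt |t|))
    (L t ϑ : ℝ) (ht1 : 1 ≤ t) (hL1 : 1 ≤ L) (htL : Real.log t ≤ 4 * L)
    (e0 : 8 * C₂ * L ^ A ≤ Real.sqrt t)
    (e2 : 4 * C₁ * L ^ A ≤ Real.exp (c / 13122 * L ^ (1 / 2 : ℝ)))
    (e3 : 4 * L ^ A ≤ Real.exp (1 / 2 * L ^ (9 / 10 : ℝ)))
    (M : ℕ) (hM : Real.exp (L ^ (9 / 10 : ℝ)) ≤ M) :
    ‖∑ n ∈ Icc 1 M, nit t n * ee (ϑ * n)‖ ≤ M / L ^ A := by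
  have hL0 : 0 < L := by linarith
  have hLA : 0 < L ^ A := by positivity
  have hM0 : (0 : ℝ) < M := (Real.exp_pos _).trans_le hM
  set M₀ := ⌈(M : ℝ) / (4 * L ^ A)⌉₊ with hM₀
  have hge : (M : ℝ) / (4 * L ^ A) ≤ M₀ := Nat.le_ceil _
  have hlt : (M₀ : ℝ) < (M : ℝ) / (4 * L ^ A) + 1 := Nat.ceil_lt_add_one (by positivity)
  have hEx : Real.exp (1 / 2 * L ^ (9 / 10 : ℝ)) ≤ (M : ℝ) / (4 * L ^ A) := by
    rw [le_div_iff₀ (by positivity)]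
    have h3 : Real.exp (L ^ (9 / 10 : ℝ)) = Real.exp (1 / 2 * L ^ (9 / 10 : ℝ)) *
        Real.exp (1 / 2 * L ^ (9 / 10 : ℝ)) := by
      rw [← Real.exp_add]
      congr 1
      ring
    rw [h3] at hM
    have h4 := mul_le_mul_of_nonneg_left e3 (Real.exp_pos (1 / 2 * L ^ (9 / 10 : ℝ))).le
    linarith
  have hex1 : 1 ≤ Real.exp (1 / 2 * L ^ (9 / 10 : ℝ)) := Real.one_le_exp (by positivity)
  have hM₀1 : 1 ≤ M₀ := by
    have : (1 : ℝ) ≤ M₀ := by linarith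
    exact_mod_cast this
  have hM₀2 : (M₀ : ℝ) ≤ (M : ℝ) / (2 * L ^ A) := by
    have h3 : (M : ℝ) / (2 * L ^ A) = (M : ℝ) / (4 * L ^ A) + (M : ℝ) / (4 * L ^ A) := by
      field_simp
      norm_num
    rw [h3]
    linarith
  have hLA1 : 1 ≤ L ^ A := one_le_pow₀ hL1
  have hM₀M : M₀ ≤ M := by
    have h3 : (M : ℝ) / (2 * L ^ A) ≤ M := div_le_self hM0.le (by linarith)
    exact_mod_cast hM₀2.trans h3
  have hblock : ∀ N N' : ℕ, M₀ ≤ N → N' ≤ 2 * N →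
      ‖∑ n ∈ Ioc N N', nit t n * ee (ϑ * n)‖ ≤ 1 / (4 * L ^ A) * N := by
    intro N N' hN hN'
    have hN2 : Real.exp (1 / 2 * L ^ (9 / 10 : ℝ)) ≤ N := by
      have : (M₀ : ℝ) ≤ N := by exact_mod_cast hN
      linarith
    exact ESTX_block c C₁ C₂ A hc hC₁ hC₂ h1 h2 L t ϑ ht1 hL1 htL e0 e2 N N' hN2 hN'
  have h3 := SI.es_dyadic (fun n => nit t n * ee (ϑ * n)) (1 / (4 * L ^ A)) (by positivity) M₀ hM₀1
    hblock M hM₀M
  have h4 : ∑ n ∈ Icc 1 M, nit t n * ee (ϑ * n) =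
      ∑ n ∈ Ioc 0 M₀, nit t n * ee (ϑ * n) + ∑ n ∈ Ioc M₀ M, nit t n * ee (ϑ * n) := by
    rw [Finset.sum_Ioc_consecutive _ (Nat.zero_le _) hM₀M]
    rfl
  have h5 : ‖∑ n ∈ Ioc 0 M₀, nit t n * ee (ϑ * n)‖ ≤ M₀ := by
    refine (norm_sum_le _ _).trans ?_
    have h6 : ∀ n ∈ Ioc 0 M₀, ‖nit t n * ee (ϑ * n)‖ ≤ 1 := by
      intro n _
      rw [norm_mul, GBQ.ee_norm, mul_one]
      exact le_of_eq (Complex.norm_exp_ofReal_mul_I _)
    refine (Finset.sum_le_sum h6).trans ?_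
    rw [Finset.sum_const, Nat.card_Ioc, nsmul_eq_mul, mul_one, Nat.sub_zero]
  rw [h4]
  refine (norm_add_le _ _).trans ?_
  have h6 : 2 * (1 / (4 * L ^ A)) * (M : ℝ) = (M : ℝ) / (2 * L ^ A) := by
    field_simp
    norm_num
  have h7 : (M : ℝ) / L ^ A = (M : ℝ) / (2 * L ^ A) + (M : ℝ) / (2 * L ^ A) := by
    field_simp
    norm_num
  rw [h7]
  rw [h6] at h3
  linarith

theorem thm_EST (hE : St_ExpT) (hV : St_VDT) : St_EST := by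
  obtain ⟨c, C₁, hc0, hc1, hC₁, hE⟩ := hE
  obtain ⟨C₂, hC₂, hV⟩ := hV
  intro A
  have ev := ((eventually_ge_atTop (8 * C₂)).and
    ((SI.es_big (4 * C₁) (c / 13122) (1 / 2) A (by positivity) (by norm_num)).and
    ((SI.es_big 4 (1 / 2) (9 / 10) A (by norm_num) (by norm_num)).and (eventually_ge_atTop 1))))
  have hlogt : Tendsto (fun X : ℕ => Real.log X) atTop atTop :=
    Real.tendsto_log_atTop.comp tendsto_natCast_atTop_atTop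
  obtain ⟨X₀, hX₀⟩ := eventually_atTop.1 ((hlogt.eventually ev).and (eventually_ge_atTop 1))
  refine ⟨2 * (A + 1), X₀, ?_⟩
  intro X M t ϑ hX ht1 ht2 hM
  obtain ⟨⟨e1, e2, e3, hL1⟩, hX1⟩ := hX₀ X hX
  set L := Real.log X with hL
  have hL0 : 0 < L := by linarith
  have hX0 : (0 : ℝ) < X := by exact_mod_cast hX1
  have key : ∀ t ϑ : ℝ, 0 < t → L ^ (2 * (A + 1)) ≤ t → t ≤ (X : ℝ) ^ 4 →
      ‖∑ n ∈ Icc 1 M, nit t n * ee (ϑ * n)‖ ≤ M / L ^ A := by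
    intro t ϑ ht0 ht1 ht2
    have h1 : 1 ≤ L ^ (2 * (A + 1)) := one_le_pow₀ hL1
    have h2 : Real.log t ≤ 4 * L := by
      have h3 := Real.log_le_log ht0 ht2
      rw [Real.log_pow] at h3
      exact_mod_cast h3
    have h3 : L ^ (A + 1) ≤ Real.sqrt t := by
      refine Real.le_sqrt_of_sq_le ?_
      rw [← pow_mul, mul_comm (A + 1) 2]
      exact ht1
    have h4 : 8 * C₂ * L ^ A ≤ Real.sqrt t := by
      refine le_trans ?_ h3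
      rw [pow_succ, mul_comm (L ^ A) L]
      exact mul_le_mul_of_nonneg_right e1 (by positivity)
    exact ESTX_pos c C₁ C₂ A hc0 hC₁ hC₂ hE hV L t ϑ (h1.trans ht1) hL1 h2 h4 e2 e3 M hM
  have ht0 : 0 < |t| := by
    have h1 : 1 ≤ L ^ (2 * (A + 1)) := one_le_pow₀ hL1
    linarith
  rcases lt_or_ge t 0 with hneg | hpos
  · rw [abs_of_neg hneg] at ht0 ht1 ht2
    rw [← ESTX_conj t ϑ]
    exact key (-t) (-ϑ) ht0 ht1 ht2
  · rw [abs_of_nonneg hpos] at ht0 ht1 ht2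
    exact key t ϑ ht0 ht1 ht2

end Pool.Agent.NRV
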