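import Mathlib
import Pool.Agent.NRV.St
import Pool.Agent.SI.ExpK

/-!
# NRV / ExpT

The proof of `SI.thm_ExpK` for `f(n) = nit t n * ee(ϑ n)`.
-/

set_option autoImplicit false

namespace Pool.Agent.NRV.ExpTX

open Finset
open Pool.Agent.GBQ (ee nd gm)
open Pool.Agent.SI (nit rgh smo TT alp fac)

/-- the summand -/
private noncomputable def ff (t ϑ : ℝ) (n : ℕ) : ℂ := nit t n * ee (ϑ * n)

/-- the coefficients -/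
private noncomputable def al (t ϑ : ℝ) (n j : ℕ) : ℝ := if j = 1 then alp t n 1 + ϑ else alp t n j

private theorem norm_ee' (u : ℝ) : ‖ee u‖ = 1 := by
  unfold ee
  exact Complex.norm_exp_ofReal_mul_I _

private theorem ee_add' (u v : ℝ) : ee (u + v) = ee u * ee v := by
  unfold ee
  rw [← Complex.exp_add]
  congr 1
  push_cast
  ring

private theorem ff_norm (t ϑ : ℝ) (n : ℕ) : ‖ff t ϑ n‖ = 1 := by
  unfold ff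
  rw [norm_mul, Pool.Agent.SI.expk_nit_norm, norm_ee', one_mul]

private theorem al_sum (t ϑ : ℝ) (n r x y : ℕ) (hr : 1 ≤ r) :
    ∑ j ∈ Icc 1 r, al t ϑ n j * (x : ℝ) ^ j * (y : ℝ) ^ j =
      ∑ j ∈ Icc 1 r, alp t n j * (x : ℝ) ^ j * (y : ℝ) ^ j + ϑ * ((x : ℝ) * y) := by
  have h1 : ∀ j ∈ Icc 1 r, al t ϑ n j * (x : ℝ) ^ j * (y : ℝ) ^ j =
      alp t n j * (x : ℝ) ^ j * (y : ℝ) ^ j + (if j = 1 then ϑ * ((x : ℝ) * y) else 0) := by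
    intro j _
    unfold al
    by_cases hj : j = 1
    · subst hj
      simp only [if_true, pow_one]
      ring
    · rw [if_neg hj, if_neg hj, add_zero]
  rw [Finset.sum_congr rfl h1, Finset.sum_add_distrib, Finset.sum_ite_eq' (Icc 1 r) 1]
  rw [if_pos (Finset.mem_Icc.2 ⟨le_rfl, hr⟩)]

private theorem point (t ϑ : ℝ) (n r x y : ℕ) (hn : 0 < n) (ht : 0 ≤ t) (hr : 1 ≤ r)
    (hz : ((x : ℝ) * y) / n ≤ 1 / 2) :
    ‖ff t ϑ (n + x * y) -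
      ff t ϑ n * ee (∑ j ∈ Icc 1 r, al t ϑ n j * (x : ℝ) ^ j * (y : ℝ) ^ j)‖ ≤
      t * (2 * (((x : ℝ) * y) / n) ^ (r + 1)) := by
  have h1 := Pool.Agent.SI.expk_point t n r x y hn ht hz
  have h2 : ff t ϑ (n + x * y) -
      ff t ϑ n * ee (∑ j ∈ Icc 1 r, al t ϑ n j * (x : ℝ) ^ j * (y : ℝ) ^ j) =
      ee (ϑ * ((n + x * y : ℕ) : ℝ)) * (nit t (n + x * y) -
        nit t n * ee (∑ j ∈ Icc 1 r, alp t n j * (x : ℝ) ^ j * (y : ℝ) ^ j)) := by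
    rw [al_sum t ϑ n r x y hr, ee_add']
    unfold ff
    have h3 : ee (ϑ * ((n + x * y : ℕ) : ℝ)) = ee (ϑ * n) * ee (ϑ * ((x : ℝ) * y)) := by
      rw [← ee_add']
      congr 1
      push_cast
      ring
    rw [h3]
    ring
  rw [h2, norm_mul, norm_ee', one_mul]
  exact h1

private theorem inner' (t ϑ : ℝ) (k N n : ℕ) (hk : 1 ≤ k) (hN : 32 ≤ N) (hn : N < n)
    (ht0 : 0 ≤ t) (ht : t ≤ (N : ℝ) ^ k) :
    ‖∑ x ∈ Icc 1 ⌊(N : ℝ) ^ (2 / 5 : ℝ)⌋₊, ∑ y ∈ Icc 1 ⌊(N : ℝ) ^ (2 / 5 : ℝ)⌋₊,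
      ff t ϑ (n + x * y)‖ ≤ ‖TT (5 * k) ⌊(N : ℝ) ^ (2 / 5 : ℝ)⌋₊ (al t ϑ n)‖ +
      (⌊(N : ℝ) ^ (2 / 5 : ℝ)⌋₊ : ℝ) ^ 2 * (2 * (N : ℝ) ^ (-(1 / 5) : ℝ)) := by
  have hNR : (32 : ℝ) ≤ N := by exact_mod_cast hN
  have hN0 : (0 : ℝ) < N := by linarith
  set Y := ⌊(N : ℝ) ^ (2 / 5 : ℝ)⌋₊ with hY
  have hYle : (Y : ℝ) ≤ (N : ℝ) ^ (2 / 5 : ℝ) := Nat.floor_le (by positivity)
  have hq : ((N : ℝ) ^ (2 / 5 : ℝ)) ^ 2 = (N : ℝ) ^ (4 / 5 : ℝ) := by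
    rw [← Real.rpow_mul_natCast hN0.le]
    norm_num
  have hhalf : (N : ℝ) ^ (-(1 / 5) : ℝ) ≤ 1 / 2 := by
    have h1 : (N : ℝ) ^ (-(1 / 5) : ℝ) ≤ (32 : ℝ) ^ (-(1 / 5) : ℝ) :=
      Real.rpow_le_rpow_of_nonpos (by norm_num) hNR (by norm_num)
    have h2 : (32 : ℝ) ^ (-(1 / 5) : ℝ) = 1 / 2 := by
      have h3 : (32 : ℝ) = (2 : ℝ) ^ (5 : ℝ) := by norm_num
      rw [h3, ← Real.rpow_mul (by norm_num)]
      have h4 : (5 : ℝ) * (-(1 / 5) : ℝ) = -1 := by norm_num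
      rw [h4, Real.rpow_neg_one]
      norm_num
    linarith
  have hpt : ∀ x ∈ Icc 1 Y, ∀ y ∈ Icc 1 Y,
      ‖ff t ϑ (n + x * y) - ff t ϑ n * ee (∑ j ∈ Icc 1 (5 * k), al t ϑ n j * (x : ℝ) ^ j *
        (y : ℝ) ^ j)‖ ≤ 2 * (N : ℝ) ^ (-(1 / 5) : ℝ) := by
    intro x hx y hy
    have hx' : (x : ℝ) ≤ Y := by exact_mod_cast (Finset.mem_Icc.1 hx).2
    have hy' : (y : ℝ) ≤ Y := by exact_mod_cast (Finset.mem_Icc.1 hy).2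
    have hnN : (N : ℝ) ≤ n := by exact_mod_cast hn.le
    have hxy : (x : ℝ) * y ≤ (N : ℝ) ^ (4 / 5 : ℝ) := by
      rw [← hq]
      have h1 : (x : ℝ) * y ≤ (Y : ℝ) * Y := mul_le_mul hx' hy' (by positivity) (by positivity)
      have h2 : (Y : ℝ) * Y ≤ (N : ℝ) ^ (2 / 5 : ℝ) * (N : ℝ) ^ (2 / 5 : ℝ) :=
        mul_le_mul hYle hYle (by positivity) (by positivity)
      nlinarith
    have hz : ((x : ℝ) * y) / n ≤ (N : ℝ) ^ (-(1 / 5) : ℝ) := by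
      have h1 : ((x : ℝ) * y) / n ≤ (N : ℝ) ^ (4 / 5 : ℝ) / N :=
        div_le_div₀ (by positivity) hxy hN0 hnN
      have h2 : (N : ℝ) ^ (4 / 5 : ℝ) / N = (N : ℝ) ^ (-(1 / 5) : ℝ) := by
        rw [← Real.rpow_sub_one hN0.ne']
        norm_num
      linarith
    have h3 := point t ϑ n (5 * k) x y (by omega) ht0 (by omega) (hz.trans hhalf)
    refine h3.trans ?_
    have hz0 : 0 ≤ ((x : ℝ) * y) / n := by positivity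
    have h4 : (((x : ℝ) * y) / n) ^ (5 * k + 1) ≤ (N : ℝ) ^ (-((k : ℝ) + 1 / 5)) := by
      refine (pow_le_pow_left₀ hz0 hz _).trans (le_of_eq ?_)
      rw [← Real.rpow_mul_natCast hN0.le]
      congr 1
      push_cast
      ring
    have h5 : (N : ℝ) ^ k * (N : ℝ) ^ (-((k : ℝ) + 1 / 5)) = (N : ℝ) ^ (-(1 / 5) : ℝ) := by
      rw [← Real.rpow_natCast, ← Real.rpow_add hN0]
      congr 1
      ring
    have h6 : (0 : ℝ) ≤ (N : ℝ) ^ (-((k : ℝ) + 1 / 5)) := by positivity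
    calc t * (2 * (((x : ℝ) * y) / n) ^ (5 * k + 1))
        ≤ (N : ℝ) ^ k * (2 * (N : ℝ) ^ (-((k : ℝ) + 1 / 5))) :=
          mul_le_mul ht (by linarith) (by positivity) (by positivity)
      _ = 2 * (N : ℝ) ^ (-(1 / 5) : ℝ) := by rw [← h5]; ring
  have hTT : ff t ϑ n * TT (5 * k) Y (al t ϑ n) = ∑ x ∈ Icc 1 Y, ∑ y ∈ Icc 1 Y,
      ff t ϑ n * ee (∑ j ∈ Icc 1 (5 * k), al t ϑ n j * (x : ℝ) ^ j * (y : ℝ) ^ j) := by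
    unfold TT
    rw [Finset.mul_sum]
    exact Finset.sum_congr rfl (fun x _ => Finset.mul_sum _ _ _)
  have hdiff : ‖∑ x ∈ Icc 1 Y, ∑ y ∈ Icc 1 Y, ff t ϑ (n + x * y) -
      ff t ϑ n * TT (5 * k) Y (al t ϑ n)‖ ≤ (Y : ℝ) ^ 2 * (2 * (N : ℝ) ^ (-(1 / 5) : ℝ)) := by
    rw [hTT, ← Finset.sum_sub_distrib]
    refine (norm_sum_le _ _).trans ?_
    have h7 : ∀ x ∈ Icc 1 Y, ‖∑ y ∈ Icc 1 Y, ff t ϑ (n + x * y) - ∑ y ∈ Icc 1 Y,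
        ff t ϑ n * ee (∑ j ∈ Icc 1 (5 * k), al t ϑ n j * (x : ℝ) ^ j * (y : ℝ) ^ j)‖ ≤
        Y * (2 * (N : ℝ) ^ (-(1 / 5) : ℝ)) := by
      intro x hx
      rw [← Finset.sum_sub_distrib]
      refine (norm_sum_le _ _).trans ?_
      refine (Finset.sum_le_sum (fun y hy => hpt x hx y hy)).trans (le_of_eq ?_)
      rw [Finset.sum_const, Nat.card_Icc, nsmul_eq_mul]
      simp
    refine (Finset.sum_le_sum h7).trans (le_of_eq ?_)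
    rw [Finset.sum_const, Nat.card_Icc, nsmul_eq_mul]
    simp only [Nat.add_sub_cancel]
    ring
  have h8 : ‖ff t ϑ n * TT (5 * k) Y (al t ϑ n)‖ = ‖TT (5 * k) Y (al t ϑ n)‖ := by
    rw [norm_mul, ff_norm, one_mul]
  have h9 := norm_sub_norm_le (∑ x ∈ Icc 1 Y, ∑ y ∈ Icc 1 Y, ff t ϑ (n + x * y))
    (ff t ϑ n * TT (5 * k) Y (al t ϑ n))
  linarith

private theorem avg (t ϑ : ℝ) (N N' Y : ℕ) (hNN : N ≤ N') (hY : 1 ≤ Y) :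
    (Y : ℝ) ^ 2 * ‖∑ n ∈ Ioc N N', ff t ϑ n‖ ≤ 2 * (Y : ℝ) ^ 4 +
      ∑ n ∈ Ioc N N', ‖∑ x ∈ Icc 1 Y, ∑ y ∈ Icc 1 Y, ff t ϑ (n + x * y)‖ := by
  set F := ∑ n ∈ Ioc N N', ff t ϑ n with hF
  have h1 : ∑ n ∈ Ioc N N', (∑ x ∈ Icc 1 Y, ∑ y ∈ Icc 1 Y, ff t ϑ (n + x * y)) =
      ∑ x ∈ Icc 1 Y, ∑ y ∈ Icc 1 Y, ∑ n ∈ Ioc N N', ff t ϑ (n + x * y) := by
    rw [Finset.sum_comm]
    exact Finset.sum_congr rfl (fun x _ => Finset.sum_comm)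
  have h2 : (Y : ℂ) ^ 2 * F = ∑ x ∈ Icc 1 Y, ∑ y ∈ Icc 1 Y, F := by
    rw [Finset.sum_const, Finset.sum_const, Nat.card_Icc, nsmul_eq_mul, nsmul_eq_mul]
    simp only [Nat.add_sub_cancel]
    ring
  have h3 : ‖(Y : ℂ) ^ 2 * F - ∑ n ∈ Ioc N N', (∑ x ∈ Icc 1 Y, ∑ y ∈ Icc 1 Y,
      ff t ϑ (n + x * y))‖ ≤ 2 * (Y : ℝ) ^ 4 := by
    rw [h1, h2, ← Finset.sum_sub_distrib]
    refine (norm_sum_le _ _).trans ?_
    have h4 : ∀ x ∈ Icc 1 Y, ‖∑ y ∈ Icc 1 Y, F - ∑ y ∈ Icc 1 Y, ∑ n ∈ Ioc N N',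
        ff t ϑ (n + x * y)‖ ≤ Y * (2 * (Y : ℝ) ^ 2) := by
      intro x hx
      rw [← Finset.sum_sub_distrib]
      refine (norm_sum_le _ _).trans ?_
      have h5 : ∀ y ∈ Icc 1 Y, ‖F - ∑ n ∈ Ioc N N', ff t ϑ (n + x * y)‖ ≤ 2 * (Y : ℝ) ^ 2 := by
        intro y hy
        have h6 := Pool.Agent.SI.expk_shift N N' (x * y) (fun n => ff t ϑ n)
          (fun n => le_of_eq (ff_norm t ϑ n)) hNN
        refine h6.trans ?_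
        have hx' : (x : ℝ) ≤ Y := by exact_mod_cast (Finset.mem_Icc.1 hx).2
        have hy' : (y : ℝ) ≤ Y := by exact_mod_cast (Finset.mem_Icc.1 hy).2
        have h7 : (x : ℝ) * y ≤ (Y : ℝ) * Y := mul_le_mul hx' hy' (by positivity) (by positivity)
        push_cast
        nlinarith
      refine (Finset.sum_le_sum h5).trans (le_of_eq ?_)
      rw [Finset.sum_const, Nat.card_Icc, nsmul_eq_mul]
      simp
    refine (Finset.sum_le_sum h4).trans (le_of_eq ?_)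
    rw [Finset.sum_const, Nat.card_Icc, nsmul_eq_mul]
    simp only [Nat.add_sub_cancel]
    ring
  have h8 : ‖(Y : ℂ) ^ 2 * F‖ = (Y : ℝ) ^ 2 * ‖F‖ := by
    rw [norm_mul, norm_pow, Complex.norm_natCast]
  have h9 := norm_sub_norm_le ((Y : ℂ) ^ 2 * F) (∑ n ∈ Ioc N N', (∑ x ∈ Icc 1 Y, ∑ y ∈ Icc 1 Y,
      ff t ϑ (n + x * y)))
  have h10 := norm_sum_le (Ioc N N') (fun n => ∑ x ∈ Icc 1 Y, ∑ y ∈ Icc 1 Y, ff t ϑ (n + x * y))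
  linarith

private theorem main (h1 : St_TnT) : ∃ c C : ℝ, 0 < c ∧ c ≤ 1 ∧ 1 ≤ C ∧
    ∀ (k N N' : ℕ) (t ϑ : ℝ), 2 ≤ k → 1 ≤ N →
    N' ≤ 2 * N → (N : ℝ) ^ (k - 1) ≤ t → t ≤ (N : ℝ) ^ k →
    ‖∑ n ∈ Ioc N N', ff t ϑ n‖ ≤ C * (N : ℝ) ^ (1 - c / (k : ℝ) ^ 4) := by
  obtain ⟨c, C, hc0, hc1, hC1, hT⟩ := h1
  refine ⟨c, C + 32, hc0, hc1, by linarith, ?_⟩
  intro k N N' t ϑ hk hN hN' ht1 ht2
  have hN0 : (0 : ℝ) < N := by exact_mod_cast hN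
  have hN1 : (1 : ℝ) ≤ N := by exact_mod_cast hN
  have hk2 : (2 : ℝ) ≤ k := by exact_mod_cast hk
  have hk4 : (16 : ℝ) ≤ (k : ℝ) ^ 4 := by
    have := pow_le_pow_left₀ (by norm_num : (0 : ℝ) ≤ 2) hk2 4
    norm_num at this
    exact this
  have hck : c / (k : ℝ) ^ 4 ≤ 1 / 5 := by
    rw [div_le_iff₀ (by linarith)]
    nlinarith
  have hck0 : 0 < c / (k : ℝ) ^ 4 := by positivity
  have hbig1 : (1 : ℝ) ≤ (N : ℝ) ^ (1 - c / (k : ℝ) ^ 4) :=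
    Real.one_le_rpow hN1 (by linarith)
  have ht0 : 0 ≤ t := le_trans (by positivity) ht1
  rcases le_total N' N with h | hNN
  · rw [Finset.Ioc_eq_empty_of_le h, Finset.sum_empty, norm_zero]
    positivity
  have hcard : ((Ioc N N').card : ℝ) ≤ N := by
    rw [Nat.card_Ioc]
    exact_mod_cast (by omega : N' - N ≤ N)
  rcases Nat.lt_or_ge N 32 with hsm | hN32
  · have h2 : ‖∑ n ∈ Ioc N N', ff t ϑ n‖ ≤ 32 := by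
      refine (norm_sum_le _ _).trans ?_
      refine (Finset.sum_le_sum (fun n _ => le_of_eq (ff_norm t ϑ n))).trans ?_
      rw [Finset.sum_const, nsmul_eq_mul, mul_one]
      have : (N : ℝ) ≤ 32 := by exact_mod_cast hsm.le
      linarith
    nlinarith
  set Y := ⌊(N : ℝ) ^ (2 / 5 : ℝ)⌋₊ with hY
  have hY1 : 1 ≤ Y := Nat.le_floor (by rw [Nat.cast_one]; exact Real.one_le_rpow hN1 (by norm_num))
  have hYle : (Y : ℝ) ≤ (N : ℝ) ^ (2 / 5 : ℝ) := Nat.floor_le (by positivity)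
  have hq : ((N : ℝ) ^ (2 / 5 : ℝ)) ^ 2 = (N : ℝ) ^ (4 / 5 : ℝ) := by
    rw [← Real.rpow_mul_natCast hN0.le]
    norm_num
  have hY2 : (Y : ℝ) ^ 2 ≤ (N : ℝ) ^ (4 / 5 : ℝ) := by
    rw [← hq]
    exact pow_le_pow_left₀ (by positivity) hYle 2
  have hYpos : (0 : ℝ) < (Y : ℝ) ^ 2 := by
    have : (0 : ℝ) < Y := by exact_mod_cast hY1
    positivity
  have hmain := avg t ϑ N N' Y hNN hY1
  have hin : ∀ n ∈ Ioc N N', ‖∑ x ∈ Icc 1 Y, ∑ y ∈ Icc 1 Y, ff t ϑ (n + x * y)‖ ≤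
      (Y : ℝ) ^ 2 * (C * (N : ℝ) ^ (-(c / (k : ℝ) ^ 4)) + 2 * (N : ℝ) ^ (-(1 / 5) : ℝ)) := by
    intro n hn
    obtain ⟨hn1, hn2⟩ := Finset.mem_Ioc.1 hn
    have h3 := inner' t ϑ k N n (by omega) hN32 hn1 ht0 ht2
    have hal : ∀ j, 2 ≤ j → al t ϑ n j = alp t n j := by
      intro j hj
      unfold al
      rw [if_neg (by omega)]
    have h4 := hT k N n t (al t ϑ n) hk hN hn1 (hn2.trans hN') ht1 ht2 hal
    rw [← hY] at h3 h4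
    refine h3.trans ((add_le_add_left h4 _).trans (le_of_eq ?_))
    ring
  have hsum := Finset.sum_le_sum hin
  rw [Finset.sum_const, nsmul_eq_mul] at hsum
  have hpos : 0 ≤ (Y : ℝ) ^ 2 * (C * (N : ℝ) ^ (-(c / (k : ℝ) ^ 4)) + 2 * (N : ℝ) ^ (-(1 / 5) : ℝ)) := by
    positivity
  have h5 : (Y : ℝ) ^ 2 * ‖∑ n ∈ Ioc N N', ff t ϑ n‖ ≤ (Y : ℝ) ^ 2 * (2 * (Y : ℝ) ^ 2 +
      (C * (N * (N : ℝ) ^ (-(c / (k : ℝ) ^ 4))) + 2 * (N * (N : ℝ) ^ (-(1 / 5) : ℝ)))) := by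
    have h6 := mul_le_mul_of_nonneg_right hcard hpos
    have h7 : 2 * (Y : ℝ) ^ 4 + N * ((Y : ℝ) ^ 2 * (C * (N : ℝ) ^ (-(c / (k : ℝ) ^ 4)) +
        2 * (N : ℝ) ^ (-(1 / 5) : ℝ))) = (Y : ℝ) ^ 2 * (2 * (Y : ℝ) ^ 2 +
      (C * (N * (N : ℝ) ^ (-(c / (k : ℝ) ^ 4))) + 2 * (N * (N : ℝ) ^ (-(1 / 5) : ℝ)))) := by
      ring
    linarith
  have h6 := le_of_mul_le_mul_left h5 hYpos
  have e1 : N * (N : ℝ) ^ (-(c / (k : ℝ) ^ 4)) = (N : ℝ) ^ (1 - c / (k : ℝ) ^ 4) := by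
    rw [sub_eq_add_neg, Real.rpow_add hN0, Real.rpow_one]
  have e2 : N * (N : ℝ) ^ (-(1 / 5) : ℝ) = (N : ℝ) ^ (4 / 5 : ℝ) := by
    have : (4 / 5 : ℝ) = 1 + (-(1 / 5)) := by norm_num
    rw [this, Real.rpow_add hN0, Real.rpow_one]
  have e3 : (N : ℝ) ^ (4 / 5 : ℝ) ≤ (N : ℝ) ^ (1 - c / (k : ℝ) ^ 4) :=
    Real.rpow_le_rpow_of_exponent_le hN1 (by linarith)
  rw [e1, e2] at h6
  nlinarith

end Pool.Agent.NRV.ExpTX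

namespace Pool.Agent.NRV

open Pool.Agent.GBQ (ee)
open Pool.Agent.SI (nit)

theorem thm_ExpT (h : St_TnT) : St_ExpT := ExpTX.main h

end Pool.Agent.NRV
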