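import Pool.Agent.NRV.St
import Pool.Agent.SI.Fac

set_option autoImplicit false

/-!
# NRV / FaC: the factors of the identity of Heath-Brown with characters
-/

namespace Pool.Agent.NRV

open Finset Filter
open Pool.Agent.SI (nit fac fac_abel fac_diff fac_log_mono)
open Pool.Agent.Helper25.MD (LL mob gch)

namespace FaCX

/-- the function `χ(n) n^{-it}` -/
noncomputable def cn {q : ℕ} (χ : DirichletCharacter ℂ q) (t : ℝ) (n : ℕ) : ℂ :=
  χ (n : ZMod q) * nit t n

lemma cn_norm {q : ℕ} (χ : DirichletCharacter ℂ q) (t : ℝ) (n : ℕ) : ‖cn χ t n‖ ≤ 1 := by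
  unfold cn
  have h : ‖nit t n‖ = 1 := by
    unfold Pool.Agent.SI.nit
    exact Complex.norm_exp_ofReal_mul_I _
  rw [norm_mul, h, mul_one]
  exact χ.norm_le_one _

lemma facDP {q : ℕ} (χ : DirichletCharacter ℂ q) (k Z i : ℕ) (t : ℝ) :
    ∑ n ∈ Icc 1 (2 ^ (i + 1)), ((fac k Z i n : ℝ) : ℂ) * χ (n : ZMod q) * nit t n =
    ∑ n ∈ Ico (2 ^ i) (2 ^ (i + 1)), cn χ t n * ((if k = 0 then (1 : ℝ) else
      if k = 1 then Real.log n else
      if n ≤ Z then ((ArithmeticFunction.moebius n : ℤ) : ℝ) else 0 : ℝ) : ℂ) := by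
  have h1 : Ico (2 ^ i) (2 ^ (i + 1)) ⊆ Icc 1 (2 ^ (i + 1)) := by
    intro n hn
    rw [mem_Ico] at hn
    rw [mem_Icc]
    have : 1 ≤ 2 ^ i := Nat.one_le_two_pow
    omega
  rw [← sum_subset h1]
  · apply sum_congr rfl
    intro n hn
    rw [mem_Ico] at hn
    unfold Pool.Agent.SI.fac cn
    rw [if_pos hn]
    ring
  · intro n _ hn
    rw [mem_Ico] at hn
    unfold Pool.Agent.SI.fac
    rw [if_neg hn]
    simp

lemma ev (δ : ℝ) (hδ : 0 < δ) : ∀ᶠ X : ℕ in atTop,
    3 ≤ X ∧ 3 ≤ Real.log X ∧ 2 ≤ (X : ℝ) ^ (δ / 2) ∧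
      Real.exp (Real.log X ^ (9 / 10 : ℝ)) ≤ (X : ℝ) ^ (δ / 2) := by
  have hT : Tendsto (fun X : ℕ => (X : ℝ)) atTop atTop := tendsto_natCast_atTop_atTop
  have hL := Real.tendsto_log_atTop.comp hT
  filter_upwards [eventually_ge_atTop 3, hL.eventually_ge_atTop 3,
    ((tendsto_rpow_atTop (by linarith : 0 < δ / 2)).comp hT).eventually_ge_atTop 2,
    hL.eventually_ge_atTop ((2 / δ) ^ (10 : ℝ))] with X a b c d
  refine ⟨a, b, c, ?_⟩
  have b' : 3 ≤ Real.log (X : ℝ) := b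
  have d' : (2 / δ) ^ (10 : ℝ) ≤ Real.log (X : ℝ) := d
  have hX0 : (0 : ℝ) < X := by
    have : (3 : ℝ) ≤ X := by exact_mod_cast a
    linarith
  rw [Real.rpow_def_of_pos hX0]
  refine Real.exp_le_exp.2 ?_
  have h0 : 0 < Real.log (X : ℝ) := by linarith
  have h1 : 2 / δ ≤ Real.log (X : ℝ) ^ (1 / 10 : ℝ) := by
    have h2 : ((2 / δ) ^ (10 : ℝ)) ^ (1 / 10 : ℝ) = 2 / δ := by
      rw [← Real.rpow_mul (by positivity)]
      norm_num
    rw [← h2]
    exact Real.rpow_le_rpow (by positivity) d' (by norm_num)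
  have h2 : Real.log (X : ℝ) = Real.log (X : ℝ) ^ (9 / 10 : ℝ) * Real.log (X : ℝ) ^ (1 / 10 : ℝ) := by
    rw [← Real.rpow_add h0]
    norm_num
  have h3 : 0 ≤ Real.log (X : ℝ) ^ (9 / 10 : ℝ) := Real.rpow_nonneg h0.le _
  have h4 : Real.log (X : ℝ) ^ (9 / 10 : ℝ) * (2 / δ) ≤ Real.log (X : ℝ) := by
    calc Real.log (X : ℝ) ^ (9 / 10 : ℝ) * (2 / δ)
        ≤ Real.log (X : ℝ) ^ (9 / 10 : ℝ) * Real.log (X : ℝ) ^ (1 / 10 : ℝ) :=
          mul_le_mul_of_nonneg_left h1 h3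
      _ = Real.log (X : ℝ) := h2.symm
  calc Real.log (X : ℝ) ^ (9 / 10 : ℝ)
      = Real.log (X : ℝ) ^ (9 / 10 : ℝ) * (2 / δ) * (δ / 2) := by field_simp
    _ ≤ Real.log (X : ℝ) * (δ / 2) := mul_le_mul_of_nonneg_right h4 (by linarith)

end FaCX

open FaCX in
theorem thm_FaC (h2 : St_ESC) (h1 : St_MuC) (h3 : St_VCC) : St_FaC := by
  constructor
  · intro A D δ hδ
    obtain ⟨B₁, X₁, hM⟩ := h1 (A + 3) D (δ / 2) (by linarith)
    obtain ⟨B₂, X₂, hS⟩ := h2 (A + 3) D
    obtain ⟨X₀, hX₀⟩ := eventually_atTop.1 (ev δ hδ)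
    refine ⟨max B₁ B₂, max X₀ (max X₁ X₂), ?_⟩
    intro X Z k i q χ t hX hq hqD hk hXi hiX ht1 ht2
    obtain ⟨hX3, hL3, hXd, hXe⟩ := hX₀ X ((le_max_left _ _).trans hX)
    have hX₁X : X₁ ≤ X := (le_max_left _ _).trans ((le_max_right _ _).trans hX)
    have hX₂X : X₂ ≤ X := (le_max_right _ _).trans ((le_max_right _ _).trans hX)
    have hXR : (3 : ℝ) ≤ X := by exact_mod_cast hX3
    have hX0 : (0 : ℝ) < X := by linarith
    have ht4 : |t| ≤ (X : ℝ) ^ 4 := by
      have : (X : ℝ) ^ 2 ≤ (X : ℝ) ^ 4 := pow_le_pow_right₀ (by linarith) (by norm_num)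
      linarith
    set L := Real.log X with hL
    have hL1 : 1 ≤ L := by linarith
    have hLp : 0 < L := by linarith
    have htM : L ^ B₁ ≤ |t| := (pow_le_pow_right₀ hL1 (le_max_left _ _)).trans ht1
    have htS : L ^ B₂ ≤ |t| := (pow_le_pow_right₀ hL1 (le_max_right _ _)).trans ht1
    have hi2 : (2 : ℝ) * (X : ℝ) ^ (δ / 2) ≤ 2 ^ i := by
      have e1 : (X : ℝ) ^ δ = (X : ℝ) ^ (δ / 2) * (X : ℝ) ^ (δ / 2) := by
        rw [← Real.rpow_add hX0]
        congr 1
        ring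
      rw [e1] at hXi
      have e2 : 2 * (X : ℝ) ^ (δ / 2) ≤ (X : ℝ) ^ (δ / 2) * (X : ℝ) ^ (δ / 2) :=
        mul_le_mul_of_nonneg_right hXd (by positivity)
      linarith
    have hi1 : 1 ≤ 2 ^ i := Nat.one_le_two_pow
    have hbig : ∀ u : ℕ, 2 ^ i - 1 ≤ u → (X : ℝ) ^ (δ / 2) ≤ u := by
      intro u hu
      have e1 : 2 ^ i ≤ u + 1 := by omega
      have e2 : (2 : ℝ) ^ i ≤ u + 1 := by exact_mod_cast e1
      linarith
    -- both kinds of sums over `Ico (2^i) v`
    have key : ∀ f : ℕ → ℂ, (∀ u : ℕ, (X : ℝ) ^ (δ / 2) ≤ u → u ≤ X →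
        ‖∑ n ∈ Icc 1 u, f n‖ ≤ u / L ^ (A + 3)) → ∀ v, 2 ^ i ≤ v → v ≤ 2 ^ (i + 1) →
        ‖∑ n ∈ Ico (2 ^ i) v, f n‖ ≤ 4 * 2 ^ i / L ^ (A + 3) := by
      intro f hf v hv1 hv2
      rw [fac_diff f (2 ^ i) v hi1 hv1]
      refine (norm_sub_le _ _).trans ?_
      have e1 := hf (v - 1) (hbig _ (by omega)) (by omega)
      have e2 := hf (2 ^ i - 1) (hbig _ le_rfl) (by
        rw [pow_succ] at hiX
        omega)
      have e3 : ((v - 1 : ℕ) : ℝ) ≤ 2 * 2 ^ i := by
        have : v - 1 ≤ 2 * 2 ^ i := by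
          rw [pow_succ] at hv2
          omega
        exact_mod_cast this
      have e4 : ((2 ^ i - 1 : ℕ) : ℝ) ≤ 2 * 2 ^ i := by
        have : 2 ^ i - 1 ≤ 2 * 2 ^ i := by omega
        exact_mod_cast this
      have e5 : ((v - 1 : ℕ) : ℝ) / L ^ (A + 3) ≤ 2 * 2 ^ i / L ^ (A + 3) :=
        div_le_div_of_nonneg_right e3 (by positivity)
      have e6 : ((2 ^ i - 1 : ℕ) : ℝ) / L ^ (A + 3) ≤ 2 * 2 ^ i / L ^ (A + 3) :=
        div_le_div_of_nonneg_right e4 (by positivity)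
      have e7 : 4 * 2 ^ i / L ^ (A + 3) = 2 * 2 ^ i / L ^ (A + 3) + 2 * 2 ^ i / L ^ (A + 3) := by
        ring
      linarith
    have hsm := key (fun n => cn χ t n) (fun u hu huX => hS X u q χ t hX₂X hq hqD htS ht4
      (hXe.trans hu))
    have hmu := key (fun n => mob n * χ (n : ZMod q) * nit t n) (fun u hu huX =>
      hM X u q χ t hX₁X hq hqD hu huX htM ht2)
    have hfin : 8 * L * (2 ^ i / L ^ (A + 3)) ≤ 2 ^ i / L ^ A := by
      have e1 : 8 * L * (2 ^ i / L ^ (A + 3)) = 8 / L ^ 2 * (2 ^ i / L ^ A) := by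
        field_simp
        ring
      rw [e1]
      have e2 : 8 / L ^ 2 ≤ 1 := by
        rw [div_le_one (by positivity)]
        nlinarith
      have e3 : 0 ≤ 2 ^ i / L ^ A := by positivity
      nlinarith
    have h4le : 4 * 2 ^ i / L ^ (A + 3) ≤ 8 * L * (2 ^ i / L ^ (A + 3)) := by
      have e3 : 0 ≤ 2 ^ i / L ^ (A + 3) := by positivity
      have e4 : 4 * 2 ^ i / L ^ (A + 3) = 4 * (2 ^ i / L ^ (A + 3)) := by ring
      rw [e4]
      nlinarith
    have hpow : (2 : ℕ) ^ i ≤ 2 ^ (i + 1) := Nat.pow_le_pow_right (by norm_num) (by omega)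
    rw [facDP]
    rcases Nat.eq_zero_or_pos k with hk0 | hk0
    · -- kind 0
      simp only [hk0, if_true, Complex.ofReal_one, mul_one]
      exact (hsm (2 ^ (i + 1)) hpow le_rfl).trans (h4le.trans hfin)
    · rcases Nat.eq_or_lt_of_le (Nat.succ_le_of_lt hk0) with hk1 | hk1
      · -- kind 1
        have hk1' : k = 1 := hk1.symm
        simp only [hk1', one_ne_zero, if_false, if_true]
        have e1 := fac_abel (fun n => cn χ t n) (fun n => Real.log n) (2 ^ i) (2 ^ (i + 1)) hpow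
          (4 * 2 ^ i / L ^ (A + 3)) (Real.log_nonneg (by exact_mod_cast hi1))
          (fun n hn => fac_log_mono n (hi1.trans hn)) hsm
        refine e1.trans ?_
        have e2 : Real.log ((2 ^ (i + 1) : ℕ) : ℝ) ≤ L := by
          apply Real.log_le_log (by positivity)
          exact_mod_cast hiX
        calc 2 * (4 * 2 ^ i / L ^ (A + 3)) * Real.log ((2 ^ (i + 1) : ℕ) : ℝ)
            ≤ 2 * (4 * 2 ^ i / L ^ (A + 3)) * L := mul_le_mul_of_nonneg_left e2 (by positivity)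
          _ = 8 * L * (2 ^ i / L ^ (A + 3)) := by ring
          _ ≤ 2 ^ i / L ^ A := hfin
      · -- kind 2
        have hk2 : k ≠ 0 := by omega
        have hk2' : k ≠ 1 := by omega
        simp only [hk2, hk2', if_false]
        have e1 : ∑ n ∈ Ico (2 ^ i) (2 ^ (i + 1)), cn χ t n *
            ((if n ≤ Z then ((ArithmeticFunction.moebius n : ℤ) : ℝ) else 0 : ℝ) : ℂ) =
            ∑ n ∈ Ico (2 ^ i) (max (2 ^ i) (min (Z + 1) (2 ^ (i + 1)))),
              mob n * χ (n : ZMod q) * nit t n := by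
          have hsub : Ico (2 ^ i) (max (2 ^ i) (min (Z + 1) (2 ^ (i + 1)))) ⊆
              Ico (2 ^ i) (2 ^ (i + 1)) := by
            apply Ico_subset_Ico le_rfl
            exact max_le hpow (min_le_right _ _)
          rw [← sum_subset hsub]
          · apply sum_congr rfl
            intro n hn
            rw [mem_Ico] at hn
            have hnZ : n ≤ Z := by
              rcases lt_max_iff.1 hn.2 with h | h
              · omega
              · have := lt_min_iff.1 h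
                omega
            rw [if_pos hnZ]
            unfold Pool.Agent.Helper25.MD.mob cn
            push_cast
            ring
          · intro n hn1 hn2
            rw [mem_Ico] at hn1 hn2
            have hnZ : ¬ n ≤ Z := by
              intro h
              apply hn2
              refine ⟨hn1.1, lt_max_of_lt_right (lt_min (by omega) hn1.2)⟩
            rw [if_neg hnZ]
            simp
        rw [e1]
        exact (hmu _ (le_max_left _ _) (max_le hpow (min_le_right _ _))).trans (h4le.trans hfin)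
  · obtain ⟨C, hC1, hVC⟩ := h3
    refine ⟨2 * (C + 1), by linarith, ?_⟩
    intro k Z i q χ t hk hq ht
    have ht0 : 0 < |t| := by linarith
    have hq1 : (1 : ℝ) ≤ (q : ℝ) ^ 2 := by
      have : (1 : ℝ) ≤ q := by exact_mod_cast hq
      exact one_le_pow₀ this
    have hi1 : 1 ≤ 2 ^ i := Nat.one_le_two_pow
    have hN1 : (1 : ℝ) ≤ 2 ^ i := one_le_pow₀ (by norm_num)
    have hs1 : 1 ≤ Real.sqrt |t| := Real.one_le_sqrt.2 ht
    have hpow : (2 : ℕ) ^ i ≤ 2 ^ (i + 1) := Nat.pow_le_pow_right (by norm_num) (by omega)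
    set V₁ : ℝ := (C + 1) * ((q : ℝ) ^ 2 * (2 ^ i / |t| + Real.sqrt |t|)) with hV₁
    have hV₁0 : 0 ≤ V₁ := by positivity
    have key : ∀ v, 2 ^ i ≤ v → v ≤ 2 ^ (i + 1) → ‖∑ n ∈ Ico (2 ^ i) v, cn χ t n‖ ≤ V₁ := by
      intro v hv1 hv2
      rcases Nat.eq_or_lt_of_le hv1 with hv | hv
      · rw [← hv]
        simp only [Ico_self, sum_empty, norm_zero]
        exact hV₁0
      · have e1 : Ico (2 ^ i) v = insert (2 ^ i) (Ioc (2 ^ i) (v - 1)) := by
          ext n
          rw [mem_Ico, mem_insert, mem_Ioc]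
          omega
        rw [e1, sum_insert (by simp)]
        have e2 := hVC (2 ^ i) (v - 1) q χ t hi1 (by
          rw [pow_succ] at hv2
          omega) hq ht
        push_cast at e2
        have e3 := norm_add_le (cn χ t (2 ^ i)) (∑ n ∈ Ioc (2 ^ i) (v - 1), cn χ t n)
        have e0 := cn_norm χ t (2 ^ i)
        have e4 : 1 ≤ (q : ℝ) ^ 2 * (2 ^ i / |t| + Real.sqrt |t|) := by
          have e5 : 0 ≤ 2 ^ i / |t| := by positivity
          have e6 : 1 ≤ 2 ^ i / |t| + Real.sqrt |t| := by linarith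
          calc (1 : ℝ) = 1 * 1 := by norm_num
            _ ≤ (q : ℝ) ^ 2 * (2 ^ i / |t| + Real.sqrt |t|) :=
              mul_le_mul hq1 e6 zero_le_one (by positivity)
        have e5 : ‖∑ n ∈ Ioc (2 ^ i) (v - 1), cn χ t n‖ ≤
            C * ((q : ℝ) ^ 2 * (2 ^ i / |t| + Real.sqrt |t|)) := by
          rw [← mul_assoc]
          exact e2
        rw [hV₁]
        linarith
    have hi0 : (0 : ℝ) ≤ i := Nat.cast_nonneg _
    have hlog : Real.log ((2 ^ (i + 1) : ℕ) : ℝ) ≤ 1 + i := by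
      push_cast
      rw [Real.log_pow]
      have e1 := Real.log_two_lt_d9
      have e2 : Real.log 2 ≤ 1 := by linarith
      push_cast
      nlinarith
    have hmain : ‖∑ n ∈ Icc 1 (2 ^ (i + 1)), ((fac k Z i n : ℝ) : ℂ) * χ (n : ZMod q) * nit t n‖ ≤
        2 * V₁ * (1 + i) := by
      rw [facDP]
      rcases Nat.eq_zero_or_pos k with hk0 | hk0
      · simp only [hk0, if_true, Complex.ofReal_one, mul_one]
        refine (key (2 ^ (i + 1)) hpow le_rfl).trans ?_
        nlinarith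
      · have hk1' : k = 1 := by omega
        simp only [hk1', one_ne_zero, if_false, if_true]
        have e1 := fac_abel (fun n => cn χ t n) (fun n => Real.log n) (2 ^ i) (2 ^ (i + 1)) hpow
          V₁ (Real.log_nonneg (by exact_mod_cast hi1))
          (fun n hn => fac_log_mono n (hi1.trans hn)) key
        refine e1.trans ?_
        exact mul_le_mul_of_nonneg_left hlog (by linarith)
    calc _ ≤ 2 * V₁ * (1 + i) := hmain
      _ = 2 * (C + 1) * (1 + i) * (q : ℝ) ^ 2 * (2 ^ i / |t| + Real.sqrt |t|) := by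
        rw [hV₁]
        ring

end Pool.Agent.NRV
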