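import Pool.Agent.NRV.St

/-!
# NRV: Fin, finite Fourier analysis
-/

set_option autoImplicit false

namespace Pool.Agent.NRV

open Finset
open Pool.Agent.GBQ (ee nd gm)

namespace FinX

theorem norm_std {q : ℕ} [NeZero q] (j : ZMod q) : ‖ZMod.stdAddChar j‖ = 1 := by
  rw [ZMod.stdAddChar_apply]
  exact Circle.norm_coe _

theorem std_ee {q : ℕ} [NeZero q] (a n : ℕ) :
    ZMod.stdAddChar ((a : ZMod q) * (n : ZMod q)) = ee ((a / q : ℝ) * n) := by
  have h := ZMod.stdAddChar_coe (N := q) ((a : ℤ) * n)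
  push_cast at h
  rw [h]
  unfold ee
  congr 1
  push_cast
  ring

theorem sum_zmod {q : ℕ} [NeZero q] (F : ZMod q → ℂ) :
    ∑ j, F j = ∑ a ∈ range q, F (a : ZMod q) := by
  symm
  refine Finset.sum_bij' (fun (a : ℕ) _ => (a : ZMod q)) (fun (j : ZMod q) _ => j.val) ?_ ?_ ?_ ?_ ?_
  · intro a _
    exact Finset.mem_univ _
  · intro j _
    exact Finset.mem_range.mpr (ZMod.val_lt j)
  · intro a ha
    exact ZMod.val_cast_of_lt (Finset.mem_range.mp ha)
  · intro j _
    exact ZMod.natCast_zmod_val j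
  · intro a _
    rfl

end FinX

open FinX in
theorem thm_Fin : St_Fin := by
  intro q χ hq
  have : NeZero q := ⟨by omega⟩
  refine ⟨fun a => (q : ℂ)⁻¹ * ZMod.dft (fun j => χ j) (a : ZMod q), fun a => ?_, fun n => ?_⟩
  · rw [norm_mul, norm_inv, Complex.norm_natCast, ZMod.dft_apply]
    have h1 : ‖∑ j : ZMod q, ZMod.stdAddChar (-(j * (a : ZMod q))) • χ j‖ ≤ q := by
      refine (norm_sum_le _ _).trans ?_
      have h2 : ∀ j ∈ (Finset.univ : Finset (ZMod q)),
          ‖ZMod.stdAddChar (-(j * (a : ZMod q))) • χ j‖ ≤ 1 := by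
        intro j _
        rw [norm_smul, norm_std, one_mul]
        exact χ.norm_le_one j
      refine (Finset.sum_le_sum h2).trans ?_
      rw [Finset.sum_const, Finset.card_univ, ZMod.card, nsmul_eq_mul, mul_one]
    have hq0 : (0 : ℝ) < q := by exact_mod_cast (by omega : 0 < q)
    calc (q : ℝ)⁻¹ * _ ≤ (q : ℝ)⁻¹ * q := mul_le_mul_of_nonneg_left h1 (inv_nonneg.mpr hq0.le)
      _ = 1 := inv_mul_cancel₀ hq0.ne'
  · have h1 := congrFun (ZMod.dft.symm_apply_apply (fun j : ZMod q => χ j)) (n : ZMod q)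
    rw [ZMod.invDFT_apply] at h1
    rw [← h1, smul_eq_mul, sum_zmod, Finset.mul_sum]
    refine Finset.sum_congr rfl fun a _ => ?_
    rw [← std_ee a n, smul_eq_mul]
    ring

end Pool.Agent.NRV
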