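import Mathlib
import Pool.Agent.NRV.St

set_option autoImplicit false

/-!
# NRV / K1C

Abel summation: with `A(u) = ∑_{n≤u} rc χ y n nit t n` (estimated by `St_RC`) and
`f(n) = (log n)^j n^{-σ}` the finite sums of `LL (rc χ y) j (σ+it)` are
`∑_{n≤y} + A(N) f(N+1) - A(y) f(y+1) + ∑_{y<n≤N} A(n) (f(n) - f(n+1))`.  Adaptation of
`Pool/Agent/SI/K1.lean`.
-/

namespace Pool.Agent.NRV

open Finset Filter
open Pool.Agent.SI (nit rgh)
open Pool.Agent.Helper25.MD (LL)
open Pool.Agent.LIN (pz)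

/-- `(log n)^j n^{-σ}` -/
private noncomputable def k1c_f (j : ℕ) (σ : ℝ) (n : ℕ) : ℝ :=
  Real.log n ^ j * Real.exp (-(σ * Real.log n))

private lemma k1c_f_nonneg (j : ℕ) (σ : ℝ) (n : ℕ) : 0 ≤ k1c_f j σ n := by
  unfold k1c_f
  have : 0 ≤ Real.log n := Real.log_natCast_nonneg n
  positivity

private lemma k1c_log_succ {n : ℕ} (hn : 2 ≤ n) : Real.log ((n + 1 : ℕ) : ℝ) ≤ 2 * Real.log n := by
  have h0 : (2 : ℝ) ≤ n := by exact_mod_cast hn
  have h1 : ((n + 1 : ℕ) : ℝ) ≤ (n : ℝ) ^ 2 := by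
    push_cast
    nlinarith
  have h2 := Real.log_le_log (by positivity) h1
  rw [Real.log_pow] at h2
  exact_mod_cast h2

private lemma k1c_log_sub {n : ℕ} (hn : 1 ≤ n) :
    Real.log ((n + 1 : ℕ) : ℝ) - Real.log n ≤ 1 / n := by
  have h0 : (0 : ℝ) < n := by exact_mod_cast hn
  rw [← Real.log_div (by positivity) h0.ne']
  have h1 : (((n + 1 : ℕ) : ℝ)) / n = 1 / n + 1 := by
    push_cast
    field_simp
    ring
  rw [h1]
  have h2 : 0 < 1 / (n : ℝ) + 1 := by positivity
  have := Real.log_le_sub_one_of_pos h2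
  linarith

private lemma k1c_log_sub' {n : ℕ} (hn : 1 ≤ n) :
    1 / ((n + 1 : ℕ) : ℝ) ≤ Real.log ((n + 1 : ℕ) : ℝ) - Real.log n := by
  have h0 : (0 : ℝ) < n := by exact_mod_cast hn
  have h1 : (0 : ℝ) < ((n + 1 : ℕ) : ℝ) := by positivity
  have h2 := Real.log_le_sub_one_of_pos (x := (n : ℝ) / ((n + 1 : ℕ) : ℝ)) (by positivity)
  rw [Real.log_div h0.ne' h1.ne'] at h2
  have h3 : (n : ℝ) / ((n + 1 : ℕ) : ℝ) - 1 = -(1 / ((n + 1 : ℕ) : ℝ)) := by
    push_cast
    field_simp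
    ring
  rw [h3] at h2
  linarith

private lemma k1c_diff (j : ℕ) (σ : ℝ) (hσ1 : 1 ≤ σ) (hσ2 : σ ≤ 2) (n : ℕ) (hn : 3 ≤ n) :
    |k1c_f j σ n - k1c_f j σ (n + 1)| ≤
      ((j + 2) * 2 ^ j) * (Real.log n ^ j * Real.exp (-(σ * Real.log n)) * (1 / n)) := by
  have hn3 : (3 : ℝ) ≤ n := by exact_mod_cast hn
  have hn0 : (0 : ℝ) < n := by linarith
  set a := Real.log n with ha
  set b := Real.log ((n + 1 : ℕ) : ℝ) with hb
  have ha1 : 1 ≤ a := by
    rw [ha, Real.le_log_iff_exp_le hn0]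
    have := Real.exp_one_lt_d9
    linarith
  have hab : a ≤ b := Real.log_le_log hn0 (by push_cast; linarith)
  have hb2 : b ≤ 2 * a := k1c_log_succ (by omega)
  have hba : b - a ≤ 1 / n := k1c_log_sub (by omega)
  set F : ℝ → ℝ := fun x => x ^ j * Real.exp (-(σ * x)) with hF
  have hd : ∀ x : ℝ, HasDerivAt F (j * x ^ (j - 1) * Real.exp (-(σ * x)) +
      x ^ j * (Real.exp (-(σ * x)) * (-σ))) x := by
    intro x
    have h1 : HasDerivAt (fun x : ℝ => x ^ j) (j * x ^ (j - 1)) x := by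
      simpa using hasDerivAt_pow j x
    have h2 : HasDerivAt (fun x : ℝ => -(σ * x)) (-σ) x := by
      have h3 := ((hasDerivAt_id x).const_mul σ).neg
      rw [mul_one] at h3
      exact h3
    exact h1.mul h2.exp
  have hbd : ∀ x ∈ Set.Icc a b, ‖j * x ^ (j - 1) * Real.exp (-(σ * x)) +
      x ^ j * (Real.exp (-(σ * x)) * (-σ))‖ ≤ ((j + 2) * 2 ^ j) * (a ^ j * Real.exp (-(σ * a))) := by
    intro x hx
    have hx1 : 1 ≤ x := ha1.trans hx.1
    have hx2 : x ≤ 2 * a := hx.2.trans hb2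
    have he : Real.exp (-(σ * x)) ≤ Real.exp (-(σ * a)) := by
      apply Real.exp_le_exp.mpr
      have : σ * a ≤ σ * x := mul_le_mul_of_nonneg_left hx.1 (by linarith)
      linarith
    have hp : x ^ j ≤ 2 ^ j * a ^ j := by
      rw [← mul_pow]
      exact pow_le_pow_left₀ (by linarith) hx2 j
    have hp' : (j : ℝ) * x ^ (j - 1) ≤ j * (2 ^ j * a ^ j) := by
      apply mul_le_mul_of_nonneg_left _ (Nat.cast_nonneg _)
      exact (pow_le_pow_right₀ hx1 (Nat.sub_le _ _)).trans hp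
    have hx0 : 0 ≤ x := by linarith
    have ha0 : 0 ≤ a := by linarith
    have hσ0 : 0 ≤ σ := by linarith
    refine (norm_add_le _ _).trans ?_
    have e1 : ‖(j : ℝ) * x ^ (j - 1) * Real.exp (-(σ * x))‖ =
        (j : ℝ) * x ^ (j - 1) * Real.exp (-(σ * x)) := Real.norm_of_nonneg (by positivity)
    have e2 : ‖x ^ j * (Real.exp (-(σ * x)) * (-σ))‖ = x ^ j * (Real.exp (-(σ * x)) * σ) := by
      rw [norm_mul, norm_mul, norm_neg, Real.norm_of_nonneg (by positivity),
        Real.norm_of_nonneg (Real.exp_pos _).le, Real.norm_of_nonneg hσ0]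
    rw [e1, e2]
    have f1 : (j : ℝ) * x ^ (j - 1) * Real.exp (-(σ * x)) ≤
        j * (2 ^ j * a ^ j) * Real.exp (-(σ * a)) :=
      mul_le_mul hp' he (Real.exp_pos _).le (by positivity)
    have f2 : x ^ j * (Real.exp (-(σ * x)) * σ) ≤
        (2 ^ j * a ^ j) * (Real.exp (-(σ * a)) * 2) := by
      apply mul_le_mul hp _ (by positivity) (by positivity)
      exact mul_le_mul he hσ2 hσ0 (Real.exp_pos _).le
    calc _ ≤ j * (2 ^ j * a ^ j) * Real.exp (-(σ * a)) +
          (2 ^ j * a ^ j) * (Real.exp (-(σ * a)) * 2) := add_le_add f1 f2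
      _ = _ := by ring
  have h := (convex_Icc a b).norm_image_sub_le_of_norm_hasDerivWithin_le
    (fun x _ => (hd x).hasDerivWithinAt) hbd (Set.right_mem_Icc.mpr hab)
    (Set.left_mem_Icc.mpr hab)
  have h1 : |k1c_f j σ n - k1c_f j σ (n + 1)| = ‖F a - F b‖ := by
    rw [Real.norm_eq_abs]
    rfl
  rw [h1]
  refine h.trans ?_
  have h2 : ‖a - b‖ ≤ 1 / n := by
    rw [Real.norm_eq_abs, abs_sub_comm, abs_of_nonneg (by linarith)]
    exact hba
  calc ((j + 2) * 2 ^ j) * (a ^ j * Real.exp (-(σ * a))) * ‖a - b‖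
      ≤ ((j + 2) * 2 ^ j) * (a ^ j * Real.exp (-(σ * a))) * (1 / n) := by
        apply mul_le_mul_of_nonneg_left h2
        have : 0 ≤ a := by linarith
        positivity
    _ = _ := by ring

private lemma k1c_sum1 (y : ℕ) (hy : 2 ≤ y) (N : ℕ) (hN : y ≤ N) :
    ∑ n ∈ Ioc y N, 1 / ((n : ℝ) * Real.log n ^ 2) ≤ 1 / Real.log y := by
  have hpos : ∀ m : ℕ, 2 ≤ m → 0 < Real.log m := fun m hm =>
    Real.log_pos (by exact_mod_cast hm)
  have h : ∑ n ∈ Ioc y N, 1 / ((n : ℝ) * Real.log n ^ 2) ≤ 1 / Real.log y - 1 / Real.log N := by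
    induction N, hN using Nat.le_induction with
    | base => simp
    | succ N hN ih =>
      rw [← Finset.insert_Ioc_right_eq_Ioc_add_one hN, sum_insert (by simp)]
      have h0 : 0 < Real.log N := hpos N (by omega)
      have h1 : 0 < Real.log ((N + 1 : ℕ) : ℝ) := hpos (N + 1) (by omega)
      have h2 := k1c_log_sub' (n := N) (by omega)
      have h3 : Real.log N ≤ Real.log ((N + 1 : ℕ) : ℝ) := by
        apply Real.log_le_log
        · have : 0 < N := by omega
          exact_mod_cast this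
        · push_cast; linarith
      have h4 : 1 / (((N + 1 : ℕ) : ℝ) * Real.log ((N + 1 : ℕ) : ℝ) ^ 2) ≤
          1 / Real.log N - 1 / Real.log ((N + 1 : ℕ) : ℝ) := by
        set p := Real.log N
        set q := Real.log ((N + 1 : ℕ) : ℝ)
        have e1 : 1 / p - 1 / q = (q - p) / (p * q) := by field_simp
        have e2 : 1 / (((N + 1 : ℕ) : ℝ) * q ^ 2) = (1 / ((N + 1 : ℕ) : ℝ)) / (q * q) := by
          rw [div_div]; ring
        rw [e1, e2]
        apply div_le_div₀ (by linarith) h2 (by positivity)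
        exact mul_le_mul_of_nonneg_right h3 h1.le
      linarith
  have h5 : 0 < 1 / Real.log N := by
    have := hpos N (by omega)
    positivity
  linarith

private lemma k1c_sum2 (ε : ℝ) (hε : 0 < ε) (N : ℕ) :
    ∑ n ∈ Icc 1 N, Real.exp (-((1 + ε) * Real.log n)) ≤ 1 + 1 / ε := by
  rcases Nat.eq_zero_or_pos N with h0 | hN
  · subst h0
    simp
    positivity
  have h : ∑ n ∈ Icc 1 N, Real.exp (-((1 + ε) * Real.log n)) ≤
      1 + 1 / ε * (1 - Real.exp (-(ε * Real.log N))) := by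
    induction N, hN using Nat.le_induction with
    | base => simp
    | succ N hN ih =>
      rw [← Finset.insert_Icc_right_eq_Icc_add_one (by omega : 1 ≤ N + 1), sum_insert (by simp)]
      have h2 := k1c_log_sub' (n := N) hN
      set p := Real.log N
      set q := Real.log ((N + 1 : ℕ) : ℝ) with hq
      have e1 : Real.exp (-q) = 1 / ((N + 1 : ℕ) : ℝ) := by
        rw [Real.exp_neg, hq, Real.exp_log (by positivity), one_div]
      have h3 : Real.exp (-((1 + ε) * q)) ≤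
          1 / ε * (Real.exp (-(ε * p)) - Real.exp (-(ε * q))) := by
        have e2 : Real.exp (-((1 + ε) * q)) = Real.exp (-q) * Real.exp (-(ε * q)) := by
          rw [← Real.exp_add]; congr 1; ring
        have e3 : Real.exp (-(ε * p)) = Real.exp (-(ε * q)) * Real.exp (ε * (q - p)) := by
          rw [← Real.exp_add]; congr 1; ring
        have h4 := Real.add_one_le_exp (ε * (q - p))
        rw [e2, e3, e1]
        have h5 : 0 < Real.exp (-(ε * q)) := Real.exp_pos _
        have h6 : ε * (1 / ((N + 1 : ℕ) : ℝ)) ≤ ε * (q - p) :=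
          mul_le_mul_of_nonneg_left h2 hε.le
        have h7 : ε * (1 / ((N + 1 : ℕ) : ℝ)) ≤ Real.exp (ε * (q - p)) - 1 := by linarith
        calc 1 / ((N + 1 : ℕ) : ℝ) * Real.exp (-(ε * q))
            = 1 / ε * (Real.exp (-(ε * q)) * (ε * (1 / ((N + 1 : ℕ) : ℝ)))) := by
              field_simp
          _ ≤ 1 / ε * (Real.exp (-(ε * q)) * (Real.exp (ε * (q - p)) - 1)) := by
              apply mul_le_mul_of_nonneg_left _ (by positivity)
              exact mul_le_mul_of_nonneg_left h7 h5.le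
          _ = _ := by ring
      linarith
  have h5 : 0 < 1 / ε * Real.exp (-(ε * Real.log N)) := by positivity
  linarith

private lemma k1c_pow (j : ℕ) (β x : ℝ) (hβ : 0 < β) (hx : 0 ≤ x) :
    x ^ j ≤ (j.factorial * (1 / β) ^ j) * Real.exp (β * x) := by
  have h := Real.pow_div_factorial_le_exp (x := β * x) (by positivity) j
  have hf : (0 : ℝ) < j.factorial := by exact_mod_cast Nat.factorial_pos j
  rw [div_le_iff₀ hf] at h
  calc x ^ j = (1 / β) ^ j * (β * x) ^ j := by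
        rw [← mul_pow]; congr 1; field_simp
    _ ≤ (1 / β) ^ j * (Real.exp (β * x) * j.factorial) :=
        mul_le_mul_of_nonneg_left h (by positivity)
    _ = _ := by ring

private lemma k1c_sum3 (j : ℕ) (β : ℝ) (hβ : 0 < β) (hβ1 : β ≤ 1) (N : ℕ) :
    ∑ n ∈ Icc 1 N, Real.log n ^ j * Real.exp (-((1 + β) * Real.log n)) ≤
      (3 * j.factorial * 2 ^ j) * (1 / β) ^ (j + 1) := by
  have h1 : ∀ n ∈ Icc 1 N, Real.log n ^ j * Real.exp (-((1 + β) * Real.log n)) ≤
      (j.factorial * (1 / (β / 2)) ^ j) * Real.exp (-((1 + β / 2) * Real.log n)) := by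
    intro n _
    have h0 : 0 ≤ Real.log n := Real.log_natCast_nonneg n
    have h2 := k1c_pow j (β / 2) (Real.log n) (by positivity) h0
    calc _ ≤ ((j.factorial * (1 / (β / 2)) ^ j) * Real.exp (β / 2 * Real.log n)) *
          Real.exp (-((1 + β) * Real.log n)) :=
          mul_le_mul_of_nonneg_right h2 (Real.exp_pos _).le
      _ = _ := by
          rw [mul_assoc, ← Real.exp_add]
          congr 2
          ring
  refine (sum_le_sum h1).trans ?_
  rw [← mul_sum]
  have h3 := k1c_sum2 (β / 2) (by positivity) N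
  have h4 : 1 + 1 / (β / 2) ≤ 3 * (1 / β) := by
    have e1 : 1 / (β / 2) = 2 * (1 / β) := by field_simp
    have e2 : 1 ≤ 1 / β := by rw [le_div_iff₀ hβ]; linarith
    linarith
  have e3 : (1 / (β / 2)) ^ j = 2 ^ j * (1 / β) ^ j := by
    rw [← mul_pow]; congr 1; field_simp
  calc _ ≤ (j.factorial * (1 / (β / 2)) ^ j) * (3 * (1 / β)) :=
        mul_le_mul_of_nonneg_left (h3.trans h4) (by positivity)
    _ = _ := by rw [e3, pow_succ]; ring

private lemma k1c_abel (a : ℕ → ℂ) (f : ℕ → ℝ) (y N : ℕ) (hN : y ≤ N) :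
    ∑ n ∈ Icc 1 N, a n * (f n : ℂ) = ∑ n ∈ Icc 1 y, a n * (f n : ℂ) +
      ((∑ n ∈ Icc 1 N, a n) * (f (N + 1) : ℂ) - (∑ n ∈ Icc 1 y, a n) * (f (y + 1) : ℂ) +
        ∑ n ∈ Ioc y N, (∑ m ∈ Icc 1 n, a m) * ((f n - f (n + 1) : ℝ) : ℂ)) := by
  induction N, hN using Nat.le_induction with
  | base => simp
  | succ N hN ih =>
    have hs : ∀ g : ℕ → ℂ, ∑ n ∈ Icc 1 (N + 1), g n = g (N + 1) + ∑ n ∈ Icc 1 N, g n := by
      intro g
      rw [← Finset.insert_Icc_right_eq_Icc_add_one (by omega : 1 ≤ N + 1), sum_insert (by simp)]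
    rw [← Finset.insert_Ioc_right_eq_Ioc_add_one hN, sum_insert (by simp)]
    simp only [hs]
    rw [ih]
    push_cast
    ring

private lemma k1c_ratio (j : ℕ) (l x : ℝ) (hx : 0 < x) :
    (l / x) ^ (j + 2) * x ^ j = l ^ (j + 2) * (1 / x ^ 2) := by
  rw [div_pow, pow_add x j 2]
  field_simp

private lemma k1c_main (j B : ℕ) (C0 : ℝ) (hC0 : 0 < C0) (y : ℕ) (hy : 3 ≤ y) (L σ : ℝ)
    (hL : 1 ≤ L) (hσ1 : 1 + 1 / L ^ B ≤ σ) (hσ2 : σ ≤ 2) (a : ℕ → ℂ)
    (hA : ∀ u : ℕ, y ≤ u → ‖∑ n ∈ Icc 1 u, a n‖ ≤ C0 * (u / Real.log y) *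
      ((Real.log y / Real.log u) ^ (j + 2) + 1 / L ^ (B * (j + 1))))
    (ha0 : ∀ n, 2 ≤ n → n ≤ y → a n = 0) (ha1 : ‖a 1‖ ≤ 1) (N : ℕ) (hN : y ≤ N) :
    ‖∑ n ∈ Icc 1 N, a n * (k1c_f j σ n : ℂ)‖ ≤
      (1 + 2 ^ j + C0 * 2 ^ j * (1 + j.factorial) +
        C0 * ((j + 2) * 2 ^ j) * (1 + 3 * j.factorial * 2 ^ j)) * Real.log y ^ j := by
  have hy3 : (3 : ℝ) ≤ y := by exact_mod_cast hy
  set l := Real.log y with hl
  have hlog : ∀ n : ℕ, 3 ≤ n → 1 ≤ Real.log n := by
    intro n hn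
    have hn3 : (3 : ℝ) ≤ n := by exact_mod_cast hn
    rw [Real.le_log_iff_exp_le (by linarith)]
    have := Real.exp_one_lt_d9
    linarith
  have hl1 : 1 ≤ l := hlog y hy
  have hl0 : 0 < l := by linarith
  have hL0 : 0 < L := by linarith
  have hLB : 0 < L ^ B := by positivity
  set β := σ - 1 with hβ
  have hβ1 : 1 / L ^ B ≤ β := by linarith
  have hβ0 : 0 < β := lt_of_lt_of_le (by positivity) hβ1
  have hβ2 : β ≤ 1 := by linarith
  have hβi : 1 / β ≤ L ^ B := by
    rw [div_le_iff₀ hβ0]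
    rw [div_le_iff₀ hLB] at hβ1
    linarith
  have hβi0 : 0 < 1 / β := by positivity
  have hσ : 1 ≤ σ := by linarith
  have hlj : 1 ≤ l ^ j := one_le_pow₀ hl1
  have hfac : (1 : ℝ) ≤ j.factorial := by exact_mod_cast Nat.factorial_pos j
  -- sums up to y
  have hsum1 : ∀ g : ℕ → ℂ, ∑ n ∈ Icc 1 y, a n * g n = a 1 * g 1 := by
    intro g
    rw [sum_eq_single 1]
    · intro n hn hn1
      rw [mem_Icc] at hn
      rw [ha0 n (by omega) hn.2, zero_mul]
    · intro h
      exact absurd (mem_Icc.mpr ⟨le_rfl, by omega⟩) h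
  have hAy : ‖∑ n ∈ Icc 1 y, a n‖ ≤ 1 := by
    have h := hsum1 (fun _ => 1)
    simp only [mul_one] at h
    rw [h]
    exact ha1
  rw [k1c_abel a (k1c_f j σ) y N hN]
  -- term 0
  have t0 : ‖∑ n ∈ Icc 1 y, a n * (k1c_f j σ n : ℂ)‖ ≤ 1 * l ^ j := by
    rw [hsum1 (fun n => (k1c_f j σ n : ℂ)), norm_mul, Complex.norm_real,
      Real.norm_of_nonneg (k1c_f_nonneg _ _ _)]
    have h1 : k1c_f j σ 1 ≤ 1 := by
      unfold k1c_f
      rw [Nat.cast_one, Real.log_one, mul_zero, neg_zero, Real.exp_zero, mul_one]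
      exact pow_le_one₀ le_rfl zero_le_one
    calc ‖a 1‖ * k1c_f j σ 1 ≤ 1 * 1 :=
          mul_le_mul ha1 h1 (k1c_f_nonneg _ _ _) zero_le_one
      _ ≤ 1 * l ^ j := by linarith
  -- bound of f (n+1)
  have hf1 : ∀ n : ℕ, 3 ≤ n → k1c_f j σ (n + 1) ≤
      2 ^ j * (Real.log n ^ j * Real.exp (-(σ * Real.log n))) := by
    intro n hn
    unfold k1c_f
    have h1 := k1c_log_succ (n := n) (by omega)
    have h2 : Real.log n ≤ Real.log ((n + 1 : ℕ) : ℝ) := by
      apply Real.log_le_log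
      · have : 0 < n := by omega
        exact_mod_cast this
      · push_cast; linarith
    have h3 := hlog n hn
    have h4 : Real.log ((n + 1 : ℕ) : ℝ) ^ j ≤ 2 ^ j * Real.log n ^ j := by
      rw [← mul_pow]
      exact pow_le_pow_left₀ (by linarith) h1 j
    have h5 : Real.exp (-(σ * Real.log ((n + 1 : ℕ) : ℝ))) ≤ Real.exp (-(σ * Real.log n)) := by
      apply Real.exp_le_exp.mpr
      have : σ * Real.log n ≤ σ * Real.log ((n + 1 : ℕ) : ℝ) :=
        mul_le_mul_of_nonneg_left h2 (by linarith)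
      linarith
    calc _ ≤ (2 ^ j * Real.log n ^ j) * Real.exp (-(σ * Real.log n)) :=
          mul_le_mul h4 h5 (Real.exp_pos _).le (by positivity)
      _ = _ := by ring
  -- term 1
  have t1 : ‖(∑ n ∈ Icc 1 y, a n) * (k1c_f j σ (y + 1) : ℂ)‖ ≤ 2 ^ j * l ^ j := by
    rw [norm_mul, Complex.norm_real, Real.norm_of_nonneg (k1c_f_nonneg _ _ _)]
    have h1 := hf1 y hy
    have h2 : Real.exp (-(σ * Real.log y)) ≤ 1 := by
      rw [Real.exp_le_one_iff]
      have : 0 ≤ σ * Real.log y := by positivity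
      linarith
    calc ‖∑ n ∈ Icc 1 y, a n‖ * k1c_f j σ (y + 1)
        ≤ 1 * (2 ^ j * (Real.log y ^ j * Real.exp (-(σ * Real.log y)))) :=
          mul_le_mul hAy h1 (k1c_f_nonneg _ _ _) zero_le_one
      _ ≤ 1 * (2 ^ j * (l ^ j * 1)) := by
          apply mul_le_mul_of_nonneg_left _ zero_le_one
          apply mul_le_mul_of_nonneg_left _ (by positivity)
          exact mul_le_mul_of_nonneg_left h2 (by positivity)
      _ = _ := by ring
  -- a common estimate
  have hNe : ∀ n : ℕ, 3 ≤ n → (n : ℝ) * Real.exp (-(σ * Real.log n)) =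
      Real.exp (-(β * Real.log n)) := by
    intro n hn
    have hn0 : (0 : ℝ) < n := by
      have : 0 < n := by omega
      exact_mod_cast this
    conv_lhs => rw [← Real.exp_log hn0]
    rw [Real.log_exp, ← Real.exp_add]
    congr 1
    rw [hβ]; ring
  have hLL : (L ^ B) ^ (j + 1) = L ^ (B * (j + 1)) := by rw [← pow_mul]
  have hLp : 0 < L ^ (B * (j + 1)) := by positivity
  -- term 2
  have t2 : ‖(∑ n ∈ Icc 1 N, a n) * (k1c_f j σ (N + 1) : ℂ)‖ ≤
      C0 * 2 ^ j * (1 + j.factorial) * l ^ j := by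
    rw [norm_mul, Complex.norm_real, Real.norm_of_nonneg (k1c_f_nonneg _ _ _)]
    have hN3 : 3 ≤ N := hy.trans hN
    have hN0 : (0 : ℝ) < N := by
      have : 0 < N := by omega
      exact_mod_cast this
    have h1 := hf1 N hN3
    have h2 := hA N hN
    set x := Real.log N with hx
    have hx1 : 1 ≤ x := hlog N hN3
    have hx0 : 0 < x := by linarith
    have hlx : l ≤ x := Real.log_le_log (by linarith) (by exact_mod_cast hN)
    have hE := hNe N hN3
    rw [← hx] at hE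
    have g1 : (l / x) ^ (j + 2) * x ^ j ≤ l ^ j := by
      rw [k1c_ratio j l x hx0, pow_add l j 2, mul_assoc]
      have : l ^ 2 * (1 / x ^ 2) ≤ 1 := by
        rw [mul_one_div, div_le_one (by positivity)]
        exact pow_le_pow_left₀ hl0.le hlx 2
      calc l ^ j * (l ^ 2 * (1 / x ^ 2)) ≤ l ^ j * 1 :=
            mul_le_mul_of_nonneg_left this (by positivity)
        _ = l ^ j := mul_one _
    have g2 : 1 / L ^ (B * (j + 1)) * (x ^ j * Real.exp (-(β * x))) ≤ j.factorial := by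
      have h3 := k1c_pow j β x hβ0 hx0.le
      have h4 : x ^ j * Real.exp (-(β * x)) ≤ j.factorial * (1 / β) ^ j := by
        calc x ^ j * Real.exp (-(β * x)) ≤
            ((j.factorial * (1 / β) ^ j) * Real.exp (β * x)) * Real.exp (-(β * x)) :=
              mul_le_mul_of_nonneg_right h3 (Real.exp_pos _).le
          _ = _ := by
              rw [mul_assoc, ← Real.exp_add, add_neg_cancel, Real.exp_zero, mul_one]
      have h5 : (1 / β) ^ j ≤ L ^ (B * (j + 1)) := by
        calc (1 / β) ^ j ≤ (L ^ B) ^ j := pow_le_pow_left₀ hβi0.le hβi j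
          _ ≤ (L ^ B) ^ (j + 1) := pow_le_pow_right₀ (one_le_pow₀ hL) (by omega)
          _ = _ := hLL
      calc 1 / L ^ (B * (j + 1)) * (x ^ j * Real.exp (-(β * x)))
          ≤ 1 / L ^ (B * (j + 1)) * (j.factorial * L ^ (B * (j + 1))) := by
            apply mul_le_mul_of_nonneg_left _ (by positivity)
            exact h4.trans (mul_le_mul_of_nonneg_left h5 (by positivity))
        _ = j.factorial := by field_simp
    have g3 : Real.exp (-(β * x)) ≤ 1 := by
      rw [Real.exp_le_one_iff]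
      have : 0 ≤ β * x := by positivity
      linarith
    have g4 : ((l / x) ^ (j + 2) + 1 / L ^ (B * (j + 1))) * (x ^ j * Real.exp (-(β * x))) ≤
        (1 + j.factorial) * l ^ j := by
      have h6 : (l / x) ^ (j + 2) * (x ^ j * Real.exp (-(β * x))) ≤ l ^ j := by
        calc (l / x) ^ (j + 2) * (x ^ j * Real.exp (-(β * x)))
            = ((l / x) ^ (j + 2) * x ^ j) * Real.exp (-(β * x)) := by ring
          _ ≤ l ^ j * 1 := mul_le_mul g1 g3 (Real.exp_pos _).le (by positivity)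
          _ = l ^ j := mul_one _
      have h7 : (j.factorial : ℝ) ≤ j.factorial * l ^ j := by
        exact le_mul_of_one_le_right (by positivity) hlj
      rw [add_mul]
      linarith
    calc ‖∑ n ∈ Icc 1 N, a n‖ * k1c_f j σ (N + 1)
        ≤ (C0 * (N / l) * ((l / x) ^ (j + 2) + 1 / L ^ (B * (j + 1)))) *
          (2 ^ j * (x ^ j * Real.exp (-(σ * x)))) :=
          mul_le_mul h2 h1 (k1c_f_nonneg _ _ _) (by positivity)
      _ = (C0 * 2 ^ j) * ((1 / l) * (((l / x) ^ (j + 2) + 1 / L ^ (B * (j + 1))) *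
          (x ^ j * (N * Real.exp (-(σ * x)))))) := by ring
      _ = (C0 * 2 ^ j) * ((1 / l) * (((l / x) ^ (j + 2) + 1 / L ^ (B * (j + 1))) *
          (x ^ j * Real.exp (-(β * x))))) := by rw [hE]
      _ ≤ (C0 * 2 ^ j) * (1 * ((1 + j.factorial) * l ^ j)) := by
          apply mul_le_mul_of_nonneg_left _ (by positivity)
          apply mul_le_mul _ g4 (by positivity) zero_le_one
          rw [div_le_one hl0]; exact hl1
      _ = _ := by ring
  -- term 3
  have t3 : ‖∑ n ∈ Ioc y N, (∑ m ∈ Icc 1 n, a m) *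
      ((k1c_f j σ n - k1c_f j σ (n + 1) : ℝ) : ℂ)‖ ≤
      C0 * ((j + 2) * 2 ^ j) * (1 + 3 * j.factorial * 2 ^ j) * l ^ j := by
    have hterm : ∀ n ∈ Ioc y N, ‖(∑ m ∈ Icc 1 n, a m) *
        ((k1c_f j σ n - k1c_f j σ (n + 1) : ℝ) : ℂ)‖ ≤
        (C0 * ((j + 2) * 2 ^ j) * (1 / l)) * (l ^ (j + 2) * (1 / ((n : ℝ) * Real.log n ^ 2)) +
          1 / L ^ (B * (j + 1)) * (Real.log n ^ j * Real.exp (-((1 + β) * Real.log n)))) := by
      intro n hn
      rw [mem_Ioc] at hn
      have hn3 : 3 ≤ n := by omega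
      have hn0 : (0 : ℝ) < n := by
        have : 0 < n := by omega
        exact_mod_cast this
      rw [norm_mul, Complex.norm_real, Real.norm_eq_abs]
      have h1 := k1c_diff j σ hσ hσ2 n hn3
      have h2 := hA n hn.1.le
      set x := Real.log n with hx
      have hx1 : 1 ≤ x := hlog n hn3
      have hx0 : 0 < x := by linarith
      have h1β : (1 : ℝ) + β = σ := by rw [hβ]; ring
      have hE : Real.exp (-(σ * x)) ≤ 1 / n := by
        have e1 : (1 : ℝ) / n = Real.exp (-x) := by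
          rw [Real.exp_neg, hx, Real.exp_log hn0, one_div]
        rw [e1]
        apply Real.exp_le_exp.mpr
        nlinarith
      have g1 : (l / x) ^ (j + 2) * (x ^ j * Real.exp (-(σ * x))) ≤
          l ^ (j + 2) * (1 / ((n : ℝ) * x ^ 2)) := by
        calc (l / x) ^ (j + 2) * (x ^ j * Real.exp (-(σ * x)))
            = ((l / x) ^ (j + 2) * x ^ j) * Real.exp (-(σ * x)) := by ring
          _ = (l ^ (j + 2) * (1 / x ^ 2)) * Real.exp (-(σ * x)) := by rw [k1c_ratio j l x hx0]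
          _ ≤ (l ^ (j + 2) * (1 / x ^ 2)) * (1 / n) :=
              mul_le_mul_of_nonneg_left hE (by positivity)
          _ = _ := by field_simp
      calc ‖∑ m ∈ Icc 1 n, a m‖ * |k1c_f j σ n - k1c_f j σ (n + 1)|
          ≤ (C0 * (n / l) * ((l / x) ^ (j + 2) + 1 / L ^ (B * (j + 1)))) *
            (((j + 2) * 2 ^ j) * (x ^ j * Real.exp (-(σ * x)) * (1 / n))) :=
            mul_le_mul h2 h1 (abs_nonneg _) (by positivity)
        _ = (C0 * ((j + 2) * 2 ^ j) * (1 / l)) * ((l / x) ^ (j + 2) *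
            (x ^ j * Real.exp (-(σ * x))) +
            1 / L ^ (B * (j + 1)) * (x ^ j * Real.exp (-(σ * x)))) := by
            have : (n : ℝ) * (1 / n) = 1 := by field_simp
            calc _ = (C0 * ((j + 2) * 2 ^ j) * (1 / l)) * ((l / x) ^ (j + 2) *
                (x ^ j * Real.exp (-(σ * x))) +
                1 / L ^ (B * (j + 1)) * (x ^ j * Real.exp (-(σ * x)))) *
                ((n : ℝ) * (1 / n)) := by ring
              _ = _ := by rw [this, mul_one]
        _ ≤ _ := by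
            rw [h1β]
            apply mul_le_mul_of_nonneg_left _ (by positivity)
            linarith
    refine (norm_sum_le _ _).trans ((sum_le_sum hterm).trans ?_)
    rw [← mul_sum, sum_add_distrib, ← mul_sum, ← mul_sum]
    have s1 := k1c_sum1 y (by omega) N hN
    have s2 : ∑ n ∈ Ioc y N, Real.log n ^ j * Real.exp (-((1 + β) * Real.log n)) ≤
        (3 * j.factorial * 2 ^ j) * (1 / β) ^ (j + 1) := by
      refine le_trans ?_ (k1c_sum3 j β hβ0 hβ2 N)
      apply sum_le_sum_of_subset_of_nonneg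
      · intro n hn
        rw [mem_Ioc] at hn
        rw [mem_Icc]
        omega
      · intro n _ _
        have : 0 ≤ Real.log n := Real.log_natCast_nonneg n
        positivity
    have s3 : (1 / β) ^ (j + 1) ≤ L ^ (B * (j + 1)) := by
      rw [← hLL]
      exact pow_le_pow_left₀ hβi0.le hβi _
    have s4 : 1 / L ^ (B * (j + 1)) *
        ∑ n ∈ Ioc y N, Real.log n ^ j * Real.exp (-((1 + β) * Real.log n)) ≤
        3 * j.factorial * 2 ^ j := by
      calc _ ≤ 1 / L ^ (B * (j + 1)) * ((3 * j.factorial * 2 ^ j) * L ^ (B * (j + 1))) := by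
            apply mul_le_mul_of_nonneg_left _ (by positivity)
            exact s2.trans (mul_le_mul_of_nonneg_left s3 (by positivity))
        _ = _ := by field_simp
    have s5 : l ^ (j + 2) * ∑ n ∈ Ioc y N, 1 / ((n : ℝ) * Real.log n ^ 2) ≤ l ^ (j + 1) := by
      calc _ ≤ l ^ (j + 2) * (1 / l) := mul_le_mul_of_nonneg_left s1 (by positivity)
        _ = _ := by rw [pow_succ l (j + 1)]; field_simp
    calc _ ≤ (C0 * ((j + 2) * 2 ^ j) * (1 / l)) * (l ^ (j + 1) + 3 * j.factorial * 2 ^ j) := by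
          apply mul_le_mul_of_nonneg_left (add_le_add s5 s4) (by positivity)
      _ = (C0 * ((j + 2) * 2 ^ j)) * (l ^ j + (1 / l) * (3 * j.factorial * 2 ^ j)) := by
          rw [pow_succ l j]
          field_simp
      _ ≤ (C0 * ((j + 2) * 2 ^ j)) * (l ^ j + l ^ j * (3 * j.factorial * 2 ^ j)) := by
          apply mul_le_mul_of_nonneg_left _ (by positivity)
          have h1 : 1 / l ≤ l ^ j := by
            have : 1 / l ≤ 1 := by rw [div_le_one hl0]; exact hl1
            linarith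
          have h2 := mul_le_mul_of_nonneg_right h1
            (by positivity : (0 : ℝ) ≤ 3 * j.factorial * 2 ^ j)
          linarith
      _ = _ := by ring
  have hn1 := norm_add_le (∑ n ∈ Icc 1 y, a n * (k1c_f j σ n : ℂ))
    ((∑ n ∈ Icc 1 N, a n) * (k1c_f j σ (N + 1) : ℂ) -
      (∑ n ∈ Icc 1 y, a n) * (k1c_f j σ (y + 1) : ℂ) +
        ∑ n ∈ Ioc y N, (∑ m ∈ Icc 1 n, a m) * ((k1c_f j σ n - k1c_f j σ (n + 1) : ℝ) : ℂ))
  have hn2 := norm_add_le ((∑ n ∈ Icc 1 N, a n) * (k1c_f j σ (N + 1) : ℂ) -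
      (∑ n ∈ Icc 1 y, a n) * (k1c_f j σ (y + 1) : ℂ))
      (∑ n ∈ Ioc y N, (∑ m ∈ Icc 1 n, a m) * ((k1c_f j σ n - k1c_f j σ (n + 1) : ℝ) : ℂ))
  have hn3 := norm_sub_le ((∑ n ∈ Icc 1 N, a n) * (k1c_f j σ (N + 1) : ℂ))
      ((∑ n ∈ Icc 1 y, a n) * (k1c_f j σ (y + 1) : ℂ))
  calc _ ≤ 1 * l ^ j + (C0 * 2 ^ j * (1 + j.factorial) * l ^ j + 2 ^ j * l ^ j +
        C0 * ((j + 2) * 2 ^ j) * (1 + 3 * j.factorial * 2 ^ j) * l ^ j) := by linarith
    _ = _ := by ring


private lemma k1c_nit_norm (τ : ℝ) (n : ℕ) : ‖nit τ n‖ = 1 := by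
  unfold nit
  exact Complex.norm_exp_ofReal_mul_I _

private lemma k1c_rc_norm {q : ℕ} (χ : DirichletCharacter ℂ q) (y n : ℕ) : ‖rc χ y n‖ ≤ 1 := by
  unfold rc
  rw [norm_mul]
  have h1 : ‖rgh y n‖ ≤ 1 := by
    unfold rgh
    split_ifs
    · simp
    · simp
  have h2 := DirichletCharacter.norm_le_one χ (n : ZMod q)
  calc ‖rgh y n‖ * ‖χ (n : ZMod q)‖ ≤ 1 * 1 := mul_le_mul h1 h2 (norm_nonneg _) zero_le_one
    _ = 1 := one_mul 1

private lemma k1c_term (g : ℕ → ℂ) (j : ℕ) (σ τ : ℝ) (n : ℕ) (hn : n ≠ 0) :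
    LSeries.term (Pool.Agent.Helper25.MD.lw g j) ((σ : ℂ) + (τ : ℂ) * Complex.I) n =
      (g n * nit τ n) * (k1c_f j σ n : ℂ) := by
  have hn' : (n : ℂ) ≠ 0 := by exact_mod_cast hn
  rw [LSeries.term_of_ne_zero hn]
  unfold Pool.Agent.Helper25.MD.lw
  rw [Complex.cpow_def_of_ne_zero hn', ← Complex.natCast_log, div_eq_mul_inv, ← Complex.exp_neg]
  unfold k1c_f nit
  push_cast
  have h : Complex.exp (-(Complex.log n * ((σ : ℂ) + (τ : ℂ) * Complex.I))) =
      Complex.exp (-((τ : ℂ) * Complex.log n) * Complex.I) *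
        Complex.exp (-((σ : ℂ) * Complex.log n)) := by
    rw [← Complex.exp_add]
    congr 1
    ring
  rw [h]
  ring

private lemma k1c_yX (X : ℕ) (hL : 4 ≤ Real.log X) : 3 ≤ yX X := by
  unfold yX
  apply Nat.le_floor
  have h1 : (2 : ℝ) ≤ Real.log X ^ (19 / 20 : ℝ) := by
    calc (2 : ℝ) = (4 : ℝ) ^ (1 / 2 : ℝ) := by
          rw [← Real.sqrt_eq_rpow, show (4 : ℝ) = 2 ^ 2 by norm_num, Real.sqrt_sq (by norm_num)]
      _ ≤ Real.log X ^ (1 / 2 : ℝ) := Real.rpow_le_rpow (by norm_num) hL (by norm_num)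
      _ ≤ Real.log X ^ (19 / 20 : ℝ) :=
          Real.rpow_le_rpow_of_exponent_le (by linarith) (by norm_num)
  have h2 := Real.add_one_le_exp (Real.log X ^ (19 / 20 : ℝ))
  push_cast
  linarith

theorem thm_K1C (hRC : St_RC) : St_K1C := by
  intro j B' D
  obtain ⟨C0, B, X0, hC0, hR⟩ := hRC (j + 2) (B' * (j + 1)) D
  set C1 : ℝ := 1 + 2 ^ j + C0 * 2 ^ j * (1 + j.factorial) +
        C0 * ((j + 2) * 2 ^ j) * (1 + 3 * j.factorial * 2 ^ j) with hC1
  have hC11 : 1 ≤ C1 := by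
    have e1 : 0 ≤ C0 * 2 ^ j * (1 + (j.factorial : ℝ)) := by positivity
    have e2 : 0 ≤ C0 * (((j : ℝ) + 2) * 2 ^ j) * (1 + 3 * j.factorial * 2 ^ j) := by positivity
    have e3 : (0 : ℝ) < 2 ^ j := by positivity
    linarith
  refine ⟨C1, B, max X0 ⌈Real.exp 4⌉₊, hC11, ?_⟩
  intro X q χ t σ hX hq hqD htB htX hσ1 hσ2
  have hX1 : X0 ≤ X := (le_max_left _ _).trans hX
  have hX2 : Real.exp 4 ≤ (X : ℝ) :=
    (Nat.le_ceil _).trans (by exact_mod_cast (le_max_right _ _).trans hX)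
  have hXpos : (0 : ℝ) < X := lt_of_lt_of_le (Real.exp_pos _) hX2
  have hL4 : 4 ≤ Real.log X := by rwa [Real.le_log_iff_exp_le hXpos]
  have hL1 : 1 ≤ Real.log X := by linarith
  set y := yX X with hy
  have hy3 : 3 ≤ y := k1c_yX X hL4
  have hσ : 1 < σ := by
    have : 0 < 1 / Real.log X ^ B' := by positivity
    linarith
  set s : ℂ := (σ : ℂ) + (t : ℂ) * Complex.I with hs
  have hsre : 1 < s.re := by
    rw [hs]
    simpa using hσ
  have hsum := Pool.Agent.Helper25.MD.summable_lw (f := rc χ y) (B := 1) (k1c_rc_norm χ y) hsre j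
  have hlim : Tendsto (fun N : ℕ => ∑ n ∈ range (N + 1),
      LSeries.term (Pool.Agent.Helper25.MD.lw (rc χ y) j) s n) atTop
      (nhds (LL (rc χ y) j s)) := by
    have h2 : HasSum (LSeries.term (Pool.Agent.Helper25.MD.lw (rc χ y) j) s)
        (LL (rc χ y) j s) := Summable.hasSum hsum
    exact h2.tendsto_sum_nat.comp (tendsto_add_atTop_nat 1)
  have hA : ∀ u : ℕ, y ≤ u → ‖∑ n ∈ Icc 1 u, rc χ y n * nit t n‖ ≤ C0 * (u / Real.log y) *
      ((Real.log y / Real.log u) ^ (j + 2) + 1 / Real.log X ^ (B' * (j + 1))) :=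
    fun u hu => hR X u q χ t hX1 hq hqD htB htX hu
  have ha0 : ∀ n, 2 ≤ n → n ≤ y → rc χ y n * nit t n = 0 := by
    intro n hn2 hny
    have h3 : rgh y n = 0 := by
      unfold rgh
      rw [if_neg]
      rintro ⟨_, h4⟩
      have hp := Nat.minFac_prime (n := n) (by omega)
      refine h4 n.minFac ?_ (Nat.minFac_dvd n)
      unfold pz
      rw [mem_filter, mem_range]
      have := Nat.minFac_le (n := n) (by omega)
      exact ⟨by omega, hp⟩
    unfold rc
    rw [h3, zero_mul, zero_mul]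
  have ha1 : ‖rc χ y 1 * nit t 1‖ ≤ 1 := by
    rw [norm_mul, k1c_nit_norm, mul_one]
    exact k1c_rc_norm χ y 1
  have hmain := k1c_main j B' C0 hC0 y hy3 (Real.log X) σ hL1 hσ1 hσ2
    (fun n => rc χ y n * nit t n) hA ha0 ha1
  rw [← hC1] at hmain
  have hev : ∀ᶠ N : ℕ in atTop, ‖∑ n ∈ range (N + 1),
      LSeries.term (Pool.Agent.Helper25.MD.lw (rc χ y) j) s n‖ ≤ C1 * Real.log y ^ j := by
    filter_upwards [eventually_ge_atTop y] with N hN
    have e1 : ∑ n ∈ range (N + 1), LSeries.term (Pool.Agent.Helper25.MD.lw (rc χ y) j) s n =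
        ∑ n ∈ Icc 1 N, (rc χ y n * nit t n) * (k1c_f j σ n : ℂ) := by
      rw [sum_range_succ']
      rw [LSeries.term_zero, add_zero]
      have e2 : Icc 1 N = (range N).image (fun n => n + 1) := by
        ext n
        simp only [mem_Icc, mem_image, mem_range]
        constructor
        · rintro ⟨h5, h6⟩
          exact ⟨n - 1, by omega, by omega⟩
        · rintro ⟨m, h5, rfl⟩
          omega
      rw [e2, sum_image (fun a _ b _ hab => by simpa using hab)]
      refine sum_congr rfl fun n _ => ?_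
      exact k1c_term (rc χ y) j σ t (n + 1) (by omega)
    rw [e1]
    exact hmain N hN
  exact le_of_tendsto hlim.norm hev

end Pool.Agent.NRV
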