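import Pool.Agent.NRV.St
import Pool.Agent.SI.K2
import Pool.Agent.SI.RU
import Pool.Agent.SI.Fq

set_option autoImplicit false

/-!
# NRV / K2C: the lower bound for the sieved L-function (3-4-1 inequality)
-/

namespace Pool.Agent.NRV

open Finset Filter
open Pool.Agent.SI (rgh k2_pz_prime k2_mem_pz k2_norm_rgh k2_real k2_yy)
open Pool.Agent.Helper25.MD (LL mob)
open Pool.Agent.LIN (pz)

namespace K2CX

lemma norm_rc {q : ℕ} (χ : DirichletCharacter ℂ q) (y n : ℕ) : ‖rc χ y n‖ ≤ ‖rgh y n‖ := by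
  unfold rc
  rw [norm_mul]
  exact mul_le_of_le_one_right (norm_nonneg _) (χ.norm_le_one _)

lemma norm_rc_one {q : ℕ} (χ : DirichletCharacter ℂ q) (y n : ℕ) : ‖rc χ y n‖ ≤ 1 :=
  (norm_rc χ y n).trans (k2_norm_rgh y n)

/-- the product of the primes up to `y` -/
noncomputable def PP (y : ℕ) : ℕ := ∏ p ∈ pz y, p

lemma PP_pos (y : ℕ) : 0 < PP y := Finset.prod_pos fun _ hp => (k2_pz_prime hp).pos

/-- the character `χ` on rough numbers as a character modulo `q ∏ p` -/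
lemma char_eq {q : ℕ} (χ : DirichletCharacter ℂ q) (y n : ℕ) (hn : n ≠ 0) :
    (DirichletCharacter.changeLevel (dvd_mul_right q (PP y)) χ) (n : ZMod (q * PP y)) =
      rc χ y n := by
  unfold rc rgh
  by_cases h : ∀ p ∈ pz y, ¬ p ∣ n
  · rw [if_pos ⟨hn, h⟩, one_mul]
    have hP : Nat.Coprime n (PP y) := Nat.Coprime.prod_right fun p hp =>
      Nat.Coprime.symm (((Nat.Prime.coprime_iff_not_dvd (k2_pz_prime hp)).2 (h p hp)))
    by_cases hq : Nat.Coprime n q
    · have hco : Nat.Coprime n (q * PP y) := Nat.Coprime.mul_right hq hP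
      have h1 := DirichletCharacter.changeLevel_eq_cast_of_dvd χ (dvd_mul_right q (PP y))
        (ZMod.unitOfCoprime n hco)
      rw [ZMod.coe_unitOfCoprime] at h1
      rw [h1, ZMod.cast_natCast (dvd_mul_right q (PP y))]
    · rw [MulChar.map_nonunit, MulChar.map_nonunit]
      · rw [ZMod.isUnit_iff_coprime]
        exact hq
      · rw [ZMod.isUnit_iff_coprime]
        exact fun hc => hq (Nat.Coprime.coprime_mul_right_right hc)
  · rw [if_neg (fun hh => h hh.2), zero_mul]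
    apply MulChar.map_nonunit
    rw [ZMod.isUnit_iff_coprime]
    push Not at h
    obtain ⟨p, hp, hpn⟩ := h
    intro hc
    have hc2 : Nat.Coprime n (PP y) := Nat.Coprime.coprime_mul_left_right hc
    have h1 : p ∣ Nat.gcd n (PP y) := Nat.dvd_gcd hpn (dvd_prod_of_mem _ hp)
    rw [Nat.Coprime] at hc2
    rw [hc2] at h1
    exact (k2_pz_prime hp).one_lt.ne' (Nat.dvd_one.1 h1)

lemma LS_eq {q : ℕ} (χ : DirichletCharacter ℂ q) (y : ℕ) (s : ℂ) :
    LSeries (fun n => (DirichletCharacter.changeLevel (dvd_mul_right q (PP y)) χ)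
      (n : ZMod (q * PP y))) s = LL (rc χ y) 0 s := by
  rw [Pool.Agent.Helper52.MD.LL_zero]
  exact LSeries_congr (fun {n} hn => char_eq χ y n hn) s

/-- at real points the principal character is dominated by all rough numbers -/
lemma real_le {q : ℕ} (χ : DirichletCharacter ℂ q) (y : ℕ) {σ : ℝ} (hσ : 1 < σ) :
    ‖LL (rc χ y) 0 (σ : ℂ)‖ ≤ ‖LL (rgh y) 0 (σ : ℂ)‖ := by
  rw [Pool.Agent.Helper52.MD.LL_zero, Pool.Agent.Helper52.MD.LL_zero]
  have hre : 1 < ((σ : ℂ)).re := by simpa using hσ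
  have hS : LSeriesSummable (rgh y) (σ : ℂ) := by
    have := Pool.Agent.Helper52.MD.summable_LL (rgh y) (k2_norm_rgh y) 0 (s := (σ : ℂ)) hre
    simpa using this
  have hS' : Summable fun n => ‖LSeries.term (rgh y) (σ : ℂ) n‖ := hS.norm
  have hreal : ∀ n, LSeries.term (rgh y) (σ : ℂ) n =
      ((‖LSeries.term (rgh y) (σ : ℂ) n‖ : ℝ) : ℂ) := by
    intro n
    rcases Nat.eq_zero_or_pos n with rfl | hn
    · rw [LSeries.term_zero, norm_zero, Complex.ofReal_zero]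
    · rw [LSeries.term_of_ne_zero hn.ne']
      have h1 : ((n : ℂ)) ^ (σ : ℂ) = (((n : ℝ) ^ σ : ℝ) : ℂ) := by
        rw [Complex.ofReal_cpow (Nat.cast_nonneg n)]
        push_cast
        rfl
      have h2 : 0 ≤ (n : ℝ) ^ σ := Real.rpow_nonneg (Nat.cast_nonneg n) _
      rw [h1]
      unfold rgh
      split_ifs
      · rw [norm_div, norm_one, Complex.norm_real, Real.norm_of_nonneg h2]
        push_cast
        rfl
      · rw [zero_div, norm_zero, Complex.ofReal_zero]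
  have h1 : LSeries (rgh y) (σ : ℂ) = ((∑' n, ‖LSeries.term (rgh y) (σ : ℂ) n‖ : ℝ) : ℂ) := by
    unfold LSeries
    rw [Complex.ofReal_tsum]
    exact tsum_congr hreal
  rw [h1, Complex.norm_real, Real.norm_of_nonneg (tsum_nonneg fun _ => norm_nonneg _)]
  have hle : ∀ n, ‖LSeries.term (rc χ y) (σ : ℂ) n‖ ≤ ‖LSeries.term (rgh y) (σ : ℂ) n‖ := fun n =>
    LSeries.norm_term_le _ (norm_rc χ y n)
  have hS2 : Summable fun n => ‖LSeries.term (rc χ y) (σ : ℂ) n‖ :=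
    Summable.of_nonneg_of_le (fun _ => norm_nonneg _) hle hS'
  unfold LSeries
  exact (norm_tsum_le_tsum_norm hS2).trans (hS2.tsum_le_tsum hle hS')

lemma ineq {q : ℕ} (hq : 1 ≤ q) (χ : DirichletCharacter ℂ q) (y : ℕ) {x : ℝ} (hx : 0 < x) (t : ℝ) :
    1 ≤ ‖LL (rgh y) 0 ((1 + x : ℝ) : ℂ)‖ ^ 3 *
      ‖LL (rc χ y) 0 (((1 + x : ℝ) : ℂ) + (t : ℂ) * Complex.I)‖ ^ 4 *
      ‖LL (rc (χ ^ 2) y) 0 (((1 + x : ℝ) : ℂ) + ((2 * t : ℝ) : ℂ) * Complex.I)‖ := by
  have : NeZero (q * PP y) := ⟨(Nat.mul_pos hq (PP_pos y)).ne'⟩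
  have h := DirichletCharacter.norm_LSeries_product_ge_one
    (DirichletCharacter.changeLevel (dvd_mul_right q (PP y)) χ) hx t
  rw [norm_mul, norm_mul, norm_pow, norm_pow, ← map_pow,
    ← map_one (DirichletCharacter.changeLevel (dvd_mul_right q (PP y)))] at h
  have e1 : (1 + (x : ℂ)) = ((1 + x : ℝ) : ℂ) := by push_cast; ring
  have e2 : (1 + (x : ℂ) + Complex.I * t) = ((1 + x : ℝ) : ℂ) + (t : ℂ) * Complex.I := by
    push_cast; ring
  have e3 : (1 + (x : ℂ) + 2 * Complex.I * t) =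
      ((1 + x : ℝ) : ℂ) + ((2 * t : ℝ) : ℂ) * Complex.I := by
    push_cast; ring
  rw [e2, e3, e1, LS_eq, LS_eq, LS_eq] at h
  refine h.le.trans ?_
  have h1 := real_le (1 : DirichletCharacter ℂ q) y (σ := 1 + x) (by linarith)
  gcongr

/-- mean value inequality -/
lemma mean {q : ℕ} (χ : DirichletCharacter ℂ q) (y : ℕ) {σ σ' t M : ℝ} (h0 : 1 < σ) (h1 : σ ≤ σ')
    (hM : ∀ x : ℝ, σ ≤ x → x ≤ σ' → ‖LL (rc χ y) 1 ((x : ℂ) + (t : ℂ) * Complex.I)‖ ≤ M) :
    ‖LL (rc χ y) 0 ((σ' : ℂ) + (t : ℂ) * Complex.I) -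
      LL (rc χ y) 0 ((σ : ℂ) + (t : ℂ) * Complex.I)‖ ≤ M * (σ' - σ) := by
  rw [Pool.Agent.Helper52.MD.LL_zero, Pool.Agent.Helper52.MD.LL_zero]
  have hd : ∀ x : ℝ, σ ≤ x → HasDerivAt
      (fun x : ℝ => LSeries (rc χ y) ((x : ℂ) + (t : ℂ) * Complex.I))
      (- LSeries (LSeries.logMul (rc χ y)) ((x : ℂ) + (t : ℂ) * Complex.I)) x := by
    intro x hx
    have h2 : HasDerivAt (LSeries (rc χ y))
        (- LSeries (LSeries.logMul (rc χ y)) ((x : ℂ) + (t : ℂ) * Complex.I))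
        ((x : ℂ) + (t : ℂ) * Complex.I) := by
      apply LSeries_hasDerivAt
      refine lt_of_le_of_lt (LSeries.abscissaOfAbsConv_le_of_le_const
        ⟨1, fun n _ => norm_rc_one χ y n⟩) ?_
      have : (1 : ℝ) < ((x : ℂ) + (t : ℂ) * Complex.I).re := by
        simp only [Complex.add_re, Complex.ofReal_re, Complex.mul_re, Complex.I_re, mul_zero,
          Complex.ofReal_im, Complex.I_im, mul_one, sub_self, add_zero]
        linarith
      exact_mod_cast this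
    have h3 : HasDerivAt (fun x : ℂ => LSeries (rc χ y) (x + (t : ℂ) * Complex.I))
        (- LSeries (LSeries.logMul (rc χ y)) ((x : ℂ) + (t : ℂ) * Complex.I)) (x : ℂ) :=
      HasDerivAt.comp_add_const (x : ℂ) ((t : ℂ) * Complex.I) h2
    exact h3.comp_ofReal
  have hlog : ∀ z : ℂ, LSeries (LSeries.logMul (rc χ y)) z = LL (rc χ y) 1 z := by
    intro z
    unfold LL
    congr 1
    ext n
    rw [LSeries.logMul, pow_one, mul_comm, Complex.natCast_log]
  have hmv := norm_image_sub_le_of_norm_deriv_le_segment' (a := σ) (b := σ') (C := M)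
    (f := fun x : ℝ => LSeries (rc χ y) ((x : ℂ) + (t : ℂ) * Complex.I))
    (f' := fun x : ℝ => - LSeries (LSeries.logMul (rc χ y)) ((x : ℂ) + (t : ℂ) * Complex.I))
    (fun x hx => (hd x hx.1).hasDerivWithinAt)
    (fun x hx => by
      rw [norm_neg, hlog]
      exact hM x hx.1 hx.2.le) σ' ⟨h1, le_rfl⟩
  exact hmv

end K2CX

open K2CX in
theorem thm_K2C (h1 : St_K1C) : St_K2C := by
  intro B' D
  obtain ⟨C0, hC0, hRU⟩ := Pool.Agent.SI.thm_RU Pool.Agent.SI.thm_Fq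
  obtain ⟨C1, B1, X1, hC1, hK0⟩ := h1 0 B' D
  obtain ⟨C2, B2, X2, hC2, hK1⟩ := h1 1 B' D
  set κ : ℝ := 1 / ((1 + 2 * C0) * C1) with hκ
  have hκ0 : 0 < κ := by positivity
  have hκ1 : κ ≤ 1 := by
    rw [hκ, div_le_one (by positivity)]
    nlinarith
  set b : ℝ := κ / (2 * C2) with hb
  have hb0 : 0 < b := by positivity
  have hb1 : b ≤ 1 := by
    rw [hb, div_le_one (by positivity)]
    linarith
  have hbC : C2 * b = κ / 2 := by
    rw [hb]; field_simp
  refine ⟨κ * b ^ 3 / 2, max B1 B2, max (max X1 X2) ⌈Real.exp 4⌉₊, by positivity, ?_⟩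
  intro X q χ t σ hX hq hqD htB htX hσ1 hσ2
  have hX1 : X1 ≤ X := ((le_max_left _ _).trans (le_max_left _ _)).trans hX
  have hX2 : X2 ≤ X := ((le_max_right _ _).trans (le_max_left _ _)).trans hX
  have hX3 : Real.exp 4 ≤ X := (Nat.le_ceil _).trans (by exact_mod_cast (le_max_right _ _).trans hX)
  have hy4 : 4 ≤ yX X := k2_yy hX3
  have hlt4 : 4 ≤ Real.log X := by
    have : Real.log (Real.exp 4) ≤ Real.log X := Real.log_le_log (Real.exp_pos 4) hX3
    rwa [Real.log_exp] at this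
  have hlt : 0 < Real.log X := by linarith
  have hXr : (5 : ℝ) ≤ X := by
    have := Real.add_one_le_exp (4 : ℝ)
    linarith
  set y := yX X with hy
  have hly : 1 ≤ Real.log y := by
    have h4 : Real.log 4 ≤ Real.log y := Real.log_le_log (by norm_num) (by exact_mod_cast hy4)
    have h5 : Real.log 4 = 2 * Real.log 2 := by
      rw [show (4 : ℝ) = 2 ^ 2 by norm_num, Real.log_pow]; norm_num
    have h6 := Real.log_two_gt_d9
    linarith
  have hσ0 : 1 < σ := by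
    have : 0 < 1 / Real.log X ^ B' := by positivity
    linarith
  have htB1 : Real.log X ^ B1 ≤ |2 * t| := by
    have h2 : Real.log X ^ B1 ≤ Real.log X ^ max B1 B2 :=
      pow_le_pow_right₀ (by linarith) (le_max_left _ _)
    rw [abs_mul, abs_two]
    have := abs_nonneg t
    linarith
  have htB2 : Real.log X ^ B2 ≤ |t| :=
    (pow_le_pow_right₀ (by linarith) (le_max_right _ _)).trans htB
  have hX34 : (X : ℝ) ^ 3 ≤ (X : ℝ) ^ 4 / 2 := by
    have : 0 < (X : ℝ) ^ 3 := by positivity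
    have e : (X : ℝ) ^ 4 = X ^ 3 * X := by ring
    rw [e]
    nlinarith
  have htX2 : |t| ≤ (X : ℝ) ^ 4 := by
    have : 0 < (X : ℝ) ^ 3 := by positivity
    linarith
  have htX1 : |2 * t| ≤ (X : ℝ) ^ 4 := by
    rw [abs_mul, abs_two]
    linarith
  -- the bound for `x ≥ 1 + b^4 / log y`
  have key : ∀ x : ℝ, 1 + 1 / Real.log X ^ B' ≤ x → x ≤ 2 → 1 + b ^ 4 / Real.log y ≤ x →
      κ * b ^ 3 ≤ ‖LL (rc χ y) 0 ((x : ℂ) + (t : ℂ) * Complex.I)‖ := by
    intro x hx1 hx2 hx3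
    have hx0 : 0 < x - 1 := by
      have : 0 < b ^ 4 / Real.log y := by positivity
      linarith
    have e1 := ineq hq χ y hx0 t
    rw [show 1 + (x - 1) = x by ring] at e1
    have e2 : ‖LL (rgh y) 0 (x : ℂ)‖ ≤ (1 + 2 * C0) / b ^ 4 := by
      refine (k2_real hC0 hRU (by omega) (by linarith) hx2).trans ?_
      have h5 : b ^ 4 ≤ (x - 1) * Real.log y := by
        have h6 : b ^ 4 / Real.log y ≤ x - 1 := by linarith
        rwa [div_le_iff₀ (by linarith)] at h6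
      have h7 : 2 * C0 / ((x - 1) * Real.log y) ≤ 2 * C0 / b ^ 4 := by gcongr
      have h8 : 1 ≤ 1 / b ^ 4 := by
        rw [le_div_iff₀ (by positivity), one_mul]
        exact pow_le_one₀ hb0.le hb1
      calc 1 + 2 * C0 / ((x - 1) * Real.log y) ≤ 1 / b ^ 4 + 2 * C0 / b ^ 4 := add_le_add h8 h7
        _ = (1 + 2 * C0) / b ^ 4 := by ring
    have e3 : ‖LL (rc (χ ^ 2) y) 0 ((x : ℂ) + ((2 * t : ℝ) : ℂ) * Complex.I)‖ ≤ C1 := by
      have := hK0 X q (χ ^ 2) (2 * t) x hX1 hq hqD htB1 htX1 hx1 hx2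
      simpa using this
    set A := ‖LL (rc χ y) 0 ((x : ℂ) + (t : ℂ) * Complex.I)‖ with hA
    have hA0 : 0 ≤ A := norm_nonneg _
    by_contra hcon
    push Not at hcon
    have h9 : A ^ 4 < (κ * b ^ 3) ^ 4 := pow_lt_pow_left₀ hcon hA0 (by norm_num)
    have h10 : (1 : ℝ) ≤ ((1 + 2 * C0) / b ^ 4) ^ 3 * A ^ 4 * C1 := by
      refine e1.trans ?_
      gcongr
    have h11 : ((1 + 2 * C0) / b ^ 4) ^ 3 * A ^ 4 * C1 <
        ((1 + 2 * C0) / b ^ 4) ^ 3 * (κ * b ^ 3) ^ 4 * C1 := by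
      have : 0 < ((1 + 2 * C0) / b ^ 4) ^ 3 := by positivity
      exact mul_lt_mul_of_pos_right (mul_lt_mul_of_pos_left h9 this) (by linarith)
    have h12 : ((1 + 2 * C0) / b ^ 4) ^ 3 * (κ * b ^ 3) ^ 4 * C1 =
        1 / ((1 + 2 * C0) * C1 ^ 3) := by
      rw [hκ]
      field_simp
    have h13 : 1 / ((1 + 2 * C0) * C1 ^ 3) ≤ 1 := by
      rw [div_le_one (by positivity)]
      have : 1 ≤ C1 ^ 3 := one_le_pow₀ hC1
      nlinarith
    linarith
  rcases le_or_gt (1 + b ^ 4 / Real.log y) σ with hcase | hcase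
  · have h3 := key σ hσ1 hσ2 hcase
    have h4 : 0 ≤ κ * b ^ 3 := by positivity
    linarith
  · set σa : ℝ := 1 + b ^ 4 / Real.log y with hσa
    have hσa2 : σa ≤ 2 := by
      have h4 : b ^ 4 ≤ 1 := pow_le_one₀ hb0.le hb1
      have h5 : b ^ 4 / Real.log y ≤ 1 := by
        rw [div_le_one (by linarith)]
        linarith
      linarith
    have h3 := key σa (by linarith) hσa2 le_rfl
    have h4 := mean χ y (σ := σ) (σ' := σa) (t := t) (M := C2 * Real.log y) hσ0 hcase.le (by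
      intro x hx1 hx2
      have := hK1 X q χ t x hX2 hq hqD htB2 htX2 (by linarith) (by linarith)
      rw [pow_one] at this
      exact this)
    have h5 : C2 * Real.log y * (σa - σ) ≤ C2 * b ^ 4 := by
      have h6 : σa - σ ≤ b ^ 4 / Real.log y := by linarith
      calc C2 * Real.log y * (σa - σ) ≤ C2 * Real.log y * (b ^ 4 / Real.log y) :=
            mul_le_mul_of_nonneg_left h6 (by positivity)
        _ = C2 * b ^ 4 := by field_simp
    have h6 : C2 * b ^ 4 = κ * b ^ 3 / 2 := by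
      have : C2 * b ^ 4 = (C2 * b) * b ^ 3 := by ring
      rw [this, hbC]
      ring
    have h7 : ‖LL (rc χ y) 0 ((σa : ℂ) + (t : ℂ) * Complex.I)‖ ≤
        ‖LL (rc χ y) 0 ((σa : ℂ) + (t : ℂ) * Complex.I) -
          LL (rc χ y) 0 ((σ : ℂ) + (t : ℂ) * Complex.I)‖ +
        ‖LL (rc χ y) 0 ((σ : ℂ) + (t : ℂ) * Complex.I)‖ := by
      have := norm_add_le (LL (rc χ y) 0 ((σa : ℂ) + (t : ℂ) * Complex.I) -
          LL (rc χ y) 0 ((σ : ℂ) + (t : ℂ) * Complex.I))
        (LL (rc χ y) 0 ((σ : ℂ) + (t : ℂ) * Complex.I))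
      rwa [sub_add_cancel] at this
    linarith

end Pool.Agent.NRV
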