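import Pool.Agent.NRV.St
import Pool.Agent.SI.K3

/-!
# NRV / K3C

The part of the Dirichlet series of `μ χ` with all prime factors up to `y`: every term is in absolute
value at most the one for `μ` alone, which is estimated in `Pool/Agent/SI/K3.lean`.
-/

set_option autoImplicit false

namespace Pool.Agent.NRV

open Finset
open Pool.Agent.SI (nit rgh smo k3S)
open Pool.Agent.Helper25.MD (LL mob gch)

namespace K3CX

/-- termwise comparison with the function of Möbius alone -/
lemma norm_term_le {q : ℕ} (χ : DirichletCharacter ℂ q) (y n j : ℕ) (s : ℂ) :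
    ‖LSeries.term (fun n => sc χ y n * (Real.log n : ℂ) ^ j) s n‖ ≤
      ‖LSeries.term (fun n => smo y n * (Real.log n : ℂ) ^ j) s n‖ := by
  refine LSeries.norm_term_le s ?_
  unfold sc
  rw [norm_mul, norm_mul, norm_mul]
  refine mul_le_mul_of_nonneg_right ?_ (norm_nonneg _)
  exact mul_le_of_le_one_right (norm_nonneg _) (DirichletCharacter.norm_le_one χ _)

end K3CX

theorem thm_K3C : St_K3C := by
  intro j
  refine ⟨j.factorial * Real.exp 23, by positivity, ?_⟩
  intro y q χ s hy hs
  have hly : 0 < Real.log y := Real.log_pos (by exact_mod_cast (by omega : 1 < y))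
  have h0 : ∀ n ∉ k3S y, LSeries.term (fun n => sc χ y n * (Real.log n : ℂ) ^ j) s n = 0 := by
    intro n hn
    have h1 : smo y n = 0 := by
      by_contra h
      exact hn (Pool.Agent.SI.k3_mem h)
    rcases Nat.eq_zero_or_pos n with h | h
    · subst h; exact LSeries.term_zero _ _
    · rw [LSeries.term_of_ne_zero (by omega)]
      unfold sc
      rw [h1]; simp
  unfold LL LSeries
  rw [tsum_eq_sum h0]
  refine (norm_sum_le _ _).trans ?_
  calc ∑ n ∈ k3S y, ‖LSeries.term (fun n => sc χ y n * (Real.log n : ℂ) ^ j) s n‖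
      ≤ ∑ n ∈ k3S y, j.factorial * Real.log y ^ j * (n : ℝ) ^ (1 / Real.log y - 1) := by
        refine sum_le_sum fun n hn => ?_
        refine (K3CX.norm_term_le χ y n j s).trans (Pool.Agent.SI.k3_term hy ?_ hs)
        unfold k3S at hn
        rw [mem_image] at hn
        obtain ⟨T, hT, rfl⟩ := hn
        rw [mem_powerset] at hT
        exact prod_ne_zero_iff.2 fun p hp => (Pool.Agent.SI.k3_pz.1 (hT hp)).2.ne_zero
    _ = j.factorial * Real.log y ^ j * ∑ n ∈ k3S y, (n : ℝ) ^ (1 / Real.log y - 1) := by
        rw [mul_sum]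
    _ ≤ j.factorial * Real.log y ^ j * (Real.exp 23 * Real.log y ^ 3) :=
        mul_le_mul_of_nonneg_left (Pool.Agent.SI.k3_sum hy) (by positivity)
    _ = j.factorial * Real.exp 23 * Real.log y ^ (j + 3) := by
        rw [pow_add]; ring

end Pool.Agent.NRV
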