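import Pool.Agent.NRV.St
import Pool.Agent.SI.K4

/-!
# NRV / K4C: derivatives of `1/L(s, χ)` (helper17)
-/

set_option autoImplicit false

namespace Pool.Agent.NRV

open Finset
open Pool.Agent.SI (nit rgh smo k4_G k4_RG k4_SG k4_rec k4_norm_rgh k4_norm_G k4_norm_smo)
open Pool.Agent.Helper25.MD (LL mob gch)

namespace K4CX

/-- twists of convolutions -/
theorem conv_twist {q : ℕ} (χ : DirichletCharacter ℂ q) (f g : ℕ → ℂ) :
    LSeries.convolution (fun n => f n * χ (n : ZMod q)) (fun n => g n * χ (n : ZMod q)) =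
      fun n => LSeries.convolution f g n * χ (n : ZMod q) := by
  funext n
  rw [LSeries.convolution_def, LSeries.convolution_def]
  simp only
  rw [Finset.sum_mul]
  refine Finset.sum_congr rfl fun p hp => ?_
  obtain ⟨h3, _⟩ := Nat.mem_divisorsAntidiagonal.mp hp
  rw [← h3]
  push_cast
  rw [map_mul]
  ring

theorem norm_mul_chi {q : ℕ} (χ : DirichletCharacter ℂ q) {f : ℕ → ℂ} (hf : ∀ n, ‖f n‖ ≤ 1)
    (n : ℕ) : ‖f n * χ (n : ZMod q)‖ ≤ 1 := by
  rw [norm_mul]
  exact mul_le_one₀ (hf n) (norm_nonneg _) (DirichletCharacter.norm_le_one χ _)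

theorem conv_RG {q : ℕ} (χ : DirichletCharacter ℂ q) (y : ℕ) :
    LSeries.convolution (rc χ y) (fun n => k4_G y n * χ (n : ZMod q)) = LSeries.delta := by
  have h1 := conv_twist χ (rgh y) (k4_G y)
  rw [k4_RG] at h1
  have h2 : LSeries.convolution (rc χ y) (fun n => k4_G y n * χ (n : ZMod q)) =
      fun n => LSeries.delta n * χ (n : ZMod q) := h1
  rw [h2]
  funext n
  unfold LSeries.delta
  split_ifs with h
  · subst h
    rw [Nat.cast_one, map_one, mul_one]
  · rw [zero_mul]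

theorem conv_SG {q : ℕ} (χ : DirichletCharacter ℂ q) (y : ℕ) :
    LSeries.convolution (sc χ y) (fun n => k4_G y n * χ (n : ZMod q)) = gch χ := by
  have h1 := conv_twist χ (smo y) (k4_G y)
  rw [k4_SG] at h1
  exact h1

end K4CX

open K4CX in
theorem thm_K4C (h1 : St_K1C) (h2 : St_K2C) (h3 : St_K3C) : St_K4C := by
  intro j B' D
  choose CK BK XK hCK hK using fun i => h1 i B' D
  obtain ⟨c, B2, X2, hc, hK2⟩ := h2 B' D
  choose CS hCS hS using h3
  set C₁ : ℝ := ∑ i ∈ range (j + 1), CK i with hC₁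
  have hC₁i : ∀ i, i ≤ j → CK i ≤ C₁ := fun i hi =>
    Finset.single_le_sum (f := CK) (fun i _ => by linarith [hCK i])
      (Finset.mem_range.2 (by omega))
  have hC₁1 : 1 ≤ C₁ := (hCK 0).trans (hC₁i 0 (Nat.zero_le _))
  set C₃ : ℝ := ∑ i ∈ range (j + 1), CS i with hC₃
  have hC₃i : ∀ i, i ≤ j → CS i ≤ C₃ := fun i hi =>
    Finset.single_le_sum (f := CS) (fun i _ => (hCS i).le) (Finset.mem_range.2 (by omega))
  have hC₃0 : 0 < C₃ := lt_of_lt_of_le (hCS 0) (hC₃i 0 (Nat.zero_le _))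
  set B₁ : ℕ := ∑ i ∈ range (j + 1), BK i with hB₁
  have hB₁i : ∀ i, i ≤ j → BK i ≤ B₁ := fun i hi =>
    Finset.single_le_sum (f := BK) (fun i _ => Nat.zero_le _) (Finset.mem_range.2 (by omega))
  set X₁ : ℕ := ∑ i ∈ range (j + 1), XK i with hX₁
  have hX₁i : ∀ i, i ≤ j → XK i ≤ X₁ := fun i hi =>
    Finset.single_le_sum (f := XK) (fun i _ => Nat.zero_le _) (Finset.mem_range.2 (by omega))
  obtain ⟨C₂, hC₂, hrec⟩ := k4_rec j C₁ c hC₁1 hc
  refine ⟨2 ^ j * (C₃ * C₂), B₁ + B2, X₁ + X2 + ⌈Real.exp (2 ^ (20 / 19 : ℝ) + 1)⌉₊,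
    by positivity, ?_⟩
  intro X q χ t σ hX hq hqD ht1 ht2 hσ1 hσ2
  have hXe : Real.exp (2 ^ (20 / 19 : ℝ) + 1) ≤ X := by
    refine (Nat.le_ceil _).trans ?_
    exact_mod_cast (Nat.le_add_left _ _).trans hX
  have hX0 : (0 : ℝ) < X := (Real.exp_pos _).trans_le hXe
  have hlog : 2 ^ (20 / 19 : ℝ) + 1 ≤ Real.log X := by
    rw [Real.le_log_iff_exp_le hX0]
    exact hXe
  have h2p : (0 : ℝ) < 2 ^ (20 / 19 : ℝ) := by positivity
  have hl1 : 1 ≤ Real.log X := by linarith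
  have hl0 : 0 < Real.log X := by linarith
  have hlt : 2 ≤ Real.log X ^ (19 / 20 : ℝ) := by
    have e1 : (2 : ℝ) ≤ 2 ^ (20 / 19 : ℝ) := by
      calc (2 : ℝ) = 2 ^ (1 : ℝ) := (Real.rpow_one _).symm
        _ ≤ 2 ^ (20 / 19 : ℝ) := Real.rpow_le_rpow_of_exponent_le (by norm_num) (by norm_num)
    have e2 : ((2 : ℝ) ^ (20 / 19 : ℝ)) ^ (19 / 20 : ℝ) ≤ Real.log X ^ (19 / 20 : ℝ) :=
      Real.rpow_le_rpow h2p.le (by linarith) (by norm_num)
    rw [← Real.rpow_mul (by norm_num)] at e2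
    have e3 : (20 / 19 : ℝ) * (19 / 20) = 1 := by norm_num
    rwa [e3, Real.rpow_one] at e2
  have hX1 : (1 : ℝ) ≤ X := by
    have : (1 : ℕ) ≤ X := by
      have : 0 < X := by exact_mod_cast hX0
      omega
    exact_mod_cast this
  have ht3 : |t| ≤ (X : ℝ) ^ 4 := ht2.trans (pow_le_pow_right₀ hX1 (by norm_num))
  have hBi : ∀ i, i ≤ j → Real.log X ^ (BK i) ≤ |t| := fun i hi =>
    (pow_le_pow_right₀ hl1 ((hB₁i i hi).trans (Nat.le_add_right _ _))).trans ht1
  have hB2 : Real.log X ^ B2 ≤ |t| :=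
    (pow_le_pow_right₀ hl1 (Nat.le_add_left _ _)).trans ht1
  -- the sieving limit
  set y := yX X with hy
  have hyexp : (7 : ℝ) ≤ Real.exp (Real.log X ^ (19 / 20 : ℝ)) := by
    have e1 : Real.exp 2 ≤ Real.exp (Real.log X ^ (19 / 20 : ℝ)) := Real.exp_le_exp.2 hlt
    have e2 : (7 : ℝ) ≤ Real.exp 2 := by
      have h := Real.exp_one_gt_d9
      have : Real.exp 2 = Real.exp 1 * Real.exp 1 := by
        rw [← Real.exp_add]; norm_num
      rw [this]
      nlinarith
    linarith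
  have hy7 : 7 ≤ y := by
    rw [hy, yX]
    exact Nat.le_floor (by exact_mod_cast hyexp)
  have hy7' : (7 : ℝ) ≤ y := by exact_mod_cast hy7
  have hyle : (y : ℝ) ≤ Real.exp (Real.log X ^ (19 / 20 : ℝ)) := by
    rw [hy, yX]
    exact Nat.floor_le (Real.exp_pos _).le
  set U := Real.log y with hU
  have hU1 : 1 ≤ U := by
    rw [hU, Real.le_log_iff_exp_le (by linarith)]
    have := Real.exp_one_lt_d9
    linarith
  have hUle : U ≤ Real.log X ^ (19 / 20 : ℝ) := by
    rw [hU]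
    calc Real.log y ≤ Real.log (Real.exp (Real.log X ^ (19 / 20 : ℝ))) :=
          Real.log_le_log (by linarith) hyle
      _ = _ := Real.log_exp _
  set s : ℂ := (σ : ℂ) + (t : ℂ) * Complex.I with hs
  have hsre : 1 < s.re := by
    have : s.re = σ := by simp [hs]
    rw [this]
    have : 0 < 1 / Real.log X ^ B' := by positivity
    linarith
  set g : ℕ → ℂ := fun n => k4_G y n * χ (n : ZMod q) with hg
  have hgn : ∀ n, ‖g n‖ ≤ 1 := norm_mul_chi χ (k4_norm_G y)
  have hrn : ∀ n, ‖rc χ y n‖ ≤ 1 := norm_mul_chi χ (k4_norm_rgh y)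
  have hsn : ∀ n, ‖sc χ y n‖ ≤ 1 := norm_mul_chi χ (k4_norm_smo y)
  have hG : ∀ m, m ≤ j → ‖LL g m s‖ ≤ C₂ * U ^ m := by
    apply hrec (fun i => LL (rc χ y) i s) (fun i => LL g i s)
      (fun i => LL LSeries.delta i s) U hU1
    · intro i hi
      have e1 := hK i X q χ t σ (((hX₁i i hi).trans (by omega)).trans hX) hq hqD (hBi i hi) ht3
        hσ1 hσ2
      refine e1.trans ?_
      exact mul_le_mul_of_nonneg_right (hC₁i i hi) (by positivity)
    · exact hK2 X q χ t σ (by omega) hq hqD hB2 ht2 hσ1 hσ2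
    · intro i _
      exact Pool.Agent.Helper25.MD.LL_delta i s
    · intro m _
      rw [← conv_RG χ y]
      exact (Pool.Agent.Helper25.MD.LL_conv hrn hgn hsre m).symm
  have hmob : LL (gch χ) j s = ∑ i ∈ range (j + 1), (j.choose i : ℂ) * LL (sc χ y) i s *
      LL g (j - i) s := by
    conv_lhs => rw [← conv_SG χ y]
    exact Pool.Agent.Helper25.MD.LL_conv hsn hgn hsre j
  have hbound : ‖LL (gch χ) j s‖ ≤ 2 ^ j * (C₃ * C₂) * U ^ (j + 3) := by
    rw [hmob]
    calc _ ≤ ∑ i ∈ range (j + 1), ‖(j.choose i : ℂ) * LL (sc χ y) i s *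
          LL g (j - i) s‖ := norm_sum_le _ _
      _ ≤ ∑ i ∈ range (j + 1), (j.choose i : ℝ) * (C₃ * C₂ * U ^ (j + 3)) := by
        refine Finset.sum_le_sum fun i hi => ?_
        rw [Finset.mem_range] at hi
        rw [norm_mul, norm_mul, Complex.norm_natCast, mul_assoc]
        apply mul_le_mul_of_nonneg_left _ (by positivity)
        have e1 : ‖LL (sc χ y) i s‖ ≤ C₃ * U ^ (i + 3) :=
          (hS i y q χ s (by omega) hsre).trans
            (mul_le_mul_of_nonneg_right (hC₃i i (by omega)) (by positivity))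
        have e2 := hG (j - i) (by omega)
        calc _ ≤ (C₃ * U ^ (i + 3)) * (C₂ * U ^ (j - i)) :=
              mul_le_mul e1 e2 (norm_nonneg _) (by positivity)
          _ = C₃ * C₂ * (U ^ (i + 3) * U ^ (j - i)) := by ring
          _ = C₃ * C₂ * U ^ (j + 3) := by
              rw [← pow_add]
              congr 2
              omega
      _ = 2 ^ j * (C₃ * C₂) * U ^ (j + 3) := by
        rw [← Finset.sum_mul]
        have : ∑ i ∈ range (j + 1), (j.choose i : ℝ) = 2 ^ j := by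
          exact_mod_cast Nat.sum_range_choose j
        rw [this]
        ring
  refine hbound.trans ?_
  apply mul_le_mul_of_nonneg_left _ (by positivity)
  calc U ^ (j + 3) ≤ (Real.log X ^ (19 / 20 : ℝ)) ^ (j + 3) :=
        pow_le_pow_left₀ (by linarith) hUle _
    _ = Real.log X ^ ((19 / 20 : ℝ) * (j + 3 : ℕ)) := by
        rw [← Real.rpow_natCast, ← Real.rpow_mul hl0.le]
    _ ≤ Real.log X ^ ((19 / 20 : ℝ) * j + 3) := by
        apply Real.rpow_le_rpow_of_exponent_le hl1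
        push_cast
        linarith

end Pool.Agent.NRV
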