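import Pool.Agent.NRV.St
import Pool.Agent.SI.MuS
import Pool.Agent.SI.RiL
import Pool.Agent.Helper52.MDLower

set_option autoImplicit false

/-!
# NRV / MuC: the function of Möbius with a character and `n^{-it}`
-/

namespace Pool.Agent.NRV

open Finset Filter
open Pool.Agent.SI (nit mus_norm_nit mus_norm_mob mus_mob_zero mus_one_le_log mus_diff mus_final
  mus_large)
open Pool.Agent.Helper25.MD (LL mob gch)

namespace MuCX

/-- the coefficient function -/
noncomputable def muc {q : ℕ} (χ : DirichletCharacter ℂ q) (t : ℝ) (n : ℕ) : ℂ :=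
  mob n * χ (n : ZMod q) * nit t n

lemma muc_zero {q : ℕ} (χ : DirichletCharacter ℂ q) (t : ℝ) : muc χ t 0 = 0 := by
  unfold muc
  rw [mus_mob_zero, zero_mul, zero_mul]

lemma muc_norm {q : ℕ} (χ : DirichletCharacter ℂ q) (t : ℝ) (n : ℕ) : ‖muc χ t n‖ ≤ 1 := by
  unfold muc
  rw [norm_mul, norm_mul, mus_norm_nit, mul_one]
  exact mul_le_one₀ (mus_norm_mob n) (norm_nonneg _) (χ.norm_le_one _)

lemma gch_norm {q : ℕ} (χ : DirichletCharacter ℂ q) (n : ℕ) : ‖gch χ n‖ ≤ 1 := by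
  unfold Pool.Agent.Helper25.MD.gch
  rw [norm_mul]
  exact mul_le_one₀ (mus_norm_mob n) (norm_nonneg _) (χ.norm_le_one _)

lemma shift {q : ℕ} (χ : DirichletCharacter ℂ q) (t τ σ : ℝ) (j : ℕ) :
    LL (muc χ t) j ((σ : ℂ) + (τ : ℂ) * Complex.I) =
      LL (gch χ) j ((σ : ℂ) + ((t + τ : ℝ) : ℂ) * Complex.I) := by
  unfold Pool.Agent.Helper25.MD.LL LSeries
  apply tsum_congr
  intro n
  rcases Nat.eq_zero_or_pos n with hn | hn
  · subst hn
    simp
  · have hn0 : n ≠ 0 := by omega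
    have hnc : (n : ℂ) ≠ 0 := by exact_mod_cast hn0
    rw [LSeries.term_of_ne_zero hn0, LSeries.term_of_ne_zero hn0]
    have h1 : ((n : ℂ)) ^ ((σ : ℂ) + ((t + τ : ℝ) : ℂ) * Complex.I) =
        (n : ℂ) ^ ((σ : ℂ) + (τ : ℂ) * Complex.I) * (n : ℂ) ^ ((t : ℂ) * Complex.I) := by
      rw [← Complex.cpow_add _ _ hnc]
      congr 1
      push_cast
      ring
    have h2 : nit t n * (n : ℂ) ^ ((t : ℂ) * Complex.I) = 1 := by
      unfold Pool.Agent.SI.nit
      rw [Complex.cpow_def_of_ne_zero hnc, ← Complex.exp_add, ← Complex.natCast_log]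
      have : ((-(t * Real.log n) : ℝ) : ℂ) * Complex.I +
          ((Real.log n : ℝ) : ℂ) * ((t : ℂ) * Complex.I) = 0 := by
        push_cast
        ring
      rw [this, Complex.exp_zero]
    have h3 : (n : ℂ) ^ ((t : ℂ) * Complex.I) ≠ 0 := by
      intro h
      rw [h, mul_zero] at h2
      exact zero_ne_one h2
    have h4 : (n : ℂ) ^ ((σ : ℂ) + (τ : ℂ) * Complex.I) ≠ 0 := by
      rw [Complex.cpow_def_of_ne_zero hnc]
      exact Complex.exp_ne_zero _
    rw [h1, div_eq_div_iff h4 (mul_ne_zero h4 h3)]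
    unfold muc Pool.Agent.Helper25.MD.gch
    linear_combination (mob n * χ (n : ZMod q) * (Real.log n : ℂ) ^ j *
      (n : ℂ) ^ ((σ : ℂ) + (τ : ℂ) * Complex.I)) * h2

/-- the trivial bound -/
lemma triv (f : ℕ → ℂ) (hf : ∀ n, ‖f n‖ ≤ 1) (j : ℕ) {s : ℂ} (h1 : 1 < s.re) (h2 : s.re ≤ 2) :
    ‖LL f j s‖ ≤ (4 * ((j : ℝ) + 1)) ^ (j + 1) / (s.re - 1) ^ (j + 1) := by
  set ε : ℝ := (s.re - 1) / 2 with hε
  have hε0 : 0 < ε := by rw [hε]; linarith
  set δ : ℝ := ε / (j + 1) with hδ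
  have hδ0 : 0 < δ := by positivity
  have hterm : ∀ n, ‖LSeries.term (fun n => f n * (Real.log n : ℂ) ^ j) s n‖ ≤
      (1 / δ) ^ j * (1 / (n : ℝ) ^ (1 + ε)) := by
    intro n
    rcases Nat.eq_zero_or_pos n with rfl | hn
    · rw [LSeries.term_zero, norm_zero]
      positivity
    have hn1 : (1 : ℝ) ≤ n := by exact_mod_cast hn
    have hn0 : (0 : ℝ) < n := by linarith
    rw [LSeries.term_of_ne_zero hn.ne', norm_div, Complex.norm_natCast_cpow_of_pos hn]
    have h3 := Real.log_le_rpow_div (x := (n : ℝ)) (by linarith) hδ0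
    have h0 : 0 ≤ Real.log n := Real.log_natCast_nonneg n
    have h4 : ‖f n * (Real.log n : ℂ) ^ j‖ ≤ (1 / δ) ^ j * (n : ℝ) ^ ε := by
      rw [norm_mul, norm_pow, Complex.norm_real, Real.norm_of_nonneg h0]
      calc ‖f n‖ * Real.log n ^ j ≤ 1 * ((n : ℝ) ^ δ / δ) ^ j := by
            apply mul_le_mul (hf n) (pow_le_pow_left₀ h0 h3 j) (by positivity) zero_le_one
        _ = (1 / δ) ^ j * (n : ℝ) ^ (δ * j) := by
            rw [Real.rpow_mul (by linarith), Real.rpow_natCast, one_mul, div_pow, one_div, inv_pow]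
            ring
        _ ≤ (1 / δ) ^ j * (n : ℝ) ^ ε := by
            apply mul_le_mul_of_nonneg_left _ (by positivity)
            apply Real.rpow_le_rpow_of_exponent_le hn1
            rw [hδ, div_mul_eq_mul_div, div_le_iff₀ (by positivity)]
            nlinarith
    have h5 : (n : ℝ) ^ s.re = (n : ℝ) ^ ε * (n : ℝ) ^ (1 + ε) := by
      rw [← Real.rpow_add hn0]
      congr 1
      rw [hε]
      ring
    rw [h5]
    have h6 : 0 < (n : ℝ) ^ ε := Real.rpow_pos_of_pos hn0 _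
    have h7 : 0 < (n : ℝ) ^ (1 + ε) := Real.rpow_pos_of_pos hn0 _
    calc ‖f n * (Real.log n : ℂ) ^ j‖ / ((n : ℝ) ^ ε * (n : ℝ) ^ (1 + ε))
        ≤ (1 / δ) ^ j * (n : ℝ) ^ ε / ((n : ℝ) ^ ε * (n : ℝ) ^ (1 + ε)) :=
          div_le_div_of_nonneg_right h4 (by positivity)
      _ = (1 / δ) ^ j * (1 / (n : ℝ) ^ (1 + ε)) := by
          field_simp
  have hs0 : Summable fun n : ℕ => 1 / (n : ℝ) ^ (1 + ε) :=
    Real.summable_one_div_nat_rpow.2 (by linarith)
  have hs1 : Summable fun n : ℕ => (1 / δ) ^ j * (1 / (n : ℝ) ^ (1 + ε)) := hs0.mul_left _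
  have hs2 : Summable fun n => ‖LSeries.term (fun n => f n * (Real.log n : ℂ) ^ j) s n‖ :=
    Summable.of_nonneg_of_le (fun _ => norm_nonneg _) hterm hs1
  have hsum : ∑' n : ℕ, 1 / (n : ℝ) ^ (1 + ε) ≤ 2 / ε := by
    rw [hs0.tsum_eq_zero_add]
    have h3 := Pool.Agent.Helper52.MD.sum_rpow_le (σ := 1 + ε) (by linarith)
      (by rw [hε]; linarith)
    have h4 : 1 / (((0 : ℕ) : ℝ)) ^ (1 + ε) = 0 := by
      rw [Nat.cast_zero, Real.zero_rpow (by linarith), div_zero]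
    rw [h4, zero_add]
    have h5 : (1 + ε - 1) = ε := by ring
    rw [h5] at h3
    refine le_trans (le_of_eq ?_) h3
    refine tsum_congr fun n => ?_
    push_cast
    rfl
  unfold Pool.Agent.Helper25.MD.LL LSeries
  calc ‖∑' n, LSeries.term (fun n => f n * (Real.log n : ℂ) ^ j) s n‖
      ≤ ∑' n, ‖LSeries.term (fun n => f n * (Real.log n : ℂ) ^ j) s n‖ :=
        norm_tsum_le_tsum_norm hs2
    _ ≤ ∑' n : ℕ, (1 / δ) ^ j * (1 / (n : ℝ) ^ (1 + ε)) := hs2.tsum_le_tsum hterm hs1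
    _ = (1 / δ) ^ j * ∑' n : ℕ, 1 / (n : ℝ) ^ (1 + ε) := tsum_mul_left
    _ ≤ (1 / δ) ^ j * (2 / ε) := mul_le_mul_of_nonneg_left hsum (by positivity)
    _ ≤ (4 * ((j : ℝ) + 1)) ^ (j + 1) / (s.re - 1) ^ (j + 1) := by
        have h3 : s.re - 1 = 2 * ε := by rw [hε]; ring
        rw [h3, ← div_pow]
        have h4 : 1 / δ = (4 * ((j : ℝ) + 1)) / (2 * ε) / 2 := by
          rw [hδ]
          field_simp
          norm_num
        have h5 : 2 / ε ≤ (4 * ((j : ℝ) + 1)) / (2 * ε) := by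
          rw [div_le_div_iff₀ hε0 (by positivity)]
          have : (0 : ℝ) ≤ j := Nat.cast_nonneg j
          nlinarith
        have h6 : 0 ≤ (4 * ((j : ℝ) + 1)) / (2 * ε) := by positivity
        have h7 : 1 / δ ≤ (4 * ((j : ℝ) + 1)) / (2 * ε) := by
          rw [h4]
          linarith
        rw [pow_succ]
        exact mul_le_mul (pow_le_pow_left₀ (by positivity) h7 j) h5 (by positivity)
          (by positivity)

/-- `St_K4C` for all `j ≤ k` with common constants -/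
lemma K4 (h1 : St_K4C) (k D : ℕ) : ∃ (C : ℝ) (B X₀ : ℕ), 0 < C ∧ ∀ j ≤ k,
    ∀ (X q : ℕ) (χ : DirichletCharacter ℂ q) (t σ : ℝ), X₀ ≤ X → 1 ≤ q →
    (q : ℝ) ≤ Real.log X ^ D → Real.log X ^ B ≤ |t| → |t| ≤ (X : ℝ) ^ 3 →
    1 + 1 / Real.log X ^ 2 ≤ σ → σ ≤ 2 →
    ‖LL (gch χ) j ((σ : ℂ) + (t : ℂ) * Complex.I)‖ ≤ C * Real.log X ^ ((19 / 20 : ℝ) * k + 3) := by
  choose C B X₀ hC h using fun j => h1 j 2 D
  refine ⟨∑ j ∈ range (k + 1), C j, ∑ j ∈ range (k + 1), B j, 3 + ∑ j ∈ range (k + 1), X₀ j, ?_, ?_⟩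
  · exact Finset.sum_pos (fun j _ => hC j) ⟨0, by simp⟩
  · intro j hj X q χ t σ hX hq hqD htB htX hσ hσ2
    have hjm : j ∈ range (k + 1) := by
      rw [mem_range]
      omega
    have h2 : X₀ j ≤ ∑ j ∈ range (k + 1), X₀ j :=
      Finset.single_le_sum (f := X₀) (fun j _ => Nat.zero_le _) hjm
    have h2' : B j ≤ ∑ j ∈ range (k + 1), B j :=
      Finset.single_le_sum (f := B) (fun j _ => Nat.zero_le _) hjm
    have h3 : C j ≤ ∑ j ∈ range (k + 1), C j :=
      Finset.single_le_sum (f := C) (fun j _ => (hC j).le) hjm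
    have hX3 : (3 : ℝ) ≤ X := by
      have : 3 ≤ X := by omega
      exact_mod_cast this
    have hlog : 1 ≤ Real.log X := mus_one_le_log hX3
    have h4 := h j X q χ t σ (by omega) hq hqD
      ((pow_le_pow_right₀ hlog h2').trans htB) htX hσ hσ2
    have h5 : Real.log X ^ ((19 / 20 : ℝ) * j + 3) ≤ Real.log X ^ ((19 / 20 : ℝ) * k + 3) := by
      apply Real.rpow_le_rpow_of_exponent_le hlog
      have : (j : ℝ) ≤ k := by exact_mod_cast hj
      linarith
    calc _ ≤ C j * Real.log X ^ ((19 / 20 : ℝ) * j + 3) := h4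
      _ ≤ C j * Real.log X ^ ((19 / 20 : ℝ) * k + 3) :=
          mul_le_mul_of_nonneg_left h5 (hC j).le
      _ ≤ _ := mul_le_mul_of_nonneg_right h3 (Real.rpow_nonneg (by linarith) _)

/-- Step 1: the bound on the line -/
lemma line (h1 : St_K4C) (m D : ℕ) : ∃ (C : ℝ) (B X₁ : ℕ), 1 ≤ C ∧ 3 ≤ X₁ ∧
    ∀ (X q : ℕ) (χ : DirichletCharacter ℂ q) (t τ u' : ℝ), X₁ ≤ X → 1 ≤ q →
    (q : ℝ) ≤ Real.log X ^ D → Real.log X ^ B ≤ |t| → |t| ≤ (X : ℝ) ^ 2 → 3 ≤ u' → u' ≤ 3 * X →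
    ∀ j ≤ 20 * m,
    ‖LL (gch χ) j (((1 + 1 / Real.log u' : ℝ) : ℂ) + ((t + τ : ℝ) : ℂ) * Complex.I)‖ ≤
      C * Real.log X ^ (19 * m + 3) * (1 + |τ|) ^ ((1 : ℝ) / 2) := by
  obtain ⟨C₂, B₁, X₂, hC₂, hK4⟩ := K4 h1 (20 * m) D
  have hexp : ((19 / 20 : ℝ) * ((20 * m : ℕ) : ℝ) + 3) = ((19 * m + 3 : ℕ) : ℝ) := by
    push_cast
    ring
  rw [hexp] at hK4
  obtain ⟨k, hk⟩ : ∃ k : ℕ, k = 20 * m := ⟨_, rfl⟩
  rw [← hk] at hK4 ⊢
  obtain ⟨X₃, hX₃3, hX₃⟩ := mus_large (2 * k + 2) 1 2 one_pos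
  set E : ℝ := (4 * ((k : ℝ) + 1)) ^ (k + 1) * 2 ^ (k + 1) with hE
  have hE0 : 0 < E := by positivity
  refine ⟨1 + C₂ + E, B₁ + 2 * k + 4, max X₂ X₃, by linarith, hX₃3.trans (le_max_right _ _), ?_⟩
  intro X q χ t τ u' hX hq hqD htB htX hu hu' j hj
  obtain ⟨hL2, hpow⟩ := hX₃ X ((le_max_right _ _).trans hX)
  rw [Real.rpow_one] at hpow
  have hX3 : (3 : ℝ) ≤ X := by
    have : 3 ≤ X := hX₃3.trans ((le_max_right _ _).trans hX)
    exact_mod_cast this
  set L := Real.log (X : ℝ) with hL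
  have hL1 : 1 ≤ L := by linarith
  have hlogu := mus_one_le_log hu
  have hLM : 1 ≤ L ^ (19 * m + 3) := one_le_pow₀ hL1
  have hR0 : 0 ≤ (1 + |τ|) ^ ((1 : ℝ) / 2) := by positivity
  have hR1 : 1 ≤ (1 + |τ|) ^ ((1 : ℝ) / 2) := by
    apply Real.one_le_rpow
    · linarith [abs_nonneg τ]
    · norm_num
  have hlogu2 : Real.log u' ≤ 2 * L := by
    have h3 : u' ≤ (X : ℝ) ^ 2 := by nlinarith
    calc Real.log u' ≤ Real.log ((X : ℝ) ^ 2) := Real.log_le_log (by linarith) h3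
      _ = 2 * L := by
          rw [Real.log_pow, hL]
          norm_num
  have hσ1 : 0 < 1 / Real.log u' := by positivity
  have hσ2 : 1 / Real.log u' ≤ 1 := by
    rw [div_le_one (by linarith)]
    exact hlogu
  by_cases hcase : L ^ B₁ ≤ |t + τ| ∧ |t + τ| ≤ (X : ℝ) ^ 3
  · have h3 : 1 + 1 / L ^ 2 ≤ 1 + 1 / Real.log u' := by
      have : 1 / L ^ 2 ≤ 1 / Real.log u' := by
        refine one_div_le_one_div_of_le (by linarith) ?_
        nlinarith
      linarith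
    have h4 := hK4 j hj X q χ (t + τ) (1 + 1 / Real.log u') ((le_max_left _ _).trans hX) hq hqD
      hcase.1 hcase.2 h3 (by linarith)
    rw [Real.rpow_natCast] at h4
    calc _ ≤ C₂ * L ^ (19 * m + 3) := h4
      _ ≤ (1 + C₂ + E) * L ^ (19 * m + 3) := by
          refine mul_le_mul_of_nonneg_right ?_ (by positivity)
          linarith
      _ ≤ _ := le_mul_of_one_le_right (by positivity) hR1
  · -- `|τ|` is large
    have hτ : L ^ (2 * k + 2) ≤ |τ| := by
      have htri : |t| ≤ |t + τ| + |τ| := by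
        have := abs_sub (t + τ) τ
        rwa [add_sub_cancel_right] at this
      have htri2 : |t + τ| ≤ |t| + |τ| := abs_add_le _ _
      rcases not_and_or.1 hcase with h | h
      · rw [not_le] at h
        have h3 : L ^ (B₁ + 2 * k + 4) = L ^ B₁ * L ^ (2 * k + 2) * L ^ 2 := by
          rw [← pow_add, ← pow_add]
          congr 1
        have h4 : 1 ≤ L ^ B₁ := one_le_pow₀ hL1
        have h5 : 1 ≤ L ^ (2 * k + 2) := one_le_pow₀ hL1
        have h6 : (4 : ℝ) ≤ L ^ 2 := by nlinarith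
        have h7 : L ^ B₁ ≤ L ^ B₁ * L ^ (2 * k + 2) := le_mul_of_one_le_right (by linarith) h5
        have h8 : L ^ (2 * k + 2) ≤ L ^ B₁ * L ^ (2 * k + 2) :=
          le_mul_of_one_le_left (by linarith) h4
        have h9 : L ^ B₁ * L ^ (2 * k + 2) * 4 ≤ L ^ B₁ * L ^ (2 * k + 2) * L ^ 2 :=
          mul_le_mul_of_nonneg_left h6 (by positivity)
        rw [h3] at htB
        linarith
      · rw [not_le] at h
        have h3 : (X : ℝ) ^ 2 * 3 ≤ (X : ℝ) ^ 3 := by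
          have e : (X : ℝ) ^ 3 = X ^ 2 * X := by ring
          rw [e]
          exact mul_le_mul_of_nonneg_left hX3 (by positivity)
        have h4 : L ^ (2 * k + 2) ≤ L ^ (2 * k + 2 + 1) := pow_le_pow_right₀ hL1 (by omega)
        have h5 : (X : ℝ) ≤ (X : ℝ) ^ 2 := by nlinarith
        have h6 : 0 ≤ L ^ (2 * k + 2 + 1) := by positivity
        linarith
    have hRk : L ^ (k + 1) ≤ (1 + |τ|) ^ ((1 : ℝ) / 2) := by
      have h3 : L ^ (k + 1) = (L ^ (2 * k + 2)) ^ ((1 : ℝ) / 2) := by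
        rw [← Real.rpow_natCast L (2 * k + 2), ← Real.rpow_mul (by linarith),
          ← Real.rpow_natCast L (k + 1)]
        congr 1
        push_cast
        ring
      rw [h3]
      exact Real.rpow_le_rpow (by positivity) (by linarith [abs_nonneg τ]) (by norm_num)
    have hre : ((((1 + 1 / Real.log u' : ℝ) : ℂ) + ((t + τ : ℝ) : ℂ) * Complex.I)).re =
        1 + 1 / Real.log u' := by
      rw [Complex.add_re, Complex.ofReal_re, Complex.re_ofReal_mul]
      simp only [Complex.I_re, mul_zero, add_zero]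
    have h4 := triv (gch χ) (gch_norm χ) j
      (s := (((1 + 1 / Real.log u' : ℝ) : ℂ) + ((t + τ : ℝ) : ℂ) * Complex.I))
      (by rw [hre]; linarith) (by rw [hre]; linarith)
    rw [hre] at h4
    have h5 : (1 + 1 / Real.log u' - 1) ^ (j + 1) = (1 / Real.log u') ^ (j + 1) := by
      congr 1
      ring
    rw [h5, ← div_pow] at h4
    have h6 : 4 * ((j : ℝ) + 1) / (1 / Real.log u') = 4 * ((j : ℝ) + 1) * Real.log u' := by
      field_simp
    rw [h6] at h4
    have hjk : (j : ℝ) ≤ k := by exact_mod_cast hj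
    have hj0 : (0 : ℝ) ≤ j := Nat.cast_nonneg j
    have h7 : (4 * ((j : ℝ) + 1) * Real.log u') ^ (j + 1) ≤ E * L ^ (k + 1) := by
      calc (4 * ((j : ℝ) + 1) * Real.log u') ^ (j + 1)
          ≤ (4 * ((k : ℝ) + 1) * (2 * L)) ^ (j + 1) := by gcongr
        _ ≤ (4 * ((k : ℝ) + 1) * (2 * L)) ^ (k + 1) := by
            refine pow_le_pow_right₀ ?_ (by omega)
            have : (0 : ℝ) ≤ k := Nat.cast_nonneg k
            nlinarith
        _ = E * L ^ (k + 1) := by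
            rw [hE, mul_pow, mul_pow 2 L]
            ring
    calc _ ≤ E * L ^ (k + 1) := h4.trans h7
      _ ≤ E * (1 + |τ|) ^ ((1 : ℝ) / 2) := mul_le_mul_of_nonneg_left hRk hE0.le
      _ ≤ (1 + C₂ + E) * L ^ (19 * m + 3) * (1 + |τ|) ^ ((1 : ℝ) / 2) := by
          refine mul_le_mul_of_nonneg_right ?_ hR0
          calc E ≤ (1 + C₂ + E) * 1 := by linarith
            _ ≤ _ := mul_le_mul_of_nonneg_left hLM (by linarith)

end MuCX

open MuCX in
theorem thm_MuC (h1 : St_K4C) : St_MuC := by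
  intro A D₀ δ hδ
  set m := 2 * A + 10 with hm
  obtain ⟨C, B, X₁, hC, hX₁3, hline⟩ := line h1 m D₀
  obtain ⟨C₃, hC₃, hriesz⟩ := Pool.Agent.SI.thm_RiL (20 * m)
  set D : ℝ := C₃ * C / δ ^ (20 * m) with hD
  have hD0 : 0 ≤ D := by positivity
  obtain ⟨X₀, hX₀3, hX₀⟩ := mus_large A δ (36 * D + 1) hδ
  refine ⟨B, max X₀ X₁, ?_⟩
  intro X u q χ t hX hq hqD hu1 hu2 ht1 ht2
  obtain ⟨hL, hpow⟩ := hX₀ X ((le_max_left _ _).trans hX)
  have hXX1 : X₁ ≤ X := (le_max_right _ _).trans hX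
  set L := Real.log (X : ℝ) with hLdef
  have hXr3 : (3 : ℝ) ≤ X := by
    have : 3 ≤ X := hX₁3.trans hXX1
    exact_mod_cast this
  have hX0 : (0 : ℝ) < X := by linarith
  have hL1 : 1 ≤ L := mus_one_le_log hXr3
  have hLA : 1 ≤ L ^ (A + 1) := one_le_pow₀ hL1
  have hur : 2 * L ^ (A + 1) + 3 ≤ (u : ℝ) := hpow.trans hu1
  have hu0 : (0 : ℝ) < u := by linarith
  have hu3 : (3 : ℝ) ≤ u := by linarith
  have huX : (u : ℝ) ≤ X := by exact_mod_cast hu2
  -- the Riesz means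
  have key : ∀ v : ℕ, (u : ℝ) ≤ v → (v : ℝ) ≤ 3 * u →
      ‖∑ n ∈ range v, ((v : ℂ) - n) * muc χ t n‖ ≤ D * (3 * u) ^ 2 / L ^ (2 * A + 7) := by
    intro v hv1 hv2
    have hv3 : 3 ≤ v := by
      have : (3 : ℝ) ≤ v := by linarith
      exact_mod_cast this
    have hb := hriesz (muc χ t) (muc_zero χ t) (muc_norm χ t) (C * L ^ (19 * m + 3)) v hv3 (by
      intro τ j hj
      rw [shift]
      exact hline X q χ t τ v hXX1 hq hqD ht1 ht2 (by linarith) (by linarith) j hj)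
    have hlogv : δ * L ≤ Real.log v := by
      have h5 : (X : ℝ) ^ δ ≤ v := hu1.trans hv1
      have h6 : Real.log ((X : ℝ) ^ δ) ≤ Real.log v :=
        Real.log_le_log (Real.rpow_pos_of_pos hX0 δ) h5
      rwa [Real.log_rpow hX0] at h6
    have hδL : 0 < δ * L := by positivity
    have hv0 : (0 : ℝ) ≤ v := Nat.cast_nonneg v
    calc _ ≤ C₃ * (C * L ^ (19 * m + 3)) * (v : ℝ) ^ 2 / Real.log v ^ (20 * m) := hb
      _ ≤ C₃ * (C * L ^ (19 * m + 3)) * (v : ℝ) ^ 2 / (δ * L) ^ (20 * m) := by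
          apply div_le_div_of_nonneg_left (by positivity) (by positivity)
          exact pow_le_pow_left₀ hδL.le hlogv _
      _ ≤ C₃ * (C * L ^ (19 * m + 3)) * (3 * u) ^ 2 / (δ * L) ^ (20 * m) := by
          apply div_le_div_of_nonneg_right _ (by positivity)
          apply mul_le_mul_of_nonneg_left _ (by positivity)
          exact pow_le_pow_left₀ hv0 hv2 2
      _ = D * (3 * u) ^ 2 / L ^ (2 * A + 7) := by
          have e1 : L ^ (20 * m) = L ^ (19 * m + 3) * L ^ (2 * A + 7) := by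
            rw [← pow_add]
            congr 1
            omega
          rw [mul_pow δ L, e1, hD]
          field_simp
  -- the difference
  set h := ⌊(u : ℝ) / L ^ (A + 1)⌋₊ with hh
  have hh1 : (h : ℝ) ≤ u / L ^ (A + 1) := Nat.floor_le (by positivity)
  have hh2 : (u : ℝ) / L ^ (A + 1) < h + 1 := Nat.lt_floor_add_one _
  have hq2 : 2 ≤ (u : ℝ) / L ^ (A + 1) := by
    rw [le_div_iff₀ (by positivity)]
    linarith
  have hh3 : (u : ℝ) / (2 * L ^ (A + 1)) ≤ h := by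
    have : (u : ℝ) / (2 * L ^ (A + 1)) = (u : ℝ) / L ^ (A + 1) / 2 := by
      field_simp
    rw [this]
    linarith
  have hhu : (h : ℝ) ≤ u := hh1.trans (div_le_self hu0.le hLA)
  have hd := mus_diff (muc χ t) (muc_norm χ t) u h
  have k1 := key (u + 1 + h) (by push_cast; linarith [(Nat.cast_nonneg h : (0 : ℝ) ≤ h)])
    (by push_cast; linarith)
  have k2 := key (u + 1) (by push_cast; linarith) (by push_cast; linarith)
  have hsum : ∑ n ∈ Icc 1 u, mob n * χ (n : ZMod q) * nit t n =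
      ∑ n ∈ range (u + 1), muc χ t n := by
    rw [Finset.range_eq_Ico, Finset.sum_eq_sum_Ico_succ_bot (by omega), muc_zero, zero_add]
    rfl
  rw [hsum]
  exact mus_final A D L u h (D * (3 * u) ^ 2 / L ^ (2 * A + 7)) _ hD0 hL1 hL hu0 hh1 hh3 le_rfl
    (by linarith)

end Pool.Agent.NRV
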