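import Pool.Agent.NRV.St
import Pool.Agent.SI.RT
import Pool.Agent.SI.RU
import Pool.Agent.SI.Fq

/-!
# NRV / RC: rough numbers with a character

Adaptation of `Pool/Agent/SI/RT.lean`: `nit t` is replaced by a completely multiplicative function
`f` with `‖f n‖ ≤ 1`.
-/

set_option autoImplicit false

namespace Pool.Agent.NRV

open Finset
open Pool.Agent.GBQ (ee nd gm)
open Pool.Agent.SI
open Pool.Agent.LIN (pz)

namespace RCX

/-- the main part -/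
theorem mainpart (y u D M0 : ℕ) (δ : ℝ) (f : ℕ → ℂ) (hf1 : ∀ n, ‖f n‖ ≤ 1)
    (hfm : ∀ d m : ℕ, 1 ≤ d → 1 ≤ m → f (d * m) = f d * f m) (φ : Finset ℕ → ℝ)
    (hb : ∀ T, |φ T| ≤ 1)
    (h : ∀ T, φ T ≠ 0 → T ⊆ pz y ∧ rtd T ≤ D) (hM : M0 * D ≤ u) (hδ : 0 ≤ δ)
    (hnit : ∀ M : ℕ, M0 ≤ M → ‖∑ n ∈ Icc 1 M, f n‖ ≤ M * δ) :
    ‖∑ n ∈ Icc 1 u, ((∑ T ∈ (rtS y n).powerset, φ T : ℝ) : ℂ) * f n‖ ≤
      u * δ * ∏ p ∈ pz y, (1 + 1 / (p : ℝ)) := by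
  rw [rt_swap]
  refine (norm_sum_le _ _).trans ?_
  have h2 : ∀ T ∈ (pz y).powerset,
      ‖((φ T : ℝ) : ℂ) * ∑ m ∈ Icc 1 (u / rtd T), f (rtd T * m)‖ ≤
      u * δ * ∏ p ∈ T, (1 / (p : ℝ)) := by
    intro T hT
    rw [mem_powerset] at hT
    have hd := rt_pos hT
    have hdR : (0 : ℝ) < rtd T := by exact_mod_cast hd
    rw [rt_inv]
    by_cases hc : φ T = 0
    · rw [hc]
      simp only [Complex.ofReal_zero, zero_mul, norm_zero]
      positivity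
    · obtain ⟨-, hD⟩ := h T hc
      have h3 : ∑ m ∈ Icc 1 (u / rtd T), f (rtd T * m) =
          f (rtd T) * ∑ m ∈ Icc 1 (u / rtd T), f m := by
        rw [mul_sum]
        apply sum_congr rfl
        intro m hm
        exact hfm _ _ hd (mem_Icc.1 hm).1
      rw [h3, norm_mul, norm_mul, Complex.norm_real, Real.norm_eq_abs]
      have h4 : M0 ≤ u / rtd T := by
        rw [Nat.le_div_iff_mul_le hd]
        exact (Nat.mul_le_mul_left M0 hD).trans hM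
      have h5 := hnit _ h4
      have h6 := @Nat.cast_div_le ℝ _ _ _ u (rtd T)
      have h7 : ‖f (rtd T)‖ * ‖∑ m ∈ Icc 1 (u / rtd T), f m‖ ≤ 1 * (((u / rtd T : ℕ) : ℝ) * δ) :=
        mul_le_mul (hf1 _) h5 (norm_nonneg _) (by norm_num)
      calc |φ T| * (‖f (rtd T)‖ * ‖∑ m ∈ Icc 1 (u / rtd T), f m‖) ≤
            1 * (1 * (((u / rtd T : ℕ) : ℝ) * δ)) :=
            mul_le_mul (hb T) h7 (by positivity) (by norm_num)
        _ ≤ 1 * (1 * ((u : ℝ) / rtd T * δ)) := by gcongr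
        _ = _ := by ring
  refine (sum_le_sum h2).trans ?_
  rw [← mul_sum, ← prod_one_add]

/-- the sieve -/
theorem sieve {C1 : ℝ} (h1 : ∀ k y : ℕ, 2 ≤ y → ∃ φ ψ : Finset ℕ → ℝ,
      (∀ T, |φ T| ≤ 1 ∧ |ψ T| ≤ 1) ∧
      (∀ T, φ T ≠ 0 ∨ ψ T ≠ 0 → T ⊆ pz y ∧ ((∏ p ∈ T, p : ℕ) : ℝ) ≤ ((y : ℝ) + 1) ^ (4 * k + 5)) ∧
      (∀ S ⊆ pz y, (if S = ∅ then (1 : ℝ) else 0) ≤ ∑ T ∈ S.powerset, φ T ∧
        ∑ T ∈ S.powerset, ψ T ≤ if S = ∅ then (1 : ℝ) else 0) ∧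
      ∑ T ∈ (pz y).powerset, (φ T - ψ T) * ∏ p ∈ T, (1 / (p : ℝ)) ≤ C1 / (2 ^ k * Real.log y) ∧
      ∑ T ∈ (pz y).powerset, φ T * ∏ p ∈ T, (1 / (p : ℝ)) ≤ C1 / Real.log y)
    (k y u D : ℕ) (hD : D = (y + 1) ^ (4 * k + 5)) (hDu : D * D ≤ u) (hy : 3 ≤ y) (δ : ℝ)
    (f : ℕ → ℂ) (hf1 : ∀ n, ‖f n‖ ≤ 1)
    (hfm : ∀ d m : ℕ, 1 ≤ d → 1 ≤ m → f (d * m) = f d * f m)
    (hδ : 0 ≤ δ) (hnit : ∀ M : ℕ, D ≤ M → ‖∑ n ∈ Icc 1 M, f n‖ ≤ M * δ) :
    ‖∑ n ∈ Icc 1 u, rgh y n * f n‖ ≤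
      u * (C1 / (2 ^ k * Real.log y)) + 2 * D + u * δ * (Real.exp 8 * Real.log y) := by
  obtain ⟨φ, ψ, hb, hs, hf, he, -⟩ := h1 k y (by omega)
  have hs' : ∀ T, φ T ≠ 0 ∨ ψ T ≠ 0 → T ⊆ pz y ∧ rtd T ≤ D := by
    intro T hT
    obtain ⟨h2, h3⟩ := hs T hT
    refine ⟨h2, ?_⟩
    have h4 : ((rtd T : ℕ) : ℝ) ≤ ((D : ℕ) : ℝ) := by
      rw [hD]
      push_cast
      exact_mod_cast h3
    exact_mod_cast h4
  have hmain := mainpart y u D D δ f hf1 hfm φ (fun T => (hb T).1) (fun T hT => hs' T (Or.inl hT))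
    hDu hδ hnit
  have herr := rt_err y u D φ ψ hb hs'
  set r : ℕ → ℝ := fun n => if rtS y n = ∅ then 1 else 0 with hr
  have hrgh : ∀ n ∈ Icc 1 u, rgh y n = ((r n : ℝ) : ℂ) := by
    intro n hn
    have hn0 : n ≠ 0 := by
      have := (mem_Icc.1 hn).1
      omega
    unfold rgh
    rw [hr]
    by_cases hc : ∀ p ∈ pz y, ¬ p ∣ n
    · have h2 : rtS y n = ∅ := filter_eq_empty_iff.2 fun p hp => hc p hp
      simp only
      rw [if_pos ⟨hn0, hc⟩, if_pos h2, Complex.ofReal_one]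
    · have h2 : rtS y n ≠ ∅ := fun h => hc (fun p hp => filter_eq_empty_iff.1 h hp)
      simp only
      rw [if_neg (fun h => hc h.2), if_neg h2, Complex.ofReal_zero]
  have hsplit : ∑ n ∈ Icc 1 u, rgh y n * f n =
      ∑ n ∈ Icc 1 u, ((∑ T ∈ (rtS y n).powerset, φ T : ℝ) : ℂ) * f n -
      ∑ n ∈ Icc 1 u, (((∑ T ∈ (rtS y n).powerset, φ T) - r n : ℝ) : ℂ) * f n := by
    rw [← sum_sub_distrib]
    apply sum_congr rfl
    intro n hn
    rw [hrgh n hn, Complex.ofReal_sub]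
    ring
  have hdiff : ‖∑ n ∈ Icc 1 u, (((∑ T ∈ (rtS y n).powerset, φ T) - r n : ℝ) : ℂ) * f n‖ ≤
      ∑ T ∈ (pz y).powerset, (φ T - ψ T) * ((u / rtd T : ℕ) : ℝ) := by
    rw [← rt_swapR y u (fun T => φ T - ψ T)]
    refine (norm_sum_le _ _).trans (sum_le_sum fun n _ => ?_)
    rw [norm_mul, Complex.norm_real, Real.norm_eq_abs]
    obtain ⟨h2, h3⟩ := hf (rtS y n) (filter_subset _ _)
    rw [sum_sub_distrib]
    have h4 : r n = if rtS y n = ∅ then (1 : ℝ) else 0 := rfl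
    rw [← h4] at h2 h3
    have h5 : 0 ≤ (∑ T ∈ (rtS y n).powerset, φ T) - r n := by linarith
    rw [abs_of_nonneg h5]
    have h6 : ((∑ T ∈ (rtS y n).powerset, φ T) - r n) * ‖f n‖ ≤
        ((∑ T ∈ (rtS y n).powerset, φ T) - r n) * 1 := mul_le_mul_of_nonneg_left (hf1 n) h5
    linarith
  rw [hsplit]
  refine (norm_sub_le _ _).trans ?_
  have h5 : u * δ * ∏ p ∈ pz y, (1 + 1 / (p : ℝ)) ≤ u * δ * (Real.exp 8 * Real.log y) :=
    mul_le_mul_of_nonneg_left (rt_euler y hy) (by positivity)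
  have h6 : (u : ℝ) * ∑ T ∈ (pz y).powerset, (φ T - ψ T) * ∏ p ∈ T, (1 / (p : ℝ)) ≤
      u * (C1 / (2 ^ k * Real.log y)) := mul_le_mul_of_nonneg_left he (Nat.cast_nonneg _)
  linarith

theorem card_le (y u : ℕ) (f : ℕ → ℂ) (hf1 : ∀ n, ‖f n‖ ≤ 1) :
    ‖∑ n ∈ Icc 1 u, rgh y n * f n‖ ≤
      (((Icc 1 u).filter (fun n => ∀ p ∈ pz y, ¬ p ∣ n)).card : ℝ) := by
  refine (norm_sum_le _ _).trans ?_
  rw [card_filter]
  push_cast
  apply sum_le_sum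
  intro n _
  rw [norm_mul]
  unfold rgh
  by_cases hc : ∀ p ∈ pz y, ¬ p ∣ n
  · rw [if_pos hc]
    split_ifs
    · rw [norm_one, one_mul]
      exact hf1 n
    · rw [norm_zero, zero_mul]
      exact zero_le_one
  · rw [if_neg hc, if_neg (fun h => hc h.2), norm_zero, zero_mul]

/-- small `u` -/
theorem smallu {C2 : ℝ} (hC2 : 0 < C2)
    (h2 : ∀ y u : ℕ, 2 ≤ y → y ≤ u →
      (((Icc 1 u).filter (fun n => ∀ p ∈ pz y, ¬ p ∣ n)).card : ℝ) ≤ C2 * u / Real.log y)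
    (K y u : ℕ) (f : ℕ → ℂ) (hf1 : ∀ n, ‖f n‖ ≤ 1) (hy : 3 ≤ y) (hu : y ≤ u)
    (hlog : Real.log u ≤ 40 * Real.log ((y : ℝ) + 1)) :
    ‖∑ n ∈ Icc 1 u, rgh y n * f n‖ ≤
      C2 * 80 ^ K * ((u / Real.log y) * (Real.log y / Real.log u) ^ K) := by
  have hyR : (3 : ℝ) ≤ y := by exact_mod_cast hy
  have huR : (3 : ℝ) ≤ u := by exact_mod_cast hy.trans hu
  have hly : 0 < Real.log y := Real.log_pos (by linarith)
  have hlu : 0 < Real.log u := Real.log_pos (by linarith)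
  have b2 := (card_le y u f hf1).trans (h2 y u (by omega) hu)
  have h6 := rt_logy hy
  exact rt_smallnum K hC2 hly (by linarith) hlu (by linarith) b2

end RCX

open RCX in
theorem thm_RC (h3 : St_ESC) : St_RC := by
  obtain ⟨C1, hC1, h1⟩ := thm_Fq
  obtain ⟨C2, hC2, h2⟩ := thm_RU thm_Fq
  intro K A D
  obtain ⟨B, X₁, h3⟩ := h3 (A + 2) D
  set C4 : ℝ := 36 ^ K * (2 * (K.factorial : ℝ) / Real.log 2 ^ K) with hC4
  have hl2 : 0 < Real.log 2 := Real.log_pos (by norm_num)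
  have hC4' : 0 ≤ C4 := by positivity
  refine ⟨C1 * C4 + (2 + Real.exp 8) + C2 * 80 ^ K, B,
    max X₁ ⌈Real.exp ((2 ^ 18 + ((2 * A + 3).factorial : ℝ)) ^ 2)⌉₊, by positivity, ?_⟩
  intro X u q χ t hX hq hqD htB htX hu
  have hX1 : X₁ ≤ X := (le_max_left _ _).trans hX
  have hX2 : Real.exp ((2 ^ 18 + ((2 * A + 3).factorial : ℝ)) ^ 2) ≤ (X : ℝ) :=
    (Nat.le_ceil _).trans (by exact_mod_cast (le_max_right _ _).trans hX)
  have hX0 : (0 : ℝ) < X := lt_of_lt_of_le (Real.exp_pos _) hX2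
  obtain ⟨hy3, hL1, hyL, hLy, -, hτy⟩ := rt_large A hX2 le_rfl (by linarith)
  have hyX : yX X = yy (X : ℝ) := rfl
  rw [hyX] at hu ⊢
  have hrew : ∑ n ∈ Icc 1 u, rc χ (yy (X : ℝ)) n * nit t n =
      ∑ n ∈ Icc 1 u, rgh (yy (X : ℝ)) n * (χ (n : ZMod q) * nit t n) := by
    apply sum_congr rfl
    intro n _
    unfold rc
    ring
  rw [hrew]
  obtain ⟨f, hf⟩ : ∃ f : ℕ → ℂ, f = fun n : ℕ => χ (n : ZMod q) * nit t n := ⟨_, rfl⟩
  have hf1 : ∀ n, ‖f n‖ ≤ 1 := by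
    intro n
    rw [hf]
    show ‖χ (n : ZMod q) * nit t n‖ ≤ 1
    rw [norm_mul, rt_nit_norm, mul_one]
    exact DirichletCharacter.norm_le_one χ _
  have hfm : ∀ d m : ℕ, 1 ≤ d → 1 ≤ m → f (d * m) = f d * f m := by
    intro d m hd hm
    rw [hf]
    show χ ((d * m : ℕ) : ZMod q) * nit t (d * m) = χ (d : ZMod q) * nit t d * (χ (m : ZMod q) * nit t m)
    rw [rt_nit_mul t hd hm, Nat.cast_mul, map_mul]
    ring
  have hrew2 : ∑ n ∈ Icc 1 u, rgh (yy (X : ℝ)) n * (χ (n : ZMod q) * nit t n) =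
      ∑ n ∈ Icc 1 u, rgh (yy (X : ℝ)) n * f n := by
    rw [hf]
  rw [hrew2]
  set y := yy (X : ℝ) with hy
  set L := Real.log X with hL
  have hyR : (3 : ℝ) ≤ y := by exact_mod_cast hy3
  have huR : (3 : ℝ) ≤ u := by exact_mod_cast hy3.trans hu
  have hly : 0 < Real.log y := Real.log_pos (by linarith)
  have hlu : 0 < Real.log u := Real.log_pos (by linarith)
  have hL0 : 0 < L := by linarith
  have hp : 0 ≤ (u / Real.log y) * (Real.log y / Real.log u) ^ K := by positivity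
  have hqq : 0 ≤ (u / Real.log y) * (1 / L ^ A) := by positivity
  obtain ⟨g1, g2⟩ := rt_comb (a := C1 * C4) (b := 2 + Real.exp 8) (c := C2 * 80 ^ K)
    (by positivity) (by positivity) (by positivity) hp hqq
  have e9 : (C1 * C4 + (2 + Real.exp 8) + C2 * 80 ^ K) * (u / Real.log y) *
      ((Real.log y / Real.log u) ^ K + 1 / L ^ A) =
      (C1 * C4 + (2 + Real.exp 8) + C2 * 80 ^ K) *
        ((u / Real.log y) * (Real.log y / Real.log u) ^ K + (u / Real.log y) * (1 / L ^ A)) := by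
    ring
  rw [e9]
  rcases Nat.lt_or_ge u ((y + 1) ^ 40) with hlt | hge
  · exact (smallu hC2 h2 K y u f hf1 hy3 hu (rt_logu hy3 hu hlt)).trans g2
  · obtain ⟨k, hk1, hk2⟩ := rt_level y u K hy3 hge
    refine le_trans ?_ g1
    have hDy : y + 1 ≤ (y + 1) ^ (4 * k + 5) := by
      calc y + 1 = (y + 1) ^ 1 := (pow_one _).symm
        _ ≤ (y + 1) ^ (4 * k + 5) := Nat.pow_le_pow_right (by omega) (by omega)
    generalize hDD : (y + 1) ^ (4 * k + 5) = DD at hk1 hDy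
    have hDyR : (y : ℝ) + 1 ≤ DD := by exact_mod_cast hDy
    have key := sieve h1 k y u DD hDD.symm hk1 hy3 (1 / L ^ (A + 2)) f hf1 hfm (by positivity)
      (fun M hM => by
        have hMR : (DD : ℝ) ≤ M := by exact_mod_cast hM
        have h5 := h3 X M q χ t hX1 hq hqD htB htX ((hτy.trans hDyR).trans hMR)
        rw [mul_one_div, hf]
        exact h5)
    exact key.trans (rt_terms hC1 hL1 hly hyL (by linarith) hk2 (Nat.cast_nonneg DD)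
      (hLy.trans hDyR) (by exact_mod_cast hk1) le_rfl)

end Pool.Agent.NRV
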