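import Pool.Agent.NRV.St
import Pool.Agent.SI.KL
import Pool.Agent.SI.VD2
import Pool.Agent.SI.VD3
import Pool.Agent.SI.VC

/-!
# NRV, module VCC (helper26): characters, the tests of van der Corput
-/

set_option autoImplicit false

namespace Pool.Agent.NRV

open Finset
open Pool.Agent.GBQ (ee nd gm)
open Pool.Agent.SI (nit rgh smo TT alp fac)

/-- exchange of the sums -/
private theorem VCCX_sum {q : ℕ} (χ : DirichletCharacter ℂ q) (c : ℕ → ℂ) (hc : ∀ a, ‖c a‖ ≤ 1)
    (h : ∀ n : ℕ, χ (n : ZMod q) = ∑ a ∈ range q, c a * ee ((a / q : ℝ) * n)) (s : Finset ℕ)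
    (t : ℝ) : ‖∑ n ∈ s, χ (n : ZMod q) * nit t n‖ ≤
      ∑ a ∈ range q, ‖∑ n ∈ s, nit t n * ee ((a / q : ℝ) * n)‖ := by
  have e : ∑ n ∈ s, χ (n : ZMod q) * nit t n =
      ∑ a ∈ range q, c a * ∑ n ∈ s, nit t n * ee ((a / q : ℝ) * n) := by
    have e1 : ∀ n ∈ s, χ (n : ZMod q) * nit t n =
        ∑ a ∈ range q, c a * (nit t n * ee ((a / q : ℝ) * n)) := by
      intro n _
      rw [h n, sum_mul]
      refine sum_congr rfl fun a _ => ?_
      ring
    rw [sum_congr rfl e1, sum_comm]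
    refine sum_congr rfl fun a _ => ?_
    rw [mul_sum]
  rw [e]
  refine (norm_sum_le _ _).trans (sum_le_sum fun a _ => ?_)
  rw [norm_mul]
  exact mul_le_of_le_one_left (norm_nonneg _) (hc a)

private theorem VCCX_d1 (x : ℝ) (hx : 0 < x) :
    0 ≤ Real.log (x + 1) - Real.log x ∧ Real.log (x + 1) - Real.log x ≤ 1 / x := by
  have e : Real.log (x + 1) - Real.log x = Real.log ((x + 1) / x) :=
    (Real.log_div (by positivity) (by positivity)).symm
  have hp : 0 < (x + 1) / x := by positivity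
  constructor
  · rw [sub_nonneg]
    exact Real.log_le_log hx (by linarith)
  · rw [e]
    have h := Real.log_le_sub_one_of_pos hp
    have e2 : (x + 1) / x - 1 = 1 / x := by
      field_simp
      ring
    linarith

private theorem VCCX_d2 (x : ℝ) (hx : 0 < x) :
    Real.log (x + 2) - 2 * Real.log (x + 1) + Real.log x ≤ 0 := by
  have e : Real.log (x + 2) - 2 * Real.log (x + 1) + Real.log x =
      Real.log ((x * (x + 2)) / (x + 1) ^ 2) := by
    rw [Real.log_div (by positivity) (by positivity), Real.log_mul (by positivity) (by positivity),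
      Real.log_pow]
    push_cast
    ring
  rw [e]
  refine Real.log_nonpos (by positivity) ?_
  rw [div_le_one (by positivity)]
  nlinarith

private theorem VCCX_Ioc (N N' : ℕ) : Ioc N N' = Icc (N + 1) N' := by
  ext n
  simp only [mem_Ioc, mem_Icc]
  omega

private theorem VCCX_nit (t ϑ : ℝ) (n : ℕ) :
    nit t n * ee (ϑ * n) = ee (ϑ * n - t / (2 * Real.pi) * Real.log n) := by
  unfold Pool.Agent.SI.nit Pool.Agent.GBQ.ee
  rw [← Complex.exp_add]
  refine congrArg Complex.exp ?_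
  have hpi : (Real.pi : ℂ) ≠ 0 := by exact_mod_cast Real.pi_ne_zero
  push_cast
  field_simp
  ring

/-- a linear phase which is far from the integers -/
private theorem VCCX_kl {C : ℝ} (hC : 1 ≤ C)
    (hKL : ∀ (a b : ℕ) (g : ℕ → ℝ) (lam : ℝ), a ≤ b → 0 < lam → lam ≤ 1 / 2 →
      (∀ n, a ≤ n → n < b → lam ≤ g (n + 1) - g n ∧ g (n + 1) - g n ≤ 1 - lam) →
      ((∀ n, a ≤ n → n + 1 < b → g (n + 1) - g n ≤ g (n + 2) - g (n + 1)) ∨
        (∀ n, a ≤ n → n + 1 < b → g (n + 2) - g (n + 1) ≤ g (n + 1) - g n)) →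
      ‖∑ n ∈ Icc a b, ee (g n)‖ ≤ C / lam)
    {N N' q a : ℕ} {t : ℝ} (hN : 1 ≤ N) (hNN : N < N') (ha : 1 ≤ a) (haq : a < q)
    (ht : q * |t| ≤ N) :
    ‖∑ n ∈ Ioc N N', nit t n * ee ((a / q : ℝ) * n)‖ ≤ 2 * C * q := by
  have hq : 1 ≤ q := by omega
  have hqr : (1 : ℝ) ≤ q := by exact_mod_cast hq
  have hq0 : (0 : ℝ) < q := by linarith
  have hNr : (1 : ℝ) ≤ N := by exact_mod_cast hN
  have hN0 : (0 : ℝ) < N := by linarith
  have hpi3 := Real.pi_gt_three
  have hpi := Real.pi_pos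
  obtain ⟨θ, hθ⟩ : ∃ θ : ℝ, θ = t / (2 * Real.pi) := ⟨_, rfl⟩
  have hθN : |θ| ≤ N / (6 * q) := by
    rw [hθ, abs_div, abs_of_pos (by positivity : 0 < 2 * Real.pi), div_le_div_iff₀
      (by positivity) (by positivity)]
    have h1 : |t| * (6 * q) ≤ 6 * N := by linarith
    nlinarith
  rw [VCCX_Ioc, sum_congr rfl fun n _ => VCCX_nit t (a / q : ℝ) n, ← hθ]
  have e1 : C / (1 / (2 * (q : ℝ))) = 2 * C * q := by
    field_simp
  rw [← e1]
  have hl1 : (1 : ℝ) / (2 * q) ≤ 1 / 2 := by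
    rw [div_le_div_iff₀ (by positivity) (by norm_num)]
    linarith
  have hlog : ∀ n : ℕ, N + 1 ≤ n → |θ * (Real.log ((n : ℝ) + 1) - Real.log n)| ≤ 1 / (6 * q) := by
    intro n hn
    have hn0 : (0 : ℝ) < n := by
      have : 0 < n := by omega
      exact_mod_cast this
    have hnN : (N : ℝ) ≤ n := by
      have : N ≤ n := by omega
      exact_mod_cast this
    obtain ⟨h1, h2⟩ := VCCX_d1 n hn0
    rw [abs_mul, abs_of_nonneg h1]
    have h3 : Real.log ((n : ℝ) + 1) - Real.log n ≤ 1 / N :=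
      h2.trans (one_div_le_one_div_of_le hN0 hnN)
    calc |θ| * (Real.log ((n : ℝ) + 1) - Real.log n) ≤ N / (6 * q) * (1 / N) :=
          mul_le_mul hθN h3 h1 (by positivity)
      _ = 1 / (6 * q) := by
          field_simp
  have hal : (1 : ℝ) / q ≤ a / q := by
    have : (1 : ℝ) ≤ a := by exact_mod_cast ha
    gcongr
  have hau : (a : ℝ) / q ≤ 1 - 1 / q := by
    have : (a : ℝ) + 1 ≤ q := by exact_mod_cast haq
    rw [div_le_iff₀ hq0, sub_mul, one_mul, div_mul_cancel₀ _ hq0.ne']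
    linarith
  have hq6 : (1 : ℝ) / (6 * q) = 1 / 6 * (1 / q) := by
    field_simp
  have hq2 : (1 : ℝ) / (2 * q) = 1 / 2 * (1 / q) := by
    field_simp
  have hqp : 0 < (1 : ℝ) / q := by positivity
  refine hKL (N + 1) N' (fun n => (a / q : ℝ) * n - θ * Real.log n) (1 / (2 * q)) (by omega)
    (by positivity) hl1 (fun n hn hnb => ?_) ?_
  · have h1 := hlog n hn
    rw [hq6] at h1
    have h2 := abs_le.1 h1
    have e2 : (a / q : ℝ) * ((n + 1 : ℕ) : ℝ) - θ * Real.log ((n + 1 : ℕ) : ℝ) -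
        ((a / q : ℝ) * n - θ * Real.log n) =
        a / q - θ * (Real.log ((n : ℝ) + 1) - Real.log n) := by
      push_cast
      ring
    rw [e2, hq2]
    constructor
    · linarith [h2.2]
    · linarith [h2.1]
  · have e3 : ∀ n : ℕ, (a / q : ℝ) * ((n + 2 : ℕ) : ℝ) - θ * Real.log ((n + 2 : ℕ) : ℝ) -
        ((a / q : ℝ) * ((n + 1 : ℕ) : ℝ) - θ * Real.log ((n + 1 : ℕ) : ℝ)) -
        ((a / q : ℝ) * ((n + 1 : ℕ) : ℝ) - θ * Real.log ((n + 1 : ℕ) : ℝ) -
        ((a / q : ℝ) * n - θ * Real.log n)) =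
        θ * -(Real.log ((n : ℝ) + 2) - 2 * Real.log ((n : ℝ) + 1) + Real.log n) := by
      intro n
      push_cast
      ring
    have h4 : ∀ n : ℕ, N + 1 ≤ n →
        0 ≤ -(Real.log ((n : ℝ) + 2) - 2 * Real.log ((n : ℝ) + 1) + Real.log n) := by
      intro n hn
      have hn0 : (0 : ℝ) < n := by
        have : 0 < n := by omega
        exact_mod_cast this
      have := VCCX_d2 n hn0
      linarith
    rcases le_total 0 θ with hs | hs
    · left
      intro n hn _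
      have h5 := mul_nonneg hs (h4 n hn)
      rw [← e3 n] at h5
      exact sub_nonneg.1 h5
    · right
      intro n hn _
      have h5 := mul_nonpos_of_nonpos_of_nonneg hs (h4 n hn)
      rw [← e3 n] at h5
      exact sub_nonpos.1 h5

theorem thm_VCC (hFin : St_Fin) (hVDT : St_VDT) : St_VCC := by
  obtain ⟨C₁, hC₁, hKL⟩ := Pool.Agent.SI.thm_KL
  obtain ⟨C₂, hC₂, hV⟩ := hVDT
  obtain ⟨C₀, hC₀, hVC⟩ := Pool.Agent.SI.thm_VC Pool.Agent.SI.thm_KL
    (Pool.Agent.SI.thm_VD2 Pool.Agent.SI.thm_KL)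
    (Pool.Agent.SI.thm_VD3 (Pool.Agent.SI.thm_VD2 Pool.Agent.SI.thm_KL))
  refine ⟨C₀ + 2 * C₁ + 2 * C₂, by linarith, fun N N' q χ t hN hN' hq ht => ?_⟩
  obtain ⟨c, hc, hχ⟩ := hFin q χ hq
  have hqr : (1 : ℝ) ≤ q := by exact_mod_cast hq
  have hNr : (1 : ℝ) ≤ N := by exact_mod_cast hN
  have ht0 : 0 < |t| := by linarith
  have hs1 : 1 ≤ Real.sqrt |t| := Real.one_le_sqrt.2 ht
  have hNt : 0 ≤ (N : ℝ) / |t| := by positivity
  refine (VCCX_sum χ c hc hχ (Ioc N N') t).trans ?_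
  have key : ∀ a ∈ range q, ‖∑ n ∈ Ioc N N', nit t n * ee ((a / q : ℝ) * n)‖ ≤
      (C₀ + 2 * C₁ + 2 * C₂) * q * (N / |t| + Real.sqrt |t|) := by
    intro a ha
    rw [mem_range] at ha
    have hb : 0 ≤ (N : ℝ) / |t| + Real.sqrt |t| := by positivity
    have hb2 : Real.sqrt |t| ≤ N / |t| + Real.sqrt |t| := by linarith
    rcases Nat.eq_zero_or_pos a with h0 | h0
    · rw [h0]
      have e : ∑ n ∈ Ioc N N', nit t n * ee ((((0 : ℕ) : ℝ) / q : ℝ) * n) =
          ∑ n ∈ Ioc N N', nit t n := by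
        refine sum_congr rfl fun n _ => ?_
        have e1 : ee ((((0 : ℕ) : ℝ) / q : ℝ) * n) = 1 := by
          unfold Pool.Agent.GBQ.ee
          simp
        rw [e1, mul_one]
      rw [e]
      refine (hVC N N' t hN hN' ht).1.trans (mul_le_mul_of_nonneg_right ?_ hb)
      have h1 : C₀ ≤ C₀ + 2 * C₁ + 2 * C₂ := by linarith
      calc C₀ ≤ C₀ + 2 * C₁ + 2 * C₂ := h1
        _ = (C₀ + 2 * C₁ + 2 * C₂) * 1 := (mul_one _).symm
        _ ≤ (C₀ + 2 * C₁ + 2 * C₂) * q := mul_le_mul_of_nonneg_left hqr (by linarith)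
    rcases Nat.lt_or_ge N N' with hNN | hNN
    · rcases le_or_gt ((q : ℝ) * |t|) N with h1 | h1
      · refine (VCCX_kl hC₁ hKL hN hNN h0 ha h1).trans ?_
        have h2 : 2 * C₁ * (q : ℝ) ≤ (C₀ + 2 * C₁ + 2 * C₂) * q :=
          mul_le_mul_of_nonneg_right (by linarith) (by linarith)
        have h3 : 0 ≤ (C₀ + 2 * C₁ + 2 * C₂) * (q : ℝ) := by positivity
        calc 2 * C₁ * (q : ℝ) ≤ (C₀ + 2 * C₁ + 2 * C₂) * q := h2
          _ = (C₀ + 2 * C₁ + 2 * C₂) * q * 1 := (mul_one _).symm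
          _ ≤ (C₀ + 2 * C₁ + 2 * C₂) * q * (N / |t| + Real.sqrt |t|) :=
            mul_le_mul_of_nonneg_left (hs1.trans hb2) h3
      · refine (hV N N' t (a / q : ℝ) hN hN' ht).trans ?_
        have h2 : (N : ℝ) / Real.sqrt |t| ≤ q * Real.sqrt |t| := by
          rw [div_le_iff₀ (by linarith), mul_assoc, Real.mul_self_sqrt ht0.le]
          exact h1.le
        have h3 : Real.sqrt |t| + N / Real.sqrt |t| ≤ 2 * (q * Real.sqrt |t|) := by
          have h4 : Real.sqrt |t| ≤ q * Real.sqrt |t| := le_mul_of_one_le_left (by linarith) hqr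
          linarith
        calc C₂ * (Real.sqrt |t| + N / Real.sqrt |t|) ≤ C₂ * (2 * (q * Real.sqrt |t|)) :=
              mul_le_mul_of_nonneg_left h3 (by linarith)
          _ = 2 * C₂ * q * Real.sqrt |t| := by ring
          _ ≤ (C₀ + 2 * C₁ + 2 * C₂) * q * Real.sqrt |t| := by
              refine mul_le_mul_of_nonneg_right (mul_le_mul_of_nonneg_right ?_ ?_) ?_
              · linarith
              · linarith
              · linarith
          _ ≤ (C₀ + 2 * C₁ + 2 * C₂) * q * (N / |t| + Real.sqrt |t|) :=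
              mul_le_mul_of_nonneg_left hb2 (by positivity)
    · rw [Finset.Ioc_eq_empty (by omega), Finset.sum_empty, norm_zero]
      positivity
  refine (sum_le_sum key).trans (le_of_eq ?_)
  rw [sum_const, card_range, nsmul_eq_mul]
  ring

end Pool.Agent.NRV
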