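import Mathlib
import Pool.Agent.NRV.St
import Pool.Agent.SI.KL
import Pool.Agent.SI.VD2

set_option autoImplicit false

/-!
# NRV: the second derivative test with an additive twist
-/

namespace Pool.Agent.NRV

open Finset Filter
open Pool.Agent.GBQ (ee nd gm)
open Pool.Agent.SI (nit)

private theorem vdt_d2 (x : ℝ) (hx : 0 < x) :
    1 / (x + 1) ^ 2 ≤ -(Real.log (x + 2) - 2 * Real.log (x + 1) + Real.log x) ∧
    -(Real.log (x + 2) - 2 * Real.log (x + 1) + Real.log x) ≤ 1 / (x * (x + 2)) := by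
  have e : Real.log (x + 2) - 2 * Real.log (x + 1) + Real.log x =
      Real.log ((x * (x + 2)) / (x + 1) ^ 2) := by
    rw [Real.log_div (by positivity) (by positivity), Real.log_mul (by positivity) (by positivity),
      Real.log_pow]
    push_cast
    ring
  have hp : 0 < (x * (x + 2)) / (x + 1) ^ 2 := by positivity
  rw [e]
  constructor
  · have h := Real.log_le_sub_one_of_pos hp
    have e2 : (x * (x + 2)) / (x + 1) ^ 2 - 1 = -(1 / (x + 1) ^ 2) := by
      field_simp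
      ring
    linarith
  · have h := Real.one_sub_inv_le_log_of_pos hp
    have e2 : 1 - ((x * (x + 2)) / (x + 1) ^ 2)⁻¹ = -(1 / (x * (x + 2))) := by
      field_simp
      ring
    linarith

/-- the modulus of the sum, up to the sign of the linear term, does not see the sign of `t` -/
private theorem vdt_norm (s : Finset ℕ) (t θ ϑ : ℝ) (hθ : |t| = 2 * Real.pi * θ) :
    ∃ φ : ℝ, ‖∑ n ∈ s, nit t n * ee (ϑ * n)‖ = ‖∑ n ∈ s, ee (-(θ * Real.log n) + φ * n)‖ := by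
  rcases abs_cases t with ⟨h1, _⟩ | ⟨h1, _⟩
  · refine ⟨ϑ, ?_⟩
    have e : ∀ n : ℕ, nit t n * ee (ϑ * n) = ee (-(θ * Real.log n) + ϑ * n) := by
      intro n
      rw [GBQ.ee_add]
      congr 1
      unfold nit ee
      rw [h1] at hθ
      rw [hθ]
      refine congrArg Complex.exp ?_
      push_cast
      ring
    rw [Finset.sum_congr rfl (fun n _ => e n)]
  · refine ⟨-ϑ, ?_⟩
    have e : ∀ n : ℕ, nit t n * ee (ϑ * n) =
        (starRingEnd ℂ) (ee (-(θ * Real.log n) + -ϑ * n)) := by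
      intro n
      rw [← GBQ.ee_neg]
      have e2 : -(-(θ * Real.log (n : ℝ)) + -ϑ * n) = θ * Real.log n + ϑ * n := by ring
      rw [e2, GBQ.ee_add]
      congr 1
      unfold nit ee
      have h2 : t = -(2 * Real.pi * θ) := by linarith
      rw [h2]
      refine congrArg Complex.exp ?_
      push_cast
      ring
    rw [Finset.sum_congr rfl (fun n _ => e n), ← map_sum]
    exact RCLike.norm_conj _

private theorem vdt_Ioc (N N' : ℕ) : Ioc N N' = Icc (N + 1) N' := by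
  ext n
  simp only [mem_Ioc, mem_Icc]
  omega

/-- the second test, with a linear term -/
private theorem vdt_vd2 (C : ℝ) (hC : 1 ≤ C)
    (hVD : ∀ (a b : ℕ) (g : ℕ → ℝ) (lam κ : ℝ), a ≤ b → 0 < lam →
      1 ≤ κ → (∀ n, a ≤ n → n + 2 ≤ b → lam ≤ g (n + 2) - 2 * g (n + 1) + g n ∧
        g (n + 2) - 2 * g (n + 1) + g n ≤ κ * lam) →
      ‖∑ n ∈ Icc a b, ee (g n)‖ ≤ C * κ * (((b : ℝ) - a + 1) * Real.sqrt lam + 1 / Real.sqrt lam))
    (N N' : ℕ) (hN : 1 ≤ N) (hNN : N < N') (hN' : N' ≤ 2 * N) (θ φ : ℝ) (hθ : 0 < θ) :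
    ‖∑ n ∈ Ioc N N', ee (-(θ * Real.log n) + φ * n)‖ ≤
      8 * C * (Real.sqrt θ + N / Real.sqrt θ) := by
  have hNr : (1 : ℝ) ≤ N := by exact_mod_cast hN
  have hN0 : (0 : ℝ) < N := by linarith
  rw [vdt_Ioc]
  have hlam : 0 < θ / (2 * N) ^ 2 := by positivity
  have hsq : Real.sqrt (θ / (2 * N) ^ 2) = Real.sqrt θ / (2 * N) := by
    rw [Real.sqrt_div hθ.le, Real.sqrt_sq (by positivity)]
  have hs : 0 < Real.sqrt θ := Real.sqrt_pos.mpr hθ
  have h := hVD (N + 1) N' (fun n => -(θ * Real.log n) + φ * n) (θ / (2 * N) ^ 2) 4 (by omega) hlam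
    (by norm_num)
    (by
      intro n hn hnb
      have hx : (0 : ℝ) < n := by
        have : 0 < n := by omega
        exact_mod_cast this
      have h1 := vdt_d2 n hx
      have h2 : (N : ℝ) ≤ n := by
        have : N ≤ n := by omega
        exact_mod_cast this
      have h3 : (n : ℝ) + 1 ≤ 2 * N := by
        have : n + 1 ≤ 2 * N := by omega
        exact_mod_cast this
      have h4 : 1 / (2 * (N : ℝ)) ^ 2 ≤ 1 / ((n : ℝ) + 1) ^ 2 :=
        one_div_le_one_div_of_le (by positivity) (by gcongr)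
      have h5 : 1 / ((n : ℝ) * (n + 2)) ≤ 1 / (N : ℝ) ^ 2 :=
        one_div_le_one_div_of_le (by positivity) (by nlinarith)
      have e1 : θ / (2 * (N : ℝ)) ^ 2 = θ * (1 / (2 * (N : ℝ)) ^ 2) := by ring
      have e2 : θ * (1 / (N : ℝ) ^ 2) = 4 * (θ / (2 * (N : ℝ)) ^ 2) := by
        field_simp
        ring
      have e3 : -(θ * Real.log ((n + 2 : ℕ) : ℝ)) + φ * ((n + 2 : ℕ) : ℝ) -
          2 * (-(θ * Real.log ((n + 1 : ℕ) : ℝ)) + φ * ((n + 1 : ℕ) : ℝ)) +
          (-(θ * Real.log (n : ℝ)) + φ * (n : ℝ)) =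
          θ * -(Real.log ((n : ℝ) + 2) - 2 * Real.log ((n : ℝ) + 1) + Real.log n) := by
        push_cast
        ring
      rw [e3, ← e2, e1]
      exact ⟨mul_le_mul_of_nonneg_left (h4.trans h1.1) hθ.le,
        mul_le_mul_of_nonneg_left (h1.2.trans h5) hθ.le⟩)
  refine h.trans ?_
  rw [hsq]
  have h6 : ((N' : ℝ) - ((N + 1 : ℕ) : ℝ) + 1) ≤ N := by
    have : (N' : ℝ) ≤ 2 * N := by exact_mod_cast hN'
    push_cast
    linarith
  have h7 : ((N' : ℝ) - ((N + 1 : ℕ) : ℝ) + 1) * (Real.sqrt θ / (2 * N)) ≤ Real.sqrt θ / 2 := by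
    calc ((N' : ℝ) - ((N + 1 : ℕ) : ℝ) + 1) * (Real.sqrt θ / (2 * N))
        ≤ N * (Real.sqrt θ / (2 * N)) := mul_le_mul_of_nonneg_right h6 (by positivity)
      _ = Real.sqrt θ / 2 := by field_simp
  have h8 : 1 / (Real.sqrt θ / (2 * N)) = 2 * (N / Real.sqrt θ) := by
    field_simp
  have h9 : ((N' : ℝ) - ((N + 1 : ℕ) : ℝ) + 1) * (Real.sqrt θ / (2 * N)) +
      1 / (Real.sqrt θ / (2 * N)) ≤ 2 * (Real.sqrt θ + N / Real.sqrt θ) := by
    rw [h8]
    linarith
  calc C * 4 * (((N' : ℝ) - ((N + 1 : ℕ) : ℝ) + 1) * (Real.sqrt θ / (2 * N)) +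
      1 / (Real.sqrt θ / (2 * N))) ≤ C * 4 * (2 * (Real.sqrt θ + N / Real.sqrt θ)) :=
        mul_le_mul_of_nonneg_left h9 (by linarith)
    _ = 8 * C * (Real.sqrt θ + N / Real.sqrt θ) := by ring

theorem thm_VDT : St_VDT := by
  obtain ⟨C2, hC2, hV2⟩ := SI.thm_VD2 SI.thm_KL
  refine ⟨24 * C2, by linarith, ?_⟩
  intro N N' t ϑ hN hN' ht
  have hNr : (1 : ℝ) ≤ N := by exact_mod_cast hN
  have hN0 : (0 : ℝ) < N := by linarith
  have ht0 : 0 < |t| := by linarith
  have hpi := Real.pi_pos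
  have hpi3 := Real.pi_gt_three
  have hpi4 := Real.pi_lt_d2
  set θ : ℝ := |t| / (2 * Real.pi) with hθdef
  have hθ : |t| = 2 * Real.pi * θ := by
    rw [hθdef]
    field_simp
  have hθ0 : 0 < θ := by positivity
  have hst : 0 < Real.sqrt |t| := Real.sqrt_pos.mpr ht0
  have hsθ : 0 < Real.sqrt θ := Real.sqrt_pos.mpr hθ0
  have hθt : θ ≤ |t| := by
    rw [hθ]
    nlinarith
  rcases Nat.lt_or_ge N N' with hNN | hNN
  · obtain ⟨φ, hφ⟩ := vdt_norm (Ioc N N') t θ ϑ hθ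
    rw [hφ]
    refine (vdt_vd2 C2 hC2 hV2 N N' hN hNN hN' θ φ hθ0).trans ?_
    have h7 : Real.sqrt θ ≤ Real.sqrt |t| := Real.sqrt_le_sqrt hθt
    have h8 : Real.sqrt |t| ≤ 3 * Real.sqrt θ := by
      have e : 3 * Real.sqrt θ = Real.sqrt (9 * θ) := by
        rw [Real.sqrt_mul (by norm_num)]
        congr 1
        rw [show (9 : ℝ) = 3 ^ 2 by norm_num, Real.sqrt_sq (by norm_num)]
      rw [e]
      apply Real.sqrt_le_sqrt
      rw [hθ]
      nlinarith
    have h9 : N / Real.sqrt θ ≤ 3 * (N / Real.sqrt |t|) := by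
      rw [← mul_div_assoc, div_le_div_iff₀ hsθ hst]
      nlinarith
    have h10 : Real.sqrt θ + N / Real.sqrt θ ≤ 3 * (Real.sqrt |t| + N / Real.sqrt |t|) := by
      linarith
    calc 8 * C2 * (Real.sqrt θ + N / Real.sqrt θ)
        ≤ 8 * C2 * (3 * (Real.sqrt |t| + N / Real.sqrt |t|)) :=
          mul_le_mul_of_nonneg_left h10 (by linarith)
      _ = 24 * C2 * (Real.sqrt |t| + N / Real.sqrt |t|) := by ring
  · rw [Finset.Ioc_eq_empty (by omega), Finset.sum_empty, norm_zero]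
    positivity

end Pool.Agent.NRV
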