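import Pool.Agent.NRV.TnT
import Pool.Agent.NRV.ExpT
import Pool.Agent.NRV.VDT
import Pool.Agent.NRV.EST
import Pool.Agent.NRV.Fin
import Pool.Agent.NRV.ESC
import Pool.Agent.NRV.VCC
import Pool.Agent.NRV.RC
import Pool.Agent.NRV.K1C
import Pool.Agent.NRV.K2C
import Pool.Agent.NRV.K3C
import Pool.Agent.NRV.K4C
import Pool.Agent.NRV.MuC
import Pool.Agent.NRV.FaC

/-!
# NRV: assembly (sup bounds with characters, no hypotheses)
-/

set_option autoImplicit false

namespace Pool.Agent.NRV

theorem wESC : St_ESC := thm_ESC thm_Fin (thm_EST (thm_ExpT thm_TnT) thm_VDT)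

theorem wVCC : St_VCC := thm_VCC thm_Fin thm_VDT

theorem wK1C : St_K1C := thm_K1C (thm_RC wESC)

theorem wMuC : St_MuC := thm_MuC (thm_K4C wK1C (thm_K2C wK1C) thm_K3C)

/-- the bounds for the factors of the identity of Heath-Brown, with characters -/
theorem wFaC : St_FaC := thm_FaC wESC wMuC wVCC

end Pool.Agent.NRV
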