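import Mathlib
import Pool.Agent.SI.Stmts
import Pool.Agent.Helper25.MD.ChiRiesz

/-!
# NRV: sup bounds for `χ(n) n^{-it}` and `μ(n) χ(n) n^{-it}` (block V1 of project NRP).  Definitions
-/

set_option autoImplicit false

namespace Pool.Agent.NRV

open Finset
open Pool.Agent.SI (nit rgh smo)
open Pool.Agent.Helper25.MD (LL mob gch)

/-- the sieving limit `exp((log X)^{19/20})` -/
noncomputable def yX (X : ℕ) : ℕ := ⌊Real.exp (Real.log X ^ (19 / 20 : ℝ))⌋₊

/-- a character on the numbers without prime factors up to `y` -/
noncomputable def rc {q : ℕ} (χ : DirichletCharacter ℂ q) (y n : ℕ) : ℂ := rgh y n * χ (n : ZMod q)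

/-- the function of Möbius times a character on the numbers with all prime factors up to `y` -/
noncomputable def sc {q : ℕ} (χ : DirichletCharacter ℂ q) (y n : ℕ) : ℂ := smo y n * χ (n : ZMod q)

end Pool.Agent.NRV
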