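import Pool.Agent.NRV.St
import Pool.Agent.SI.Asm

set_option autoImplicit false

/-!
# NRV [TnT]: `SI.thm_Tn` with arbitrary `α 1`

The proof is that of `Pool/Agent/SI/Tn.lean`: nontrivial bounds for `EE s Y j (α j)` are used only for
`j ∈ tnJ κ`, and `1 ∉ tnJ κ` as `κ ≥ 1`; for `j = 1` the trivial bound holds for every real number.
-/

namespace Pool.Agent.NRV

open Finset Filter
open Pool.Agent.GBQ (ee nd gm)
open Pool.Agent.SI

/-- all indices -/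
private theorem TnT_B (h3 : St_Ej) {r s Y j n N : ℕ} {t κ L : ℝ} {α : ℕ → ℝ}
    (hα : ∀ j, 2 ≤ j → α j = alp t n j) (hs : 1 ≤ s) (hY : 1 ≤ Y)
    (hj : j ∈ Icc 1 r)
    (hL : Real.exp L = N) (hL3 : 300 ≤ L) (ht : t = Real.exp (κ * L)) (hn1 : N < n)
    (hn2 : n ≤ 2 * N) (hκ : 1 ≤ κ) (hy : 2 / 5 * L - Real.log 2 ≤ Real.log Y) :
    EE s Y j (α j) ≤ 252 * (r : ℝ) ^ 2 * (s : ℝ) ^ 2 * L *
      Real.exp (2 * j * Real.log Y - if j ∈ tnJ κ then 7 / 50 * L * j else 0) := by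
  by_cases hj2 : 2 ≤ j
  · rw [hα j hj2]
    exact tn_B h3 hs hY hj hL hL3 ht hn1 hn2 (by linarith) hy
  rw [mem_Icc] at hj
  have hj1 : j = 1 := by omega
  have hm : j ∉ tnJ κ := by
    intro hm
    have h1 := (tnJ_mem (by linarith) hm).1
    rw [hj1] at h1
    push_cast at h1
    linarith
  have hr1 : (1 : ℝ) ≤ r := by exact_mod_cast hj.1.trans hj.2
  rw [if_neg hm, sub_zero]
  refine (tn_EE_triv s Y j _ hs hY).trans ?_
  have hYR : (0 : ℝ) < Y := by exact_mod_cast (by omega : 0 < Y)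
  have hYj : ((Y : ℝ) ^ j) ^ 2 = Real.exp (2 * j * Real.log Y) := by
    rw [← pow_mul, ← Real.rpow_natCast, Real.rpow_def_of_pos hYR]
    congr 1
    push_cast
    ring
  rw [hYj]
  have h4 : 9 * (s : ℝ) ^ 2 ≤ 252 * (r : ℝ) ^ 2 * (s : ℝ) ^ 2 * L := by
    have h5 : 0 ≤ (s : ℝ) ^ 2 := by positivity
    have h6 : 1 ≤ (r : ℝ) ^ 2 := one_le_pow₀ hr1
    have h7 : 9 ≤ 252 * (r : ℝ) ^ 2 * L := by nlinarith
    nlinarith
  calc 9 * ((s : ℝ) ^ 2 * Real.exp (2 * j * Real.log Y)) =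
        (9 * (s : ℝ) ^ 2) * Real.exp (2 * j * Real.log Y) := by ring
    _ ≤ _ := mul_le_mul_of_nonneg_right h4 (Real.exp_pos _).le

private theorem TnT_prod (h3 : St_Ej) {r s Y n N : ℕ} {t κ L : ℝ} {α : ℕ → ℝ}
    (hα : ∀ j, 2 ≤ j → α j = alp t n j) (hs : 1 ≤ s) (hY : 1 ≤ Y)
    (hL : Real.exp L = N) (hL3 : 300 ≤ L) (ht : t = Real.exp (κ * L)) (hn1 : N < n)
    (hn2 : n ≤ 2 * N) (hκ : 1 ≤ κ) (hy : 2 / 5 * L - Real.log 2 ≤ Real.log Y)
    (hJ : tnJ κ ⊆ Icc 1 r) :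
    ∏ j ∈ Icc 1 r, EE s Y j (α j) ≤ (252 * (r : ℝ) ^ 2 * (s : ℝ) ^ 2 * L) ^ r *
      Real.exp (r * (r + 1) * Real.log Y - 7 / 50 * L * ∑ j ∈ tnJ κ, (j : ℝ)) := by
  refine (prod_le_prod (fun j _ => tn_EE_nonneg s Y j _)
    (fun j hj => TnT_B h3 hα hs hY hj hL hL3 ht hn1 hn2 hκ hy)).trans ?_
  rw [prod_mul_distrib, prod_const, Nat.card_Icc, add_tsub_cancel_right, ← Real.exp_sum]
  apply le_of_eq
  congr 2
  rw [sum_sub_distrib, ← tn_gauss r, sum_mul, sum_ite_mem, inter_eq_right.2 hJ, mul_sum]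

/-- the main case -/
private theorem TnT_large (h2 : St_Hol) (h3 : St_Ej) {C0 : ℝ} (hC0 : 0 ≤ C0)
    (h1 : ∀ r P : ℕ, 2 ≤ r → 1 ≤ P → ∀ s : ℕ, s = s0 r ∨ s = 2 * s0 r →
      (JJ r s P : ℝ) ≤ Real.exp (C0 * (r : ℝ) ^ 6) *
        (P : ℝ) ^ (2 * (s : ℝ) - (r : ℝ) * (r + 1) / 2 * (1 - 1 / 2500)))
    {k N n Y : ℕ} {t κ L : ℝ} {α : ℕ → ℝ} (hα : ∀ j, 2 ≤ j → α j = alp t n j) (hk : 2 ≤ k) (hL : Real.exp L = N) (hL3 : 250000 ≤ L)
    (ht : t = Real.exp (κ * L)) (hn1 : N < n) (hn2 : n ≤ 2 * N) (hκ1 : (k : ℝ) - 1 ≤ κ)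
    (hκ2 : κ ≤ k) (hY : 1 ≤ Y) (hy1 : 2 / 5 * L - Real.log 2 ≤ Real.log Y)
    (hy2 : Real.log Y ≤ 2 / 5 * L) :
    ‖TT (5 * k) Y α‖ ≤ Real.exp (2 * Real.log Y + (2 * C0 + 20420) / 4 -
      1 / 1000000000 * L / (k : ℝ) ^ 4) := by
  have hkR : (2 : ℝ) ≤ k := by exact_mod_cast hk
  set r := 5 * k with hr
  set s := s0 r with hs
  have hr10 : 10 ≤ r := by omega
  have hrR : (r : ℝ) = 5 * k := by rw [hr]; push_cast; ring
  have hs1 : 1 ≤ s := by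
    rw [hs, s0]
    have : 0 < r ^ 3 := by positivity
    omega
  have hYR : (0 : ℝ) < Y := by exact_mod_cast (by omega : 0 < Y)
  have hJ : tnJ κ ⊆ Icc 1 r := by
    intro j hj
    obtain ⟨h4, h5⟩ := tnJ_mem (by linarith) hj
    rw [mem_Icc]
    constructor
    · have h6 : (0 : ℝ) < j := by linarith
      exact_mod_cast h6
    · have h6 : (j : ℝ) ≤ r := by rw [hrR]; linarith
      exact_mod_cast h6
  have a1 := h2 r s Y (by omega) hs1 hY α
  have a2 := TnT_prod h3 hα (r := r) hs1 hY hL (by linarith) ht hn1 hn2 (by linarith) hy1 hJ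
  have a3 := tn_pow_bound (r := r) (s := s) (by omega) hs hL3
  have a4 := h1 r Y (by omega) hY s (Or.inl rfl)
  have a5 := h1 r Y (by omega) hY (2 * s) (Or.inr rfl)
  have a6 := tnJ_sum (κ := κ) (by linarith)
  have a7 := tn_num hk hr hs hL3 hy2 hC0 hκ1 a6
  have e1 : (Y : ℝ) ^ (8 * s ^ 2 - 6 * s) = Real.exp ((8 * (s : ℝ) ^ 2 - 6 * s) * Real.log Y) := by
    rw [← Real.rpow_natCast, Real.rpow_def_of_pos hYR]
    congr 1
    rw [Nat.cast_sub (by nlinarith)]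
    push_cast
    ring
  rw [Real.rpow_def_of_pos hYR, ← Real.exp_add] at a4 a5
  have hJ0 : ∀ s', (0 : ℝ) ≤ JJ r s' Y := fun s' => Nat.cast_nonneg _
  have hprod0 : 0 ≤ ∏ j ∈ Icc 1 r, EE s Y j (α j) := prod_nonneg fun j _ => tn_EE_nonneg _ _ _ _
  have b1 : ‖TT r Y α‖ ^ (4 * s ^ 2) ≤
      Real.exp ((8 * (s : ℝ) ^ 2 - 6 * s) * Real.log Y) *
      Real.exp (C0 * (r : ℝ) ^ 6 + Real.log Y * (2 * ((2 * s : ℕ) : ℝ) -
        (r : ℝ) * (r + 1) / 2 * (1 - 1 / 2500))) *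
      Real.exp (C0 * (r : ℝ) ^ 6 + Real.log Y * (2 * (s : ℝ) -
        (r : ℝ) * (r + 1) / 2 * (1 - 1 / 2500))) *
      (Real.exp (20420 * (r : ℝ) ^ 6 + 1 / 250 * L * r) *
      Real.exp (r * (r + 1) * Real.log Y - 7 / 50 * L * ∑ j ∈ tnJ κ, (j : ℝ))) := by
    refine a1.trans ?_
    rw [e1]
    have hp : ∏ j ∈ Icc 1 r, EE s Y j (α j) ≤
        Real.exp (20420 * (r : ℝ) ^ 6 + 1 / 250 * L * r) *
      Real.exp (r * (r + 1) * Real.log Y - 7 / 50 * L * ∑ j ∈ tnJ κ, (j : ℝ)) :=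
      a2.trans (mul_le_mul_of_nonneg_right a3 (Real.exp_pos _).le)
    refine mul_le_mul (mul_le_mul (mul_le_mul_of_nonneg_left a5 (Real.exp_pos _).le) a4
      (hJ0 _) (by positivity)) hp hprod0 (by positivity)
  rw [← Real.exp_add, ← Real.exp_add, ← Real.exp_add, ← Real.exp_add] at b1
  have hm : 4 * s ^ 2 ≠ 0 := by positivity
  have b2 : Real.exp (2 * Real.log Y + (2 * C0 + 20420) / 4 -
      1 / 1000000000 * L / (k : ℝ) ^ 4) ^ (4 * s ^ 2) =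
      Real.exp (4 * (s : ℝ) ^ 2 * (2 * Real.log Y + (2 * C0 + 20420) / 4 -
      1 / 1000000000 * L / (k : ℝ) ^ 4)) := by
    rw [← Real.exp_nat_mul]
    push_cast
    rfl
  rw [← pow_le_pow_iff_left₀ (norm_nonneg _) (Real.exp_pos _).le hm, b2]
  refine b1.trans (Real.exp_le_exp.2 (le_trans (le_of_eq ?_) a7))
  push_cast
  ring

theorem thm_TnT : St_TnT := by
  have h2 : St_Hol := thm_Hol thm_JB
  have h3 : St_Ej := thm_Ej
  obtain ⟨C0, hC0, h1⟩ := thm_MVT recur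
  have hC1 : 0 ≤ (2 * C0 + 20420) / 4 := by positivity
  refine ⟨1 / 1000000000, Real.exp (250000 + (2 * C0 + 20420) / 4), by norm_num, by norm_num,
    Real.one_le_exp (by linarith), ?_⟩
  intro k N n t α hk hN hn1 hn2 ht1 ht2 hα
  have hkR : (2 : ℝ) ≤ k := by exact_mod_cast hk
  have hNR : (1 : ℝ) ≤ N := by exact_mod_cast hN
  have hN0 : (0 : ℝ) < N := by linarith
  set L := Real.log N with hL
  have hexpL : Real.exp L = N := Real.exp_log hN0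
  have hL0 : 0 ≤ L := Real.log_nonneg hNR
  set Y := ⌊(N : ℝ) ^ (2 / 5 : ℝ)⌋₊ with hYdef
  have hx1 : 1 ≤ (N : ℝ) ^ (2 / 5 : ℝ) := Real.one_le_rpow hNR (by norm_num)
  have hY : 1 ≤ Y := Nat.le_floor (by exact_mod_cast hx1)
  have hYR : (1 : ℝ) ≤ Y := by exact_mod_cast hY
  have hYle : (Y : ℝ) ≤ (N : ℝ) ^ (2 / 5 : ℝ) := Nat.floor_le (by linarith)
  have hxe : (N : ℝ) ^ (2 / 5 : ℝ) = Real.exp (2 / 5 * L) := by
    rw [Real.rpow_def_of_pos hN0]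
    congr 1
    ring
  have hNp : (N : ℝ) ^ (-(1 / 1000000000 / (k : ℝ) ^ 4)) =
      Real.exp (-(1 / 1000000000 * L / (k : ℝ) ^ 4)) := by
    rw [Real.rpow_def_of_pos hN0]
    congr 1
    ring
  rw [hNp]
  have hk4 : (1 : ℝ) ≤ (k : ℝ) ^ 4 := one_le_pow₀ (by linarith)
  rcases lt_or_ge L 250000 with hlt | hge
  · -- small `N`
    refine (tn_TT_le _ _ _).trans ?_
    have h4 : 1 / 1000000000 * L / (k : ℝ) ^ 4 ≤ 250000 := by
      calc 1 / 1000000000 * L / (k : ℝ) ^ 4 ≤ 1 / 1000000000 * L := div_le_self (by positivity) hk4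
        _ ≤ 250000 := by linarith
    have h5 : 1 ≤ Real.exp (250000 + (2 * C0 + 20420) / 4) *
        Real.exp (-(1 / 1000000000 * L / (k : ℝ) ^ 4)) := by
      rw [← Real.exp_add]
      exact Real.one_le_exp (by linarith)
    calc (Y : ℝ) ^ 2 = (Y : ℝ) ^ 2 * 1 := by ring
      _ ≤ (Y : ℝ) ^ 2 * (Real.exp (250000 + (2 * C0 + 20420) / 4) *
        Real.exp (-(1 / 1000000000 * L / (k : ℝ) ^ 4))) := by gcongr
      _ = _ := by ring
  · have hL0' : L ≠ 0 := by linarith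
    have ht0 : 0 < t := lt_of_lt_of_le (by positivity) ht1
    have ht : t = Real.exp (Real.log t / L * L) := by
      rw [div_mul_cancel₀ _ hL0', Real.exp_log ht0]
    have hκ1 : (k : ℝ) - 1 ≤ Real.log t / L := by
      rw [le_div_iff₀ (by linarith)]
      have h4 := Real.log_le_log (by positivity) ht1
      rw [Real.log_pow, Nat.cast_sub (by omega)] at h4
      push_cast at h4
      exact h4
    have hκ2 : Real.log t / L ≤ k := by
      rw [div_le_iff₀ (by linarith)]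
      have h4 := Real.log_le_log ht0 ht2
      rw [Real.log_pow] at h4
      exact h4
    have hy1 : 2 / 5 * L - Real.log 2 ≤ Real.log Y := by
      have h4 : (N : ℝ) ^ (2 / 5 : ℝ) < (Y : ℝ) + 1 := Nat.lt_floor_add_one _
      have h5 : (N : ℝ) ^ (2 / 5 : ℝ) ≤ 2 * Y := by linarith
      have h6 := Real.log_le_log (by positivity) h5
      rw [Real.log_mul (by norm_num) (by positivity), hxe, Real.log_exp] at h6
      linarith
    have hy2 : Real.log Y ≤ 2 / 5 * L := by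
      have h6 := Real.log_le_log (by positivity) hYle
      rwa [hxe, Real.log_exp] at h6
    have key := TnT_large h2 h3 hC0 h1 hα hk hexpL hge ht hn1 hn2 hκ1 hκ2 hY hy1 hy2
    refine key.trans ?_
    have e2 : (Y : ℝ) ^ 2 = Real.exp (2 * Real.log Y) := by
      rw [two_mul, Real.exp_add, Real.exp_log (by linarith), sq]
    rw [e2, ← Real.exp_add, ← Real.exp_add]
    apply Real.exp_le_exp.2
    linarith

end Pool.Agent.NRV
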